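import Pool.Agent.XS.StmtsC

/-!
# XS, module BSH: a homogeneous basis of the integral model
-/

set_option autoImplicit false

noncomputable section

namespace Pool.Agent.XS

open scoped Classical
open MvPolynomial Pool.Agent.FRM Pool.Agent.XV Pool.Agent.XB

namespace BSH_

/-- a maximal independent subfamily of the generators of a torsion free module, with denominators
with the property `H` -/
theorem core {A B : Type} [CommRing A] [CommRing B] (S : Subring B) (D : AddSubgroup B)
    (hD : ∀ s ∈ S, ∀ b ∈ D, s * b ∈ D) (f : A →+* B) (hf : ∀ a, f a ∈ S) (I : Ideal A)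
    (hI : ∀ a, f a ∈ D ↔ a ∈ I) (h1 : (1 : B) ∉ D)
    (hnz : ∀ a, a ∉ I → ∀ b ∈ S, f a * b ∈ D → b ∈ D) (m : ℕ) (b : Fin m → B)
    (hb : ∀ i, b i ∈ S)
    (hgen : ∀ y ∈ S, ∃ q : Fin m → A, y - ∑ i, f (q i) * b i ∈ D)
    (H : A → Prop) (H1 : H 1) (Hmul : ∀ a a', H a → H a' → H (a * a'))
    (hH : ∀ (j : Fin m) (T : Finset (Fin m)) (r : A) (q : Fin m → A), r ∉ I →
      f r * b j - ∑ i ∈ T, f (q i) * b i ∈ D → ∃ (r' : A) (q' : Fin m → A), r' ∉ I ∧ H r' ∧
        f r' * b j - ∑ i ∈ T, f (q' i) * b i ∈ D) :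
    ∃ (n : ℕ) (b' : Fin n → B) (r : A), 0 < n ∧ (∀ i, ∃ j, b' i = b j) ∧ r ∉ I ∧ H r ∧
      (∀ q : Fin n → A, (∑ i, f (q i) * b' i) ∈ D → ∀ i, q i ∈ I) ∧
      ∀ y ∈ S, ∃ q : Fin n → A, f r * y - ∑ i, f (q i) * b' i ∈ D := by
  have hmul : ∀ a a' : A, a ∉ I → a' ∉ I → a * a' ∉ I := by
    intro a a' ha ha' hcon
    rw [← hI, map_mul] at hcon
    exact ha' ((hI a').mp (hnz a ha _ (hf a') hcon))
  have hone : (1 : A) ∉ I := by
    intro hcon
    rw [← hI, map_one] at hcon
    exact h1 hcon
  let Ind : Finset (Fin m) → Prop := fun T =>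
    ∀ q : Fin m → A, (∑ i ∈ T, f (q i) * b i) ∈ D → ∀ i ∈ T, q i ∈ I
  have hex : (Finset.univ.powerset.filter Ind).Nonempty :=
    ⟨∅, Finset.mem_filter.mpr ⟨Finset.mem_powerset.mpr (Finset.empty_subset _),
      fun _ _ i hi => absurd hi (Finset.notMem_empty i)⟩⟩
  obtain ⟨T, hT, hmax⟩ := Finset.exists_max_image _ (fun T : Finset (Fin m) => T.card) hex
  have hTI : Ind T := (Finset.mem_filter.mp hT).2
  -- every generator is torsion modulo `T`
  have htor0 : ∀ j : Fin m, ∃ (rj : A) (q : Fin m → A), rj ∉ I ∧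
      f rj * b j - ∑ i ∈ T, f (q i) * b i ∈ D := by
    intro j
    by_cases hj : j ∈ T
    · refine ⟨1, fun i => if i = j then 1 else 0, hone, ?_⟩
      have : ∑ i ∈ T, f (if i = j then (1 : A) else 0) * b i = b j := by
        rw [Finset.sum_eq_single j]
        · rw [if_pos rfl, map_one, one_mul]
        · intro i _ hij
          rw [if_neg hij, map_zero, zero_mul]
        · intro h; exact absurd hj h
      rw [this, map_one, one_mul, sub_self]
      exact D.zero_mem
    · have hnot : ¬ Ind (insert j T) := by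
        intro hcon
        have h2 := hmax (insert j T) (Finset.mem_filter.mpr
          ⟨Finset.mem_powerset.mpr (Finset.subset_univ _), hcon⟩)
        rw [Finset.card_insert_of_notMem hj] at h2
        omega
      simp only [Ind, not_forall] at hnot
      obtain ⟨q, hq, i, hi, hqi⟩ := hnot
      rw [Finset.sum_insert hj] at hq
      have hqj : q j ∉ I := by
        intro hqj
        have h3 : f (q j) * b j ∈ D := by
          rw [mul_comm]
          exact hD _ (hb j) _ ((hI _).mpr hqj)
        have h4 : (∑ i ∈ T, f (q i) * b i) ∈ D := by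
          have := D.sub_mem hq h3
          rwa [add_sub_cancel_left] at this
        rcases Finset.mem_insert.mp hi with h5 | h5
        · rw [h5] at hqi; exact hqi hqj
        · exact hqi (hTI q h4 i h5)
      refine ⟨q j, fun i => - q i, hqj, ?_⟩
      have h3 : ∑ i ∈ T, f (- q i) * b i = - ∑ i ∈ T, f (q i) * b i := by
        rw [← Finset.sum_neg_distrib]
        apply Finset.sum_congr rfl
        intro i _
        rw [map_neg, neg_mul]
      rw [h3, sub_neg_eq_add]
      exact hq
  have htor : ∀ j : Fin m, ∃ (rj : A) (q : Fin m → A), rj ∉ I ∧ H rj ∧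
      f rj * b j - ∑ i ∈ T, f (q i) * b i ∈ D := by
    intro j
    obtain ⟨rj, q, h2, h3⟩ := htor0 j
    exact hH j T rj q h2 h3
  choose rj q hrj hHj hq using htor
  -- the common denominator
  have hr : (∏ j, rj j) ∉ I := by
    have : ∀ U : Finset (Fin m), (∏ j ∈ U, rj j) ∉ I := by
      intro U
      induction U using Finset.induction_on with
      | empty => simpa using hone
      | insert i U hi ih => rw [Finset.prod_insert hi]; exact hmul _ _ (hrj i) ih
    exact this _
  have hHr : H (∏ j, rj j) := by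
    have : ∀ U : Finset (Fin m), H (∏ j ∈ U, rj j) := by
      intro U
      induction U using Finset.induction_on with
      | empty => simpa using H1
      | insert i U hi ih => rw [Finset.prod_insert hi]; exact Hmul _ _ (hHj i) ih
    exact this _
  have hsumS : ∀ (c : Fin m → A), (∑ i ∈ T, f (c i) * b i) ∈ S := fun c =>
    S.sum_mem (fun i _ => S.mul_mem (hf _) (hb i))
  -- generation over `Fin m` functions supported on `T`
  have hgen' : ∀ y ∈ S, ∃ c : Fin m → A,
      f (∏ j, rj j) * y - ∑ i ∈ T, f (c i) * b i ∈ D := by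
    intro y hy
    obtain ⟨p, hp⟩ := hgen y hy
    refine ⟨fun i => ∑ j, (∏ l ∈ Finset.univ.erase j, rj l) * p j * q j i, ?_⟩
    have e1 : f (∏ j, rj j) * y - ∑ i ∈ T, f (∑ j, (∏ l ∈ Finset.univ.erase j, rj l) * p j * q j i) * b i
        = f (∏ j, rj j) * (y - ∑ i, f (p i) * b i) +
          ∑ j, f ((∏ l ∈ Finset.univ.erase j, rj l) * p j) *
            (f (rj j) * b j - ∑ i ∈ T, f (q j i) * b i) := by
      have e2 : ∑ i ∈ T, f (∑ j, (∏ l ∈ Finset.univ.erase j, rj l) * p j * q j i) * b i =
          ∑ j, f ((∏ l ∈ Finset.univ.erase j, rj l) * p j) * ∑ i ∈ T, f (q j i) * b i := by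
        simp only [map_sum, Finset.sum_mul, Finset.mul_sum]
        rw [Finset.sum_comm]
        apply Finset.sum_congr rfl
        intro j _
        apply Finset.sum_congr rfl
        intro i _
        rw [map_mul f _ (q j i)]
        ring
      have e3 : f (∏ j, rj j) * ∑ i, f (p i) * b i =
          ∑ j, f ((∏ l ∈ Finset.univ.erase j, rj l) * p j) * (f (rj j) * b j) := by
        rw [Finset.mul_sum]
        apply Finset.sum_congr rfl
        intro j _
        rw [← Finset.mul_prod_erase _ _ (Finset.mem_univ j), map_mul, map_mul]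
        ring
      rw [e2, mul_sub, e3]
      simp only [mul_sub, Finset.sum_sub_distrib]
      ring
    rw [e1]
    refine D.add_mem (hD _ (hf _) _ hp) (D.sum_mem (fun j _ => hD _ (hf _) _ (hq j)))
  -- reindex
  have e := T.equivFin
  have hsum : ∀ c : Fin m → A, ∑ i : Fin T.card, f (c ((e.symm i : T) : Fin m)) *
      b ((e.symm i : T) : Fin m) = ∑ i ∈ T, f (c i) * b i := by
    intro c
    rw [← Finset.sum_coe_sort T (fun i => f (c i) * b i)]
    exact Equiv.sum_comp e.symm (fun i : T => f (c i) * b i)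
  refine ⟨T.card, fun i => b (e.symm i : T), ∏ j, rj j, ?_, fun i => ⟨_, rfl⟩, hr, hHr, ?_, ?_⟩
  · by_contra hcon
    have hT0 : T = ∅ := Finset.card_eq_zero.mp (by omega)
    obtain ⟨c, hc⟩ := hgen' 1 S.one_mem
    rw [hT0, Finset.sum_empty, sub_zero] at hc
    exact h1 (hnz _ hr 1 S.one_mem hc)
  · intro c hc i
    let c' : Fin m → A := fun j => if h : j ∈ T then c (e ⟨j, h⟩) else 0
    have hcc : ∀ i : Fin T.card, c' ((e.symm i : T) : Fin m) = c i := by
      intro i
      show (if h : ((e.symm i : T) : Fin m) ∈ T then c (e ⟨_, h⟩) else 0) = c i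
      rw [dif_pos (e.symm i).2]
      congr 1
      exact e.apply_symm_apply i
    have h2 : (∑ i ∈ T, f (c' i) * b i) ∈ D := by
      rw [← hsum c']
      simp only [hcc]
      exact hc
    have h3 := hTI c' h2 _ (e.symm i).2
    rw [hcc] at h3
    exact h3
  · intro y hy
    obtain ⟨c, hc⟩ := hgen' y hy
    refine ⟨fun i => c ((e.symm i : T) : Fin m), ?_⟩
    rw [hsum c]
    exact hc


theorem hc_map {A A' ι : Type} [CommRing A] [CommRing A'] (f : A →+* A') (k : ℕ)
    (a : MvPolynomial ι A) : homogeneousComponent k (MvPolynomial.map f a) =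
      MvPolynomial.map f (homogeneousComponent k a) := by
  ext s
  rw [coeff_homogeneousComponent, coeff_map, coeff_map, coeff_homogeneousComponent]
  split_ifs
  · rfl
  · rw [map_zero]

section graded

variable {K B : Type} [Field K] [CommRing B] [Algebra K B] (ℬ : ℕ → Submodule K B)
  [GradedAlgebra ℬ] (φ : MvPolynomial (Fin (N + 1)) K →ₐ[K] B) (hφ : ∀ i, φ (X i) ∈ ℬ 1)

include hφ

theorem phi_mem (P : MvPolynomial (Fin (N + 1)) K) (k : ℕ) (hP : P.IsHomogeneous k) :
    φ P ∈ ℬ k := by
  rw [MvPolynomial.aeval_unique φ, MvPolynomial.aeval_def, MvPolynomial.eval₂_eq]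
  refine Submodule.sum_mem _ fun s hs => ?_
  have h1 : ∏ i ∈ s.support, (φ ∘ X) i ^ s i ∈ ℬ (∑ i ∈ s.support, s i • 1) :=
    SetLike.prod_pow_mem_graded ℬ (fun _ => 1) (φ ∘ X) s fun i _ => hφ i
  have h2 : ∑ i ∈ s.support, s i • 1 = k := by
    have h3 := hP (MvPolynomial.mem_support_iff.1 hs)
    rw [← h3]
    simp [Finsupp.weight_apply, Finsupp.sum]
  rw [h2] at h1
  rw [← Algebra.smul_def]
  exact Submodule.smul_mem _ _ h1

theorem proj_phi (P : MvPolynomial (Fin (N + 1)) K) (k : ℕ) :
    GradedAlgebra.proj ℬ k (φ P) = φ (homogeneousComponent k P) := by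
  conv_lhs => rw [← MvPolynomial.sum_homogeneousComponent P]
  rw [map_sum, map_sum]
  have h1 : ∀ l, GradedAlgebra.proj ℬ k (φ (homogeneousComponent l P)) =
      if l = k then φ (homogeneousComponent k P) else 0 := by
    intro l
    have h2 := phi_mem ℬ φ hφ _ l (homogeneousComponent_isHomogeneous l P)
    rw [GradedAlgebra.proj_apply]
    split_ifs with h
    · subst h
      rw [DirectSum.decompose_of_mem_same ℬ h2]
    · rw [DirectSum.decompose_of_mem_ne ℬ h2 h]
  rw [Finset.sum_congr rfl fun l _ => h1 l, Finset.sum_ite_eq']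
  split_ifs with h
  · rfl
  · rw [homogeneousComponent_eq_zero, map_zero]
    rw [Finset.mem_range] at h
    omega

end graded

end BSH_

open BSH_

theorem BSH_proof (hFID : XB.Stmt_Fid) (hNZD : XB.Stmt_Nzd) (hLFK : XB.Stmt_Lfk)
    (hGSS : XB.Stmt_Gss) (hHMB : XB.Stmt_Hmb) : Stmt_Bsh := by
  intro p J E K _ V F _ c σ t ϖ P z B _ _ φ ℬ _ hsu
  have hb := hsu.base
  have := hsu.dom
  -- the additive group of multiples
  let D : AddSubgroup B :=
    { carrier := {b | Dvb V φ ϖ b}
      zero_mem' := ⟨0, zero_mem _, by simp⟩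
      add_mem' := by
        rintro _ _ ⟨b, hb, rfl⟩ ⟨b', hb', rfl⟩
        exact ⟨b + b', add_mem hb hb', by ring⟩
      neg_mem' := by
        rintro _ ⟨b, hb, rfl⟩
        exact ⟨-b, neg_mem hb, by ring⟩ }
  have hhmb := hHMB K V B φ ℬ hsu.deg
  have hDproj : ∀ b ∈ D, ∀ n, GradedAlgebra.proj ℬ n b ∈ D := by
    rintro _ ⟨b, hb, rfl⟩ n
    refine ⟨GradedAlgebra.proj ℬ n b, hhmb b hb n, ?_⟩
    have h1 : algebraMap V B ϖ * b = (ϖ : K) • b := by
      rw [Algebra.smul_def]
      rfl
    have h2 : algebraMap V B ϖ * GradedAlgebra.proj ℬ n b = (ϖ : K) • GradedAlgebra.proj ℬ n b := by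
      rw [Algebra.smul_def]
      rfl
    rw [h1, h2, map_smul]
  have hgss := (hGSS K V ϖ hb.irr hb.dvr P ?_ z hb.close.z_int B φ hsu.ker hsu.intB).2.1
  · obtain ⟨-, ⟨m₀, g₀, hg1₀, hg2₀⟩, -⟩ := hFID p J E K V F c σ t ϖ P z B φ ℬ hsu
    have hlf : ∀ a, lfb V φ c a ∈ (Sb V φ).toSubring := by
      intro a
      show (vB V φ).IsIntegralElem _
      exact RingHom.isIntegralElem_map _
    -- components of `lfb`
    have hlfproj : ∀ a k, GradedAlgebra.proj ℬ k (lfb V φ c a) =
        lfb V φ c (homogeneousComponent k a) := by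
      intro a k
      have h1 : ∀ a : MvPolynomial (Fin (N + 1)) F, lfb V φ c a =
          φ (MvPolynomial.map (V.subtype.comp c) a) := by
        intro a
        rw [← MvPolynomial.map_map]
        rfl
      rw [h1, h1, proj_phi ℬ φ hsu.deg, hc_map]
    have hlfmem : ∀ a k, a.IsHomogeneous k → lfb V φ c a ∈ ℬ k := by
      intro a k ha
      exact phi_mem ℬ φ hsu.deg _ k ((ha.map c).map V.subtype)
    -- homogeneous generators
    obtain ⟨m, g, d, hgS, hgd, hg2⟩ : ∃ (m : ℕ) (g : Fin m → B) (d : Fin m → ℕ),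
        (∀ i, g i ∈ Sb V φ) ∧ (∀ i, g i ∈ ℬ (d i)) ∧ ∀ y ∈ Sb V φ,
        ∃ q : Fin m → MvPolynomial (Fin (N + 1)) F, y - ∑ i, lfb V φ c (q i) * g i ∈ D := by
      let ι : Type := Σ i : Fin m₀, ((DirectSum.decompose ℬ (g₀ i)).support : Finset ℕ)
      let e := Fintype.equivFin ι
      refine ⟨Fintype.card ι, fun j => GradedAlgebra.proj ℬ (e.symm j).2 (g₀ (e.symm j).1),
        fun j => (e.symm j).2, fun j => hhmb _ (hg1₀ _) _, fun j => ?_, fun y hy => ?_⟩
      · exact SetLike.coe_mem _
      · obtain ⟨q, hq⟩ := hg2₀ y hy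
        refine ⟨fun j => aeval (fun j => MvPolynomial.map σ (z j)) (q (e.symm j).1), ?_⟩
        have h1 : ∑ j, lfb V φ c (aeval (fun j => MvPolynomial.map σ (z j)) (q (e.symm j).1)) *
            GradedAlgebra.proj ℬ (e.symm j).2 (g₀ (e.symm j).1) =
            ∑ i, lfb V φ c (aeval (fun j => MvPolynomial.map σ (z j)) (q i)) * g₀ i := by
          rw [Equiv.sum_comp e.symm (fun x : ι =>
            lfb V φ c (aeval (fun j => MvPolynomial.map σ (z j)) (q x.1)) *
            GradedAlgebra.proj ℬ x.2 (g₀ x.1)), Fintype.sum_sigma]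
          refine Finset.sum_congr rfl fun i _ => ?_
          dsimp only
          rw [← Finset.mul_sum]
          congr 1
          rw [Finset.sum_coe_sort (DirectSum.decompose ℬ (g₀ i)).support
            (fun k => GradedAlgebra.proj ℬ k (g₀ i))]
          exact DirectSum.sum_support_decompose ℬ (g₀ i)
        rw [h1]
        exact hq
    have hmulproj : ∀ (a : MvPolynomial (Fin (N + 1)) F) (i : Fin m) (k : ℕ),
        GradedAlgebra.proj ℬ k (lfb V φ c a * g i) =
          lfb V φ c (if d i ≤ k then homogeneousComponent (k - d i) a else 0) * g i := by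
      intro a i k
      rw [GradedAlgebra.proj_apply]
      split_ifs with h
      · rw [DirectSum.coe_decompose_mul_of_right_mem_of_le ℬ (hgd i) h, ← hlfproj,
          GradedAlgebra.proj_apply]
      · rw [DirectSum.coe_decompose_mul_of_right_mem_of_not_le ℬ (hgd i) h, map_zero, zero_mul]
    obtain ⟨n, b', r, h1, h2, h3, ⟨k, hk⟩, h4, h5⟩ := core (Sb V φ).toSubring D
      (by
        rintro s hs _ ⟨b, hb, rfl⟩
        exact ⟨s * b, mul_mem hs hb, by ring⟩)
      (lfb V φ c) hlf (I F) (fun a => hLFK p J E K V F c σ t ϖ P z B φ ℬ hsu a) hgss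
      (fun a ha b hb' h => hNZD p J E K V F c σ t ϖ P z B φ ℬ hsu a ha b hb' h) m g hgS hg2
      (fun a => ∃ k, a.IsHomogeneous k) ⟨0, MvPolynomial.isHomogeneous_one _ _⟩
      (fun a a' ⟨k, hk⟩ ⟨k', hk'⟩ => ⟨k + k', hk.mul hk'⟩)
      (by
        intro j T r q hr hq
        obtain ⟨k, hk⟩ : ∃ k, homogeneousComponent k r ∉ I F := by
          by_contra hcon
          push Not at hcon
          apply hr
          rw [← MvPolynomial.sum_homogeneousComponent r]
          exact Ideal.sum_mem _ fun k _ => hcon k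
        refine ⟨homogeneousComponent k r, fun i =>
          if d i ≤ k + d j then homogeneousComponent (k + d j - d i) (q i) else 0, hk,
          ⟨k, homogeneousComponent_isHomogeneous k r⟩, ?_⟩
        have h1 := hDproj _ hq (k + d j)
        rw [map_sub, map_sum, hmulproj, if_pos (by omega), Nat.add_sub_cancel] at h1
        rw [Finset.sum_congr rfl fun i _ => hmulproj (q i) i (k + d j)] at h1
        exact h1)
    choose j hj using h2
    refine ⟨n, b', r, fun i => d (j i), k, h1, ⟨fun i => ?_, h3, h4, h5⟩, fun i => ?_, hk⟩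
    · rw [hj]; exact hgS _
    · rw [hj]; exact hgd _
  · exact hb.close.dim

end Pool.Agent.XS
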