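import Pool.Agent.XS.Stmts

/-!
# JGP: the ideal of the section `G` is prime
-/

set_option autoImplicit false

noncomputable section

namespace Pool.Agent.XS

open scoped Classical
open MvPolynomial Pool.Agent.FRM Pool.Agent.XV Pool.Agent.XB

namespace JGP_

variable (F : Type) [Field F]

/-- the variables with `u` replaced by zero -/
def ρ₀ : Vr → Cox F
  | Vr.u => 0
  | Vr.a i => X (Vr.a i)
  | Vr.b i => X (Vr.b i)
  | Vr.T => X Vr.T

/-- the homomorphism `u ↦ 0` -/
def ρ : Cox F →ₐ[F] Cox F := aeval (ρ₀ F)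

theorem ρ_br (k : Fin 10) : ρ F (br F k) = br F k := by
  simp [br, br2, ρ, ρ₀]

theorem ρ_cm (c : Pt) : ρ F (cm F c) = if c.w = 0 then cm F c else 0 := by
  unfold cm mon
  rw [map_mul, map_mul, map_pow, map_pow, map_prod]
  simp_rw [map_pow, ρ_br]
  have h1 : ρ F (X Vr.u) = 0 := by simp [ρ, ρ₀]
  have h2 : ρ F (X Vr.T) = X Vr.T := by simp [ρ, ρ₀]
  rw [h1, h2]
  split_ifs with h
  · rw [h, pow_zero, pow_zero]
  · rw [zero_pow h, mul_zero, zero_mul]

/-- the coordinates of positive order replaced by zero -/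
def τ : MvPolynomial (Fin (N + 1)) F →ₐ[F] MvPolynomial (Fin (N + 1)) F :=
  aeval fun i => if (pt i).w = 0 then X i else 0

theorem cx_τ (r : MvPolynomial (Fin (N + 1)) F) : cx F (τ F r) = ρ F (cx F r) := by
  have h : (cx F).comp (τ F) = (ρ F).comp (cx F) := by
    apply MvPolynomial.algHom_ext
    intro i
    rw [AlgHom.comp_apply, AlgHom.comp_apply]
    have h1 : τ F (X i) = if (pt i).w = 0 then X i else 0 := by simp [τ]
    have h2 : cx F (X i) = cm F (pt i) := by simp [cx]
    rw [h1, h2, ρ_cm]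
    split_ifs
    · exact h2
    · exact map_zero _
  have := congrArg (fun f => f r) h
  exact this

theorem sub_mem (r : MvPolynomial (Fin (N + 1)) F) : r - τ F r ∈ Jg F none := by
  rw [← Ideal.Quotient.eq]
  have h : (Ideal.Quotient.mkₐ F (Jg F none)) =
      (Ideal.Quotient.mkₐ F (Jg F none)).comp (τ F) := by
    apply MvPolynomial.algHom_ext
    intro i
    rw [AlgHom.comp_apply]
    have h1 : τ F (X i) = if (pt i).w = 0 then X i else 0 := by simp [τ]
    rw [h1]
    split_ifs with hi
    · rfl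
    · rw [map_zero, Ideal.Quotient.mkₐ_eq_mk, Ideal.Quotient.eq_zero_iff_mem]
      refine Ideal.subset_span ⟨pt i, Nat.pos_of_ne_zero hi, ?_⟩
      unfold xc
      rw [Equiv.symm_apply_apply]
  exact congrArg (fun f => f r) h

theorem ker_eq : JI F none = RingHom.ker ((ρ F).comp (cx F)) := by
  apply le_antisymm
  · refine sup_le ?_ ?_
    · unfold Jg
      rw [Ideal.span_le]
      rintro _ ⟨c, hc, rfl⟩
      rw [SetLike.mem_coe, RingHom.mem_ker, AlgHom.comp_apply, cx_xc, ρ_cm, if_neg]
      exact Nat.pos_iff_ne_zero.1 hc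
    · intro r hr
      have h : cx F r = 0 := hr
      rw [RingHom.mem_ker, AlgHom.comp_apply, h, map_zero]
  · intro r hr
    rw [RingHom.mem_ker, AlgHom.comp_apply, ← cx_τ] at hr
    have h1 : τ F r ∈ I F := hr
    have h2 : r = (r - τ F r) + τ F r := by ring
    rw [h2]
    exact Submodule.add_mem_sup (sub_mem F r) h1

end JGP_

theorem JGP_proof : Stmt_Jgp := by
  intro F _
  rw [JGP_.ker_eq]
  exact RingHom.ker_isPrime _

end Pool.Agent.XS
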