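import Pool.Agent.XS.Stmts

/-!
# XS / RAZ: the function `y` has poles only along the surface
-/

set_option autoImplicit false

noncomputable section

namespace Pool.Agent.XS

open scoped Classical
open MvPolynomial Pool.Agent.FRM Pool.Agent.XV Pool.Agent.XB

namespace RAZ_

theorem act_inv_e (π : Equiv.Perm (Fin 5)) (c : Pt) (k : Fin 10) :
    (act π⁻¹ c).e k = c.e (pe π k) := by
  change c.e (pe (π⁻¹)⁻¹ k) = c.e (pe π k)
  rw [inv_inv]

theorem elc_inv (σ : Fin 6) (l : Fin 3) (π : Equiv.Perm (Fin 5)) (c : Pt) :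
    elc σ l (act π⁻¹ c) = el σ l c.w (c.e (pe π 0)) (c.e (pe π 7)) := by
  unfold elc
  rw [act_inv_e, act_inv_e]
  rfl

theorem pe_inj (π : Equiv.Perm (Fin 5)) {a b : Fin 10} (h : pe π a = pe π b) : a = b := by
  have h1 := congrArg (pe π⁻¹) h
  rw [← pe_mul, ← pe_mul, inv_mul_cancel, pe_one, pe_one] at h1
  exact h1

theorem cGe_pe (π : Equiv.Perm (Fin 5)) (a b : Fin 10) : cGe (pe π a) (pe π b) = cGe a b := by
  unfold cGe
  by_cases h : b = a
  · rw [if_pos (by rw [h]), if_pos h]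
  · rw [if_neg (fun h' => h (pe_inj π h')), if_neg h]
    by_cases h2 : Disj a b
    · rw [if_pos (disj_pe π a b h2), if_pos h2]
    · rw [if_neg, if_neg h2]
      intro h3
      apply h2
      have h4 := disj_pe π⁻¹ _ _ h3
      rw [← pe_mul, ← pe_mul, inv_mul_cancel, pe_one, pe_one] at h4
      exact h4

theorem tab0 : ∀ (σ : Fin 6) (l : Fin 3), (σ = 0 ∧ l = 2) ∨ el σ l 1 2 2 ≤ 2 * el σ l 0 1 1 := by
  decide +kernel

theorem tabk : ∀ (σ : Fin 6) (l : Fin 3) (k : Fin 10),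
    (l = 0 ∧ (σ = 0 ∨ σ = 1 ∨ σ = 2) ∧ k = 0) ∨ (l = 1 ∧ (σ = 0 ∨ σ = 1) ∧ k = 7) ∨
      el σ l 0 (cGe k 0) (cGe k 7) ≤ 2 * el σ l 0 1 1 := by
  decide +kernel

end RAZ_

open RAZ_ in
theorem RAZ_proof : Stmt_Raz := by
  intro g π σ l hn
  rw [elc_inv, elc_inv]
  cases g with
  | none =>
    rcases tab0 σ l with h | h
    · exact absurd (Or.inl ⟨rfl, h.1, h.2⟩) hn
    · exact h
  | some k =>
    have hk : pe π (pe π⁻¹ k) = k := by
      rw [← pe_mul, mul_inv_cancel, pe_one]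
    change el σ l 0 (cGe k (pe π 0)) (cGe k (pe π 7)) ≤ 2 * el σ l 0 1 1
    rcases tabk σ l (pe π⁻¹ k) with h | h | h
    · rw [h.2.2] at hk
      exact absurd (Or.inr ⟨k, rfl, Or.inl ⟨h.1, h.2.1, hk⟩⟩) hn
    · rw [h.2.2] at hk
      exact absurd (Or.inr ⟨k, rfl, Or.inr ⟨h.1, h.2.1, hk⟩⟩) hn
    · rw [← cGe_pe π (pe π⁻¹ k) 0, ← cGe_pe π (pe π⁻¹ k) 7, hk] at h
      exact h

end Pool.Agent.XS
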