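import Pool.Agent.XS.StmtsC

/-!
# XBI: the Hilbert function of `X` is not quadratic
-/

set_option autoImplicit false

noncomputable section

namespace Pool.Agent.XS.XBI_

theorem sum_sq (m : ℕ) : 6 * ∑ k ∈ Finset.range (m + 1), k ^ 2 = m * (m + 1) * (2 * m + 1) := by
  induction m with
  | zero => simp
  | succ m ih =>
    rw [Finset.sum_range_succ, mul_add, ih]
    ring

end Pool.Agent.XS.XBI_

namespace Pool.Agent.XS

open Pool.Agent.XV Pool.Agent.XB

theorem XBI_proof (hVGT : XB.Stmt_Vgt) (hXSL : Stmt_Xsl) : Stmt_Xbi := by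
  intro F _ C
  refine ⟨C + 12 + 11, ?_⟩
  have h1 := hVGT F (C + 12)
  have h2 : 10 * ∑ k ∈ Finset.range (C + 12 + 1), k ^ 2 ≤
      ∑ k ∈ Finset.range (C + 12 + 1), Module.finrank F (qgr (JI F none) k) := by
    rw [Finset.mul_sum]
    exact Finset.sum_le_sum fun k _ => hXSL F k
  have h3 := XBI_.sum_sq (C + 12)
  refine lt_of_lt_of_le ?_ h1
  refine lt_of_lt_of_le ?_ (Nat.mul_le_mul_left 12 h2)
  have h4 : 12 * (10 * ∑ k ∈ Finset.range (C + 12 + 1), k ^ 2) =
      20 * ((C + 12) * (C + 12 + 1) * (2 * (C + 12) + 1)) := by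
    rw [← h3]
    ring
  rw [h4]
  nlinarith [Nat.zero_le C, Nat.zero_le (C * C), Nat.zero_le (C * C * C)]

end Pool.Agent.XS
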