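import Pool.Agent.XS.Stmts

/-!
# XCJ: powers of all coordinates are in the ideal of the surface in `R[y]`
-/

set_option autoImplicit false

noncomputable section

namespace Pool.Agent.XS

open scoped Classical
open MvPolynomial Pool.Agent.FRM Pool.Agent.XV Pool.Agent.XB

namespace XCJ_

variable {F : Type} [Field F]

theorem tws_hom (π : Equiv.Perm (Fin 5)) (c : Pt) : (tws π (xc F) c).IsHomogeneous 1 := by
  unfold tws xc
  rw [← map_intCast (C : F →+* MvPolynomial (Fin (N + 1)) F)]
  have h := (isHomogeneous_C (Fin (N + 1)) ((sgn π c : ℤ) : F)).mul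
    (isHomogeneous_X F (pt.symm (act π c)))
  simpa using h

theorem chf_hom (π : Equiv.Perm (Fin 5)) (σ : Fin 6) : (chf F π σ).IsHomogeneous 4 := by
  have h := (((tws_hom (F := F) π (tp σ 0)).mul (tws_hom π (tp σ 7))).mul
    (tws_hom π (tp σ 8))).mul (tws_hom π (tp σ 9))
  exact h

theorem che_hom (π : Equiv.Perm (Fin 5)) (σ : Fin 6) (l : Fin 3) :
    (che F π σ l).IsHomogeneous 1 := tws_hom _ _

theorem xc_hom (c : Pt) : (xc F c).IsHomogeneous 1 := isHomogeneous_X _ _

/-- Components of a product. -/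
theorem hc_mul' {n d : ℕ} {f : MvPolynomial (Fin (N + 1)) F} (hf : f.IsHomogeneous d)
    (p : MvPolynomial (Fin (N + 1)) F) :
    homogeneousComponent n (f * p) =
      ∑ i ∈ Finset.range (p.totalDegree + 1), if n = d + i then f * homogeneousComponent i p
        else 0 := by
  conv_lhs => rw [← sum_homogeneousComponent p, Finset.mul_sum, map_sum]
  refine Finset.sum_congr rfl fun i _ => ?_
  exact homogeneousComponent_of_mem (hf.mul (homogeneousComponent_isHomogeneous i p))

theorem hc_mul {n d : ℕ} {f : MvPolynomial (Fin (N + 1)) F} (hf : f.IsHomogeneous d)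
    (p : MvPolynomial (Fin (N + 1)) F) :
    homogeneousComponent (d + n) (f * p) = f * homogeneousComponent n p := by
  rw [hc_mul' hf p]
  by_cases h : n ∈ Finset.range (p.totalDegree + 1)
  · rw [Finset.sum_eq_single_of_mem n h]
    · rw [if_pos rfl]
    · intro b _ hb
      rw [if_neg]
      omega
  · rw [Finset.sum_eq_zero, homogeneousComponent_eq_zero, mul_zero]
    · rw [Finset.mem_range, not_lt] at h
      omega
    · intro b hb
      rw [if_neg]
      intro h'
      apply h
      have : n = b := by omega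
      rw [this]
      exact hb

theorem hc_mul_lt {n d : ℕ} {f : MvPolynomial (Fin (N + 1)) F} (hf : f.IsHomogeneous d)
    (h : n < d) (p : MvPolynomial (Fin (N + 1)) F) :
    homogeneousComponent n (f * p) = 0 := by
  rw [hc_mul' hf p]
  refine Finset.sum_eq_zero fun i _ => ?_
  rw [if_neg]
  omega

variable (F) in
/-- The homogeneous elements of degree `n` of the ideal of the surface in `R[y]`. -/
def Ys (g : Option (Fin 10)) (n : ℕ) : Submodule F (MvPolynomial (Fin (N + 1)) F ⧸ I F) :=
  Submodule.span F {f | ∃ i, i ≤ n ∧ ∃ r : MvPolynomial (Fin (N + 1)) F,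
        r.IsHomogeneous (n - i) ∧ r ∈ Jg F g ∧ f = Ideal.Quotient.mk (I F) (ym F g n i r)}

theorem Ys_mul {g : Option (Fin 10)} {n d : ℕ} {b : MvPolynomial (Fin (N + 1)) F}
    (hb : b.IsHomogeneous d) {x : MvPolynomial (Fin (N + 1)) F ⧸ I F} (hx : x ∈ Ys F g n) :
    Ideal.Quotient.mk (I F) (b * xc F (cG g) ^ d) * x ∈ Ys F g (d + n) := by
  unfold Ys at hx
  induction hx using Submodule.span_induction with
  | mem x hx =>
    obtain ⟨i, hi, r, hr, hrJ, rfl⟩ := hx
    refine Submodule.subset_span ⟨i, by omega, b * r, ?_, Ideal.mul_mem_left _ _ hrJ, ?_⟩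
    · have := hb.mul hr
      rwa [show d + (n - i) = d + n - i by omega] at this
    · rw [← map_mul]
      congr 1
      unfold ym
      rw [show d + n - i = d + (n - i) by omega, pow_add]
      ring
  | zero => rw [mul_zero]; exact Submodule.zero_mem _
  | add x y _ _ hx hy => rw [mul_add]; exact Submodule.add_mem _ hx hy
  | smul a x _ hx =>
    rw [mul_smul_comm]
    exact Submodule.smul_mem _ _ hx

variable (F) in
/-- The polynomials whose components are, after division by powers of the numerator of `1 / y`,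
in the ideal of the surface. -/
def T (g : Option (Fin 10)) : Ideal (MvPolynomial (Fin (N + 1)) F) where
  carrier := {p | ∀ n, Ideal.Quotient.mk (I F) (homogeneousComponent n p * xc F (cG g) ^ n) ∈
    Ys F g n}
  zero_mem' := by
    intro n
    rw [map_zero, zero_mul, map_zero]
    exact Submodule.zero_mem _
  add_mem' := by
    intro p q hp hq n
    rw [map_add, add_mul, map_add]
    exact Submodule.add_mem _ (hp n) (hq n)
  smul_mem' := by
    intro b p hp n
    have h : b • p = ∑ i ∈ Finset.range (b.totalDegree + 1), homogeneousComponent i b * p := by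
      rw [← Finset.sum_mul, sum_homogeneousComponent, smul_eq_mul]
    rw [h, map_sum, Finset.sum_mul, map_sum]
    refine Submodule.sum_mem _ fun i _ => ?_
    by_cases hi : i ≤ n
    · obtain ⟨m, rfl⟩ := Nat.exists_eq_add_of_le hi
      rw [hc_mul (homogeneousComponent_isHomogeneous i b)]
      have h1 := Ys_mul (homogeneousComponent_isHomogeneous i b) (hp m)
      rw [← map_mul] at h1
      convert h1 using 2
      rw [pow_add]
      ring
    · rw [hc_mul_lt (homogeneousComponent_isHomogeneous i b) (by omega), zero_mul, map_zero]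
      exact Submodule.zero_mem _

theorem mem_T {g : Option (Fin 10)} {p : MvPolynomial (Fin (N + 1)) F} : p ∈ T F g ↔ ∀ n,
    Ideal.Quotient.mk (I F) (homogeneousComponent n p * xc F (cG g) ^ n) ∈ Ys F g n := Iff.rfl

theorem mem_T_hom {g : Option (Fin 10)} {p : MvPolynomial (Fin (N + 1)) F} {d : ℕ}
    (hp : p.IsHomogeneous d) : p ∈ T F g ↔
    Ideal.Quotient.mk (I F) (p * xc F (cG g) ^ d) ∈ Ys F g d := by
  rw [mem_T]
  constructor
  · intro h
    have := h d
    rwa [homogeneousComponent_eq_self hp] at this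
  · intro h n
    rw [homogeneousComponent_of_mem hp]
    split_ifs with hn
    · subst hn
      exact h
    · rw [zero_mul, map_zero]
      exact Submodule.zero_mem _

theorem J_le (g : Option (Fin 10)) : Jg F g ≤ T F g := by
  unfold Jg
  rw [Ideal.span_le]
  rintro _ ⟨c, hc, rfl⟩
  rw [SetLike.mem_coe, mem_T_hom (xc_hom c)]
  refine Submodule.subset_span ⟨0, Nat.zero_le _, xc F c, xc_hom c,
    Ideal.subset_span ⟨c, hc, rfl⟩, ?_⟩
  unfold ym
  congr 1
  ring

theorem I_le (hPRI : XV.Stmt_Pri) (g : Option (Fin 10)) : I F ≤ T F g := by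
  intro p hp
  rw [mem_T]
  intro n
  have h1 : homogeneousComponent n p ∈ I F := (hPRI F).2 p hp n
  rw [Ideal.Quotient.eq_zero_iff_mem.2 (Ideal.mul_mem_right _ _ h1)]
  exact Submodule.zero_mem _

end XCJ_

open XCJ_

theorem XCJ_proof (hLCG : XB.Stmt_Lcg) (hCVG : XB.Stmt_Cvg) (hPRI : XV.Stmt_Pri) : Stmt_Xcj := by
  intro F _ _ g c
  have hch : ∀ π σ l, RayOf g π σ l → chf F π σ ∈ (T F g).radical := by
    intro π σ l hl
    obtain ⟨he, -, -, ⟨n, u, v, -, hu⟩, -, -⟩ := hLCG F g π σ l hl
    refine ⟨n + 1, ?_⟩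
    have hf : (chf F π σ ^ (n + 1)).IsHomogeneous (4 * (n + 1)) := (chf_hom π σ).pow (n + 1)
    rw [mem_T_hom hf]
    -- the equation of degree 4 (n + 1) + 1
    have ha : 1 ≤ aG g ∧ aG g ≤ 2 := by
      cases g <;> simp [aG]
    have hE : (che F π σ l ^ aG g * xc F cO ^ 2).IsHomogeneous (aG g + 2) := by
      have := ((che_hom (F := F) π σ l).pow (aG g)).mul ((xc_hom (F := F) cO).pow 2)
      simpa using this
    have h1 : chf F π σ ^ (n + 1) * xc F (cG g) -
        che F π σ l ^ aG g * xc F cO ^ 2 * (chf F π σ * u) ∈ I F := by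
      have := Ideal.mul_mem_left (I F) (chf F π σ) hu
      convert this using 1
      ring
    have h2 := (hPRI F).2 _ h1 (4 * (n + 1) + 1)
    have h3 : (chf F π σ ^ (n + 1) * xc F (cG g)).IsHomogeneous (4 * (n + 1) + 1) :=
      hf.mul (xc_hom _)
    rw [map_sub, homogeneousComponent_eq_self h3,
      show 4 * (n + 1) + 1 = (aG g + 2) + (4 * (n + 1) - 1 - aG g) by omega, hc_mul hE] at h2
    set u' := homogeneousComponent (4 * (n + 1) - 1 - aG g) (chf F π σ * u) with hu'
    have hu'h : u'.IsHomogeneous (4 * (n + 1) - 1 - aG g) :=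
      homogeneousComponent_isHomogeneous _ _
    have hr : (che F π σ l ^ aG g * u').IsHomogeneous (4 * (n + 1) - 1) := by
      have := ((che_hom (F := F) π σ l).pow (aG g)).mul hu'h
      rwa [show 1 * aG g + (4 * (n + 1) - 1 - aG g) = 4 * (n + 1) - 1 by omega] at this
    refine Submodule.subset_span ⟨1, by omega, che F π σ l ^ aG g * u', hr, ?_, ?_⟩
    · refine Ideal.mul_mem_right _ _ ?_
      exact Ideal.pow_mem_of_mem _ he _ (by omega)
    · rw [Ideal.Quotient.eq]
      have h4 := Ideal.mul_mem_left (I F) (xc F (cG g) ^ (4 * (n + 1) - 1)) h2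
      convert h4 using 1
      unfold ym
      have h5 : xc F (cG g) ^ (4 * (n + 1)) =
          xc F (cG g) ^ (4 * (n + 1) - 1) * xc F (cG g) := by
        rw [← pow_succ]
        congr 1
      rw [h5]
      ring
  have hle : Ideal.span {f | ∃ π σ l, RayOf g π σ l ∧ f = chf F π σ} ⊔ JI F g ≤
      (T F g).radical := by
    refine sup_le ?_ (le_trans (sup_le (J_le g) (I_le hPRI g)) Ideal.le_radical)
    rw [Ideal.span_le]
    rintro _ ⟨π, σ, l, hl, rfl⟩
    exact hch π σ l hl
  obtain ⟨m, hm⟩ := hCVG F g (pt.symm c)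
  have h1 : xc F c ^ m ∈ (T F g).radical := hle hm
  obtain ⟨k, hk⟩ := h1
  rw [← pow_mul] at hk
  have h2 : xc F c ^ (m * k + 1) ∈ T F g := by
    rw [pow_succ]
    exact Ideal.mul_mem_right _ _ hk
  have h3 : (xc F c ^ (m * k + 1)).IsHomogeneous (m * k + 1) := by
    have := (xc_hom (F := F) c).pow (m * k + 1)
    rwa [one_mul] at this
  rw [mem_T_hom h3] at h2
  exact ⟨m * k + 1, by omega, h2⟩

end Pool.Agent.XS
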