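import Pool.Agent.XS.Stmts

/-!
# XCV: the charts cover `X`
-/

set_option autoImplicit false

noncomputable section

namespace Pool.Agent.XS

open scoped Classical
open MvPolynomial Pool.Agent.FRM Pool.Agent.XV Pool.Agent.XB

namespace XCV_

theorem map_cox (F : Type) [CommRing F] (G : MvPolynomial (Fin (N + 1)) ℤ) :
    cx F (MvPolynomial.map (Int.castRingHom F) G) =
      MvPolynomial.map (Int.castRingHom F) (cx ℤ G) := by
  have h1 : ((cx F).toRingHom.comp (MvPolynomial.map (Int.castRingHom F))) =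
      (MvPolynomial.map (Int.castRingHom F)).comp (cx ℤ).toRingHom := by
    apply MvPolynomial.ringHom_ext
    · intro r
      simp
    · intro i
      simp [cx, cm, mon, br, br2]
  exact DFunLike.congr_fun h1 G

theorem map_mem (F : Type) [CommRing F] (G : MvPolynomial (Fin (N + 1)) ℤ) (hG : G ∈ I ℤ) :
    MvPolynomial.map (Int.castRingHom F) G ∈ I F := by
  change cx F _ = 0
  rw [map_cox]
  have h : cx ℤ G = 0 := hG
  rw [h, map_zero]

theorem eval_tws {F : Type} [CommRing F] (y : Fin (N + 1) → F) (π : Equiv.Perm (Fin 5)) (c : Pt) :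
    eval y (tws π (xc F) c) = tws π (fun c => y (pt.symm c)) c := by
  unfold tws
  rw [map_mul, map_intCast]
  simp [xc]

end XCV_

theorem XCV_proof (hCOV : XV.Stmt_Cov) : Stmt_Xcv := by
  intro F _ _ M i
  set JJ : Ideal (MvPolynomial (Fin (N + 1)) F) :=
    Ideal.span {f | ∃ π σ, f = chf F π σ ^ M} ⊔ I F with hJJ
  have hIle : I F ≤ JJ := le_sup_right
  suffices h : (X i : MvPolynomial (Fin (N + 1)) F) ∈ JJ.radical from h
  rw [← MvPolynomial.vanishingIdeal_zeroLocus_eq_radical (k := F) (K := F)]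
  rw [MvPolynomial.mem_vanishingIdeal_iff]
  intro y hy
  rw [MvPolynomial.mem_zeroLocus_iff] at hy
  have hy' : ∀ p ∈ JJ, eval y p = 0 := by
    intro p hp
    have := hy p hp
    rw [← this]
    rfl
  by_contra hne
  let s : Pt → F := fun c => y (pt.symm c)
  have hsol : IsSol s := by
    intro G hG
    have h1 := hy' _ (hIle (XCV_.map_mem F G hG))
    rw [MvPolynomial.eval_map] at h1
    rw [← h1]
    congr 1
    funext j
    simp [s]
  have hex : ∃ c, s c ≠ 0 := by
    refine ⟨pt i, ?_⟩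
    intro h0
    apply hne
    have h1 : y i = 0 := by
      have : s (pt i) = y i := by simp [s]
      rw [← this]; exact h0
    simpa using h1
  obtain ⟨π, σ, h0, hj⟩ := hCOV F s hsol hex
  have h7 : tws π s (tp σ 7) ≠ 0 := hj 0
  have h8 : tws π s (tp σ 8) ≠ 0 := hj 1
  have h9 : tws π s (tp σ 9) ≠ 0 := hj 2
  have h1 : chf F π σ ^ M ∈ JJ := by
    refine (le_sup_left : _ ≤ JJ) (Ideal.subset_span ⟨π, σ, rfl⟩)
  have h2 := hy' _ h1
  rw [map_pow] at h2
  refine pow_ne_zero M ?_ h2
  unfold chf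
  rw [map_mul, map_mul, map_mul, XCV_.eval_tws, XCV_.eval_tws, XCV_.eval_tws, XCV_.eval_tws]
  exact mul_ne_zero (mul_ne_zero (mul_ne_zero h0 h7) h8) h9

end Pool.Agent.XS
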