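import Pool.Agent.XS.StmtsC

/-!
# XCZ: a coordinate which vanishes on `G` and not on `P_k`
-/

set_option autoImplicit false

noncomputable section

namespace Pool.Agent.XS

open Pool.Agent.XV

namespace XCZ_

/-- weight two: `0` on the edge `k`, `2` on the disjoint edges, `4` on the other ones -/
def f (k : Fin 10) : Fin 10 → ℕ := fun l => if l = k then 0 else if Disj k l then 2 else 4

theorem f_deg : ∀ k i, mdeg (f k) i = 4 * (1 + 2) := by decide

theorem f_adm (k : Fin 10) : Adm 1 2 (f k) where
  deg i := f_deg k i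
  top := by norm_num
  one l := by omega
  two l := by omega
  dbl l m _ := by omega

end XCZ_

theorem XCZ_proof : Stmt_Xcz := fun k =>
  ⟨⟨2, XCZ_.f k, XCZ_.f_adm k⟩, Nat.succ_pos 1, if_pos rfl⟩

end Pool.Agent.XS
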