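import Pool.Agent.XS.StmtsC
import Pool.Agent.XB.LNF

/-!
# The data of the special fibre
-/

set_option autoImplicit false

noncomputable section

namespace Pool.Agent.XS

open scoped Classical
open MvPolynomial Pool.Agent.FRM Pool.Agent.XV Pool.Agent.XB

namespace XDD_

variable (F : Type) [Field F]

theorem VI_eq (g : Option (Fin 10)) :
    RST.VI F {c : Fin (N + 1) | 0 < ordG g (pt c)} = Jg F g := by
  unfold RST.VI Jg
  congr 1
  ext r
  constructor
  · rintro ⟨c, hc, rfl⟩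
    exact ⟨pt c, hc, by simp [xc]⟩
  · rintro ⟨c, hc, rfl⟩
    exact ⟨pt.symm c, by simpa using hc, rfl⟩

theorem emb_mem (g : Option (Fin 10)) {r : MvPolynomial (Fin (N + 1)) F} (hr : r ∈ Jg F g) :
    RST.emb F (N + 1) r ∈ Ideal.span
      ((fun c => (X (Fin.castSucc c) : MvPolynomial (Fin (N + 1 + 1)) F)) ''
        {c : Fin (N + 1) | 0 < ordG g (pt c)}) := by
  rw [← VI_eq] at hr
  have h1 := Ideal.mem_map_of_mem (RST.emb F (N + 1)) hr
  rw [RST.VI, Ideal.map_span, ← Set.image_comp] at h1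
  have h2 : (RST.emb F (N + 1) : MvPolynomial (Fin (N + 1)) F → _) ∘
      (fun c => (X c : MvPolynomial (Fin (N + 1)) F)) =
      fun c => (X (Fin.castSucc c) : MvPolynomial (Fin (N + 1 + 1)) F) := by
    funext c
    simp [RST.emb]
  rwa [h2] at h1

/-- combinations of the elements `ym` -/
theorem span_ym (J : Ideal (MvPolynomial (Fin (N + 1)) F)) (g : Option (Fin 10)) (n : ℕ)
    (A : Ideal (MvPolynomial (Fin (N + 1)) F)) (f : MvPolynomial (Fin (N + 1)) F ⧸ J)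
    (hf : f ∈ Submodule.span F {f | ∃ i, i ≤ n ∧ ∃ r : MvPolynomial (Fin (N + 1)) F,
      r.IsHomogeneous (n - i) ∧ r ∈ A ∧ f = Ideal.Quotient.mk J (ym F g n i r)}) :
    ∃ a : ℕ → MvPolynomial (Fin (N + 1)) F, (∀ i, a i ∈ A) ∧
      f = Ideal.Quotient.mk J (∑ i ∈ Finset.range (n + 1), ym F g n i (a i)) := by
  refine Submodule.span_induction ?_ ?_ ?_ ?_ hf
  · rintro _ ⟨i, hi, r, -, hr, rfl⟩
    refine ⟨fun j => if j = i then r else 0, fun j => ?_, ?_⟩
    · show (if j = i then r else 0) ∈ A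
      split_ifs
      · exact hr
      · exact A.zero_mem
    · congr 1
      rw [Finset.sum_eq_single i]
      · simp
      · intro j _ hj
        simp [hj, ym]
      · intro h
        exact absurd (Finset.mem_range.2 (by omega)) h
  · exact ⟨fun _ => 0, fun _ => A.zero_mem, by simp [ym]⟩
  · rintro x y _ _ ⟨a, ha, rfl⟩ ⟨b, hb, rfl⟩
    refine ⟨fun i => a i + b i, fun i => A.add_mem (ha i) (hb i), ?_⟩
    rw [← map_add, ← Finset.sum_add_distrib]
    congr 1
    exact Finset.sum_congr rfl fun i _ => by simp only [ym]; ring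
  · rintro c x _ ⟨a, ha, rfl⟩
    refine ⟨fun i => C c * a i, fun i => A.mul_mem_left _ (ha i), ?_⟩
    have h1 : ∑ i ∈ Finset.range (n + 1), ym F g n i (C c * a i) =
        c • ∑ i ∈ Finset.range (n + 1), ym F g n i (a i) := by
      rw [Finset.smul_sum]
      exact Finset.sum_congr rfl fun i _ => by simp only [ym, MvPolynomial.smul_eq_C_mul]; ring
    rw [h1]
    rfl

theorem sum_sq (n₀ m : ℕ) :
    3 * ∑ i ∈ Finset.range (m + 1), ((i : ℚ) + n₀) ^ 2 ≤ ((m : ℚ) + n₀ + 1) ^ 3 := by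
  induction m with
  | zero =>
    simp only [zero_add, Finset.sum_range_one, Nat.cast_zero]
    have : (0 : ℚ) ≤ n₀ := by positivity
    nlinarith [sq_nonneg (n₀ : ℚ), pow_nonneg this 3]
  | succ m ih =>
    rw [Finset.sum_range_succ, mul_add]
    push_cast
    have : (0 : ℚ) ≤ n₀ := by positivity
    have : (0 : ℚ) ≤ m := by positivity
    nlinarith [ih]

theorem bound (v d n₀ C₁ C₂ : ℕ) : ∃ C : ℕ, ∀ m : ℕ,
    ((v : ℚ) * (m + n₀) ^ 3 + C₁ * (m + n₀ + 1) ^ 2) / 6 +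
      ∑ i ∈ Finset.range (m + 1), ((d : ℚ) * (i + n₀) ^ 2 + C₂ * (i + n₀ + 1)) ≤
    ((v + 2 * d : ℕ) : ℚ) * (m : ℚ) ^ 3 / 6 + C * ((m : ℚ) + 1) ^ 2 := by
  -- every term is bounded separately
  refine ⟨v * (n₀ + 1) ^ 3 * 7 + C₁ * (n₀ + 1) ^ 2 + d * (n₀ + 2) ^ 3 * 7 + C₂ * (n₀ + 1), fun m => ?_⟩
  have hm : (0 : ℚ) ≤ m := by positivity
  have hn : (0 : ℚ) ≤ n₀ := by positivity
  have hv : (0 : ℚ) ≤ v := by positivity
  have hd : (0 : ℚ) ≤ d := by positivity
  have h1 : (0 : ℚ) ≤ C₁ := by positivity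
  have h2 : (0 : ℚ) ≤ C₂ := by positivity
  have cube : ∀ a : ℚ, 0 ≤ a → ((m : ℚ) + a) ^ 3 ≤ (m : ℚ) ^ 3 + (a + 1) ^ 3 * 7 * (m + 1) ^ 2 := by
    intro a ha
    have e1 : ((m : ℚ) + a) ^ 3 = m ^ 3 + (3 * a * m ^ 2 + 3 * a ^ 2 * m + a ^ 3) := by ring
    rw [e1]
    have f1 : 3 * a * (m : ℚ) ^ 2 ≤ 3 * (a + 1) ^ 3 * (m + 1) ^ 2 := by
      have g1 : a ≤ (a + 1) ^ 3 := by nlinarith [pow_nonneg ha 3, pow_nonneg ha 2]
      have g2 : (m : ℚ) ^ 2 ≤ (m + 1) ^ 2 := by nlinarith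
      calc 3 * a * (m : ℚ) ^ 2 ≤ 3 * (a + 1) ^ 3 * (m : ℚ) ^ 2 := by nlinarith [sq_nonneg (m : ℚ)]
        _ ≤ _ := by nlinarith [pow_nonneg (by linarith : (0 : ℚ) ≤ a + 1) 3]
    have f2 : 3 * a ^ 2 * (m : ℚ) ≤ 3 * (a + 1) ^ 3 * (m + 1) ^ 2 := by
      have g1 : a ^ 2 ≤ (a + 1) ^ 3 := by nlinarith [pow_nonneg ha 3, pow_nonneg ha 2]
      have g2 : (m : ℚ) ≤ (m + 1) ^ 2 := by nlinarith
      calc 3 * a ^ 2 * (m : ℚ) ≤ 3 * (a + 1) ^ 3 * (m : ℚ) := by nlinarith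
        _ ≤ _ := by nlinarith [pow_nonneg (by linarith : (0 : ℚ) ≤ a + 1) 3]
    have f3 : a ^ 3 ≤ (a + 1) ^ 3 * (m + 1) ^ 2 := by
      have g1 : a ^ 3 ≤ (a + 1) ^ 3 := by nlinarith [pow_nonneg ha 3, pow_nonneg ha 2]
      have g2 : (1 : ℚ) ≤ (m + 1) ^ 2 := by nlinarith
      calc a ^ 3 ≤ (a + 1) ^ 3 * 1 := by linarith
        _ ≤ _ := by nlinarith [pow_nonneg (by linarith : (0 : ℚ) ≤ a + 1) 3]
    nlinarith [f1, f2, f3]
  have t1 := cube n₀ hn
  have t2 := cube (n₀ + 1) (by linarith)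
  have t3 : ((m : ℚ) + n₀ + 1) ^ 2 ≤ (n₀ + 1) ^ 2 * (m + 1) ^ 2 := by
    rw [← mul_pow]
    apply pow_le_pow_left₀ (by positivity)
    nlinarith
  have t4 : ∑ i ∈ Finset.range (m + 1), ((i : ℚ) + n₀ + 1) ≤ (n₀ + 1) * (m + 1) ^ 2 := by
    calc ∑ i ∈ Finset.range (m + 1), ((i : ℚ) + n₀ + 1)
        ≤ ∑ i ∈ Finset.range (m + 1), ((m : ℚ) + n₀ + 1) := by
          refine Finset.sum_le_sum fun i hi => ?_
          have : (i : ℚ) ≤ m := by exact_mod_cast Nat.lt_succ_iff.1 (Finset.mem_range.1 hi)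
          linarith
      _ = (m + 1) * ((m : ℚ) + n₀ + 1) := by
          rw [Finset.sum_const, Finset.card_range, nsmul_eq_mul]; push_cast; ring
      _ ≤ (m + 1) * ((n₀ + 1) * (m + 1)) := by
          apply mul_le_mul_of_nonneg_left _ (by linarith)
          nlinarith [mul_nonneg hn hm]
      _ = _ := by ring
  have t5 := sum_sq n₀ m
  have e2 : ∑ i ∈ Finset.range (m + 1), ((d : ℚ) * (i + n₀) ^ 2 + C₂ * (i + n₀ + 1)) =
      d * ∑ i ∈ Finset.range (m + 1), ((i : ℚ) + n₀) ^ 2 +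
        C₂ * ∑ i ∈ Finset.range (m + 1), ((i : ℚ) + n₀ + 1) := by
    rw [Finset.sum_add_distrib, Finset.mul_sum, Finset.mul_sum]
  rw [e2]
  have u1 : (v : ℚ) * (m + n₀) ^ 3 ≤ v * (m : ℚ) ^ 3 + v * (n₀ + 1) ^ 3 * 7 * (m + 1) ^ 2 := by
    nlinarith [mul_le_mul_of_nonneg_left t1 hv]
  have u2 : (C₁ : ℚ) * (m + n₀ + 1) ^ 2 ≤ C₁ * (n₀ + 1) ^ 2 * (m + 1) ^ 2 := by
    nlinarith [mul_le_mul_of_nonneg_left t3 h1]
  have u3 : (d : ℚ) * ∑ i ∈ Finset.range (m + 1), ((i : ℚ) + n₀) ^ 2 ≤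
      d * ((m : ℚ) ^ 3 + (n₀ + 1 + 1) ^ 3 * 7 * (m + 1) ^ 2) / 3 := by
    have : (∑ i ∈ Finset.range (m + 1), ((i : ℚ) + n₀) ^ 2) ≤
        ((m : ℚ) ^ 3 + (n₀ + 1 + 1) ^ 3 * 7 * (m + 1) ^ 2) / 3 := by
      rw [add_assoc (m : ℚ) n₀ 1] at t5
      linarith
    calc _ ≤ (d : ℚ) * (((m : ℚ) ^ 3 + (n₀ + 1 + 1) ^ 3 * 7 * (m + 1) ^ 2) / 3) :=
          mul_le_mul_of_nonneg_left this hd
      _ = _ := by ring
  have u4 : (C₂ : ℚ) * ∑ i ∈ Finset.range (m + 1), ((i : ℚ) + n₀ + 1) ≤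
      C₂ * (n₀ + 1) * (m + 1) ^ 2 := by
    nlinarith [mul_le_mul_of_nonneg_left t4 h2]
  push_cast
  have p1 : (0 : ℚ) ≤ v * (n₀ + 1) ^ 3 * 7 * (m + 1) ^ 2 := by positivity
  have p2 : (0 : ℚ) ≤ C₁ * (n₀ + 1) ^ 2 * (m + 1) ^ 2 := by positivity
  have p3 : (0 : ℚ) ≤ d * (n₀ + 2) ^ 3 * 7 * (m + 1) ^ 2 := by positivity
  have e3 : ((n₀ : ℚ) + 1 + 1) = n₀ + 2 := by ring
  rw [e3] at u3
  nlinarith [u1, u2, u3, u4, p1, p2, p3]

end XDD_

open XDD_

theorem XDD_proof (hXKA : Stmt_Xka) (hJGP : Stmt_Jgp) (hXPR : Stmt_Xpr) (hXYJ : Stmt_Xyj)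
    (hXCJ : Stmt_Xcj) (hXSM : Stmt_Xsm) (hXPA : Stmt_Xpa) (hXBI : Stmt_Xbi) (hXCZ : Stmt_Xcz)
    (hXSA : Stmt_Xsa) (hXSC : Stmt_Xsc) (hXSU : Stmt_Xsu) (hPRI : XV.Stmt_Pri) : Stmt_Xdd := by
  intro F _ _ k v d ⟨C₁, hv⟩ ⟨C₂, hd⟩
  have hI : (I F).IsPrime := (hPRI F).1
  have hIh : HomId F (I F) := (hPRI F).2
  have hG : (JI F none).IsPrime := hJGP F
  have hGh : HomId F (JI F none) := LNF_.homog_JI hPRI F none
  obtain ⟨P0, -, -, hle0, -, -, hP0⟩ := hXPR F none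
  obtain ⟨Pk, -, -, hlek, -, -, hPk⟩ := hXPR F (some k)
  have hcG : xc F (cG (some k)) ∉ JI F none := fun h => hP0 (cG (some k)) rfl (hle0 h)
  have hIle : I F ≤ JI F none := le_sup_right
  have hcGI : xc F (cG (some k)) ∉ I F := fun h => hcG (hIle h)
  obtain ⟨i1, i2, i3, i4, i5, i6⟩ := hXKA F (I F) (some k) hIh hcGI
  obtain ⟨j1, j2, j3, j4, j5, j6⟩ := hXKA F (JI F none) (some k) hGh hcG
  obtain ⟨c, hcw, hck⟩ := hXCZ k
  have hcI : xc F c ∉ I F := fun h => hPk c hck (hlek (Ideal.mem_sup_right h))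
  have hfq : ∀ (J : Ideal (MvPolynomial (Fin (N + 1)) F)) (m : ℕ),
      RST.hf J m = Module.finrank F (qgr J m) := fun _ _ => rfl
  have hVA := VI_eq F (some k)
  have hVW : RST.VI F {c : Fin (N + 1) | 0 < (pt c).w} = Jg F none := VI_eq F none
  refine ⟨{ I' := Ipr F (I F) (some k)
            J' := Ipr F (JI F none) (some k)
            A := {c | 0 < ordG (some k) (pt c)}
            W := {c | 0 < (pt c).w}
            c₀ := pt.symm c
            e' := v + 2 * d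
            s₁ := 24
            s₂ := 20
            prime := i1
            hom := i2
            primeJ := j1
            homJ := j2
            le := ?_
            yA := ?_
            xA := ?_
            c₀W := by simpa using hcw
            c₀I := ?_
            small := ?_
            big := ?_
            par := ?_
            JX := ?_
            JA := ?_
            s₂pos := by norm_num
            gI := ?_
            gJ' := ?_
            gJ := ?_ }, i3, rfl, rfl, rfl, rfl, rfl⟩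
  · intro p hp
    obtain ⟨n, a, rfl⟩ := i6 p
    rw [i5] at hp
    rw [j5]
    exact hIle hp
  · obtain ⟨n, hn⟩ := hXYJ F (some k)
    refine ⟨n, fun f hf => ?_⟩
    rw [hVA] at hf
    have h1 := hn f hf
    rw [Submodule.mem_sup] at h1
    obtain ⟨y, hy, w, hw, hyw⟩ := h1
    obtain ⟨a, rfl⟩ := Ideal.mem_span_singleton'.1 hy
    refine ⟨a, ?_⟩
    have h2 := (i5 1 fun i => if i = 0 then -a else f).2 ?_
    · convert h2 using 1
      simp [Finset.sum_range_succ]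
      ring
    · have h3 : ∑ i ∈ Finset.range (1 + 1), ym F (some k) 1 i (if i = 0 then -a else f) = w := by
        simp only [Finset.sum_range_succ, Finset.sum_range_zero, ym]
        simp only [mul_zero, pow_zero, one_mul, Nat.sub_zero, pow_one, if_true, zero_add,
          one_ne_zero, if_false, mul_one, Nat.sub_self]
        rw [← hyw]
        ring
      rw [h3]
      exact hw
  · intro c'
    obtain ⟨n, hn0, hn⟩ := hXCJ F (some k) (pt c')
    obtain ⟨a, ha, h1⟩ := span_ym F (I F) (some k) n (Jg F (some k)) _ hn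
    rw [Ideal.Quotient.eq] at h1
    refine ⟨n, ?_⟩
    have h2 := (i5 n fun i => if i = 0 then X c' ^ n - a 0 else -a i).2 ?_
    · have h3 : (X (Fin.castSucc c') : MvPolynomial (Fin (N + 1 + 1)) F) ^ n =
          (∑ i ∈ Finset.range (n + 1), RST.emb F (N + 1) (a i) * RST.Yv F (N + 1) ^ i) +
          ∑ i ∈ Finset.range (n + 1), RST.emb F (N + 1)
            (if i = 0 then X c' ^ n - a 0 else -a i) * RST.Yv F (N + 1) ^ i := by
        rw [← Finset.sum_add_distrib, Finset.sum_eq_single 0]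
        · simp [RST.emb]
        · intro i _ hi
          simp [hi]
        · intro h
          exact absurd (Finset.mem_range.2 (Nat.succ_pos n)) h
      rw [h3]
      refine Ideal.add_mem _ (Ideal.mem_sup_left ?_) (Ideal.mem_sup_right h2)
      exact Ideal.sum_mem _ fun i _ => Ideal.mul_mem_right _ _ (emb_mem F (some k) (ha i))
    · have h3 : ∑ i ∈ Finset.range (n + 1), ym F (some k) n i
          (if i = 0 then X c' ^ n - a 0 else -a i) =
          xc F (pt c') ^ n * xc F (cG (some k)) ^ n -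
            ∑ i ∈ Finset.range (n + 1), ym F (some k) n i (a i) := by
        rw [eq_sub_iff_add_eq, ← Finset.sum_add_distrib, Finset.sum_eq_single 0]
        · simp only [if_true, ym, mul_zero, pow_zero, one_mul, Nat.sub_zero, xc,
            Equiv.symm_apply_apply]
          ring
        · intro i _ hi
          simp only [hi, if_false, ym]
          ring
        · intro h
          exact absurd (Finset.mem_range.2 (Nat.succ_pos n)) h
      rw [h3]
      exact h1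
  · intro h
    have h1 : X (pt.symm c) ∈ (Ipr F (I F) (some k)).comap (RST.emb F (N + 1)) := by
      rw [Ideal.mem_comap]
      simpa [RST.emb] using h
    rw [i3] at h1
    exact hcI h1
  · obtain ⟨C, hC⟩ := hXSM F (some k) c hck
    refine ⟨C, fun m => ?_⟩
    have h1 := hC m
    rw [i3, hVA, hfq]
    have h2 : I F ⊔ Jg F (some k) ⊔ Ideal.span {X (pt.symm c)} =
        JI F (some k) ⊔ Ideal.span {xc F c} := by
      rw [JI, sup_comm (I F)]
      rfl
    rw [h2]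
    exact h1
  · intro C
    obtain ⟨m, hm⟩ := hXBI F C
    refine ⟨m, ?_⟩
    rw [i3, hfq]
    exact hm
  · obtain ⟨z, hz, hz'⟩ := hXPA F c
    refine ⟨z, hz, fun j => ?_⟩
    obtain ⟨n, hn⟩ := hz' j
    exact ⟨n, by rw [i3]; exact hn⟩
  · rw [i3, j3, hVW, JI, sup_comm]
  · refine ⟨pt.symm cO, ?_, fun h => ?_⟩
    · show 0 < ordG (some k) (pt (pt.symm cO))
      rw [Equiv.apply_symm_apply]
      exact Nat.one_pos
    · have h1 : X (pt.symm cO) ∈ (Ipr F (JI F none) (some k)).comap (RST.emb F (N + 1)) := by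
        rw [Ideal.mem_comap]
        simpa [RST.emb] using h
      rw [j3] at h1
      exact hP0 cO rfl (hle0 h1)
  · obtain ⟨n₀, hn₀⟩ := hXSA F k
    obtain ⟨C, hC⟩ := bound v d n₀ C₁ C₂
    refine ⟨C, fun m => le_trans ?_ (hC m)⟩
    rw [i4]
    have h1 : (Module.finrank F (Yg F (I F) (some k) m) : ℚ) ≤
        (Module.finrank F (qgr (I F) (m + n₀)) : ℚ) +
          2 * ∑ i ∈ Finset.range (m + 1), (Module.finrank F (qgr (JI F (some k)) (i + n₀)) : ℚ) := by
      exact_mod_cast hn₀ m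
    refine h1.trans (add_le_add ?_ ?_)
    · have h2 := (abs_le.1 (hv (m + n₀))).2
      have h3 : (6 : ℚ) * Module.finrank F (qgr (I F) (m + n₀)) - v * ((m + n₀ : ℕ) : ℚ) ^ 3 ≤
          C₁ * (((m + n₀ : ℕ) : ℚ) + 1) ^ 2 := by exact_mod_cast h2
      push_cast at h3
      linarith
    · rw [Finset.mul_sum]
      refine Finset.sum_le_sum fun i _ => ?_
      have h2 := (abs_le.1 (hd (i + n₀))).2
      have h3 : (2 : ℚ) * Module.finrank F (qgr (JI F (some k)) (i + n₀)) -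
          d * ((i + n₀ : ℕ) : ℚ) ^ 2 ≤ C₂ * (((i + n₀ : ℕ) : ℚ) + 1) := by exact_mod_cast h2
      push_cast at h3
      linarith
  · refine ⟨0, fun m => ?_⟩
    rw [j4]
    have h1 : (12 : ℚ) * (m : ℚ) ^ 2 ≤ Module.finrank F (Yg F (JI F none) (some k) m) := by
      exact_mod_cast hXSC F k m
    push_cast
    linarith
  · refine ⟨5, fun m => ?_⟩
    rw [j3, hfq]
    have h1 : (Module.finrank F (qgr (JI F none) m) : ℚ) ≤ 10 * (m : ℚ) ^ 2 + 5 * m + 1 := by
      exact_mod_cast hXSU F m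
    push_cast
    have : (0 : ℚ) ≤ m := by positivity
    linarith

end Pool.Agent.XS
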