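import Pool.Agent.XS.Stmts
import Pool.Agent.XB.FNH
import Pool.Agent.XB.QGR

/-!
# XGB: sections with denominators at the origin
-/

set_option autoImplicit false

noncomputable section

namespace Pool.Agent.XS

open scoped Classical
open MvPolynomial Pool.Agent.FRM Pool.Agent.XV Pool.Agent.XB

namespace XGB_

theorem qgr_fin (F : Type) [Field F] (J : Ideal (MvPolynomial (Fin (N + 1)) F)) (m : ℕ) :
    FiniteDimensional F (qgr J m) := by
  unfold qgr
  have h : homogeneousSubmodule (Fin (N + 1)) F m ≤ restrictTotalDegree (Fin (N + 1)) F m := by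
    intro p hp
    exact (mem_restrictTotalDegree _ _ _).2 (IsHomogeneous.totalDegree_le hp)
  have : FiniteDimensional F (homogeneousSubmodule (Fin (N + 1)) F m) :=
    Submodule.finiteDimensional_of_le h
  infer_instance

/-- finite torsion free modules over a domain and two coprime elements -/
theorem core {H R : Type} [CommRing H] [IsDomain H] [AddCommGroup R] [Module H R]
    [Module.Finite H R] : ∃ q : H, q ≠ 0 ∧ ∀ (Y Z : H), (∀ c, Y ∣ Z * c → Y ∣ c) →
      ∀ r₀ r₁ : R, Z • r₀ = Y • r₁ → ∃ u : R, q • r₀ = Y • u := by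
  obtain ⟨T, hT⟩ := Module.Finite.fg_top (R := H) (M := R)
  let v : T → R := fun i => i.1
  obtain ⟨s, hs, hs2⟩ := exists_maximal_linearIndepOn H v
  let v' : s → R := fun i => v i.1
  have hv' : LinearIndependent H v' := hs
  have hrange : Set.range v' = v '' s := by
    ext y
    constructor
    · rintro ⟨i, rfl⟩
      exact ⟨i.1, i.2, rfl⟩
    · rintro ⟨i, hi, rfl⟩
      exact ⟨⟨i, hi⟩, rfl⟩
  have h1 : ∀ i : T, ∃ a : H, a ≠ 0 ∧ a • v i ∈ Submodule.span H (Set.range v') := by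
    intro i
    by_cases hi : i ∈ s
    · refine ⟨1, one_ne_zero, ?_⟩
      rw [one_smul]
      exact Submodule.subset_span ⟨⟨i, hi⟩, rfl⟩
    · rw [hrange]
      exact hs2 i hi
  choose a ha0 ha using h1
  let q : H := ∏ i, a i
  have hq0 : q ≠ 0 := Finset.prod_ne_zero_iff.2 fun i _ => ha0 i
  have hq : ∀ y : R, q • y ∈ Submodule.span H (Set.range v') := by
    intro y
    have hy : y ∈ Submodule.span H (T : Set R) := by
      rw [hT]
      trivial
    induction hy using Submodule.span_induction with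
    | mem x hx =>
      have h2 : q = (∏ j ∈ Finset.univ.erase (⟨x, hx⟩ : T), a j) * a ⟨x, hx⟩ := by
        rw [mul_comm]
        exact (Finset.mul_prod_erase _ _ (Finset.mem_univ _)).symm
      rw [h2, mul_smul]
      exact Submodule.smul_mem _ _ (ha ⟨x, hx⟩)
    | zero =>
      rw [smul_zero]
      exact Submodule.zero_mem _
    | add x y _ _ hx hy =>
      rw [smul_add]
      exact Submodule.add_mem _ hx hy
    | smul c x _ hx =>
      rw [smul_comm]
      exact Submodule.smul_mem _ _ hx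
  refine ⟨q, hq0, fun Y Z hYZ r₀ r₁ h => ?_⟩
  let B := Module.Basis.span hv'
  let x₀ : Submodule.span H (Set.range v') := ⟨q • r₀, hq r₀⟩
  let x₁ : Submodule.span H (Set.range v') := ⟨q • r₁, hq r₁⟩
  have h2 : Z • x₀ = Y • x₁ := by
    apply Subtype.ext
    change Z • (q • r₀) = Y • (q • r₁)
    rw [smul_comm Z q, h, smul_comm q Y]
  have h3 : ∀ i, ∃ c, B.repr x₀ i = Y * c := by
    intro i
    apply hYZ
    have h4 := congrArg (fun x => B.repr x i) h2
    simp only [map_smul, Finsupp.smul_apply, smul_eq_mul] at h4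
    exact ⟨_, h4⟩
  choose c hc using h3
  refine ⟨((∑ i, c i • B i : Submodule.span H (Set.range v')) : R), ?_⟩
  have h5 : x₀ = Y • ∑ i, c i • B i := by
    rw [Finset.smul_sum]
    rw [← B.sum_repr x₀]
    apply Finset.sum_congr rfl
    intro i _
    rw [hc, mul_smul]
  have h6 := congrArg Subtype.val h5
  exact h6

/-- the same for the polynomial ring and a ring homomorphism -/
theorem core2 {F : Type} [Field F] {r : ℕ} {R : Type} [CommRing R]
    (ψ : MvPolynomial (Fin (r + 2)) F →+* R) (T : Finset R)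
    (hT : ∀ y : R, ∃ q : R → MvPolynomial (Fin (r + 2)) F, y = ∑ m ∈ T, ψ (q m) * m) :
    ∃ q : MvPolynomial (Fin (r + 2)) F, q ≠ 0 ∧ ∀ (M₀ M₁ : ℕ) (r₀ r₁ : R),
      ψ (X 1) ^ M₁ * r₀ = ψ (X 0) ^ M₀ * r₁ → ∃ u, ψ q * r₀ = ψ (X 0) ^ M₀ * u := by
  letI : Algebra (MvPolynomial (Fin (r + 2)) F) R := ψ.toAlgebra
  have hsm : ∀ (q : MvPolynomial (Fin (r + 2)) F) (y : R), q • y = ψ q * y := fun q y => rfl
  haveI hfin : Module.Finite (MvPolynomial (Fin (r + 2)) F) R := by
    refine ⟨⟨T, ?_⟩⟩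
    rw [eq_top_iff]
    rintro y -
    obtain ⟨q, hq⟩ := hT y
    rw [hq]
    refine Submodule.sum_mem _ fun m hm => ?_
    rw [← hsm]
    exact Submodule.smul_mem _ _ (Submodule.subset_span hm)
  obtain ⟨q, hq0, hq⟩ := core (H := MvPolynomial (Fin (r + 2)) F) (R := R)
  refine ⟨q, hq0, fun M₀ M₁ r₀ r₁ h => ?_⟩
  have h01 : (0 : Fin (r + 2)) ≠ 1 := by
    intro h0
    have := congrArg Fin.val h0
    simp at this
  obtain ⟨u, hu⟩ := hq (X 0 ^ M₀) (X 1 ^ M₁) (by
    intro c hc
    refine Prime.pow_dvd_of_dvd_mul_left X_prime M₀ ?_ hc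
    intro hd
    have h1 := X_prime.dvd_of_dvd_pow hd
    rw [X_dvd_X] at h1
    exact h01 h1) r₀ r₁ (by
    rw [hsm, hsm, map_pow, map_pow]
    exact h)
  rw [hsm, hsm, map_pow] at hu
  exact ⟨u, hu⟩

end XGB_

open XGB_ in
theorem XGB_proof : Stmt_Xgb := by
  intro F _ r J hJ hJh h hh hm hinj
  haveI := hJ
  obtain ⟨gr⟩ := QGR_proof F J hJh
  haveI := gr
  -- the polynomial ring
  let ψ : MvPolynomial (Fin (r + 2)) F →+* MvPolynomial (Fin (N + 1)) F ⧸ J :=
    (Ideal.Quotient.mk J).comp (aeval h : MvPolynomial (Fin (r + 2)) F →ₐ[F] _).toRingHom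
  have halg : ∀ q, ψ q = Ideal.Quotient.mk J (aeval h q) := fun q => rfl
  have hψX : ∀ i, ψ (X i) = Ideal.Quotient.mk J (h i) := fun i => by rw [halg, aeval_X]
  obtain ⟨q, hq0, hq⟩ : ∃ q : MvPolynomial (Fin (r + 2)) F, q ≠ 0 ∧
      ∀ (M₀ M₁ : ℕ) (r₀ r₁ : MvPolynomial (Fin (N + 1)) F ⧸ J),
      ψ (X 1) ^ M₁ * r₀ = ψ (X 0) ^ M₀ * r₁ → ∃ u, ψ q * r₀ = ψ (X 0) ^ M₀ * u := by
    obtain ⟨T, hT⟩ := FNH_proof F (N + 1) (r + 2) J hJh h hh hm
    have hT' : ∀ y : MvPolynomial (Fin (N + 1)) F ⧸ J, y ∈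
        (Submodule.span (ψ.range) ((T.image (Ideal.Quotient.mk J) :
          Finset (MvPolynomial (Fin (N + 1)) F ⧸ J)) :
          Set (MvPolynomial (Fin (N + 1)) F ⧸ J))) := by
      intro y
      obtain ⟨G, rfl⟩ := Ideal.Quotient.mk_surjective y
      obtain ⟨q, hq⟩ := hT G
      rw [← Ideal.Quotient.eq_zero_iff_mem, map_sub, sub_eq_zero, map_sum] at hq
      rw [hq]
      refine Submodule.sum_mem _ fun m hm => ?_
      rw [map_mul, ← halg]
      refine Submodule.smul_mem _ (⟨ψ (q m), ⟨q m, rfl⟩⟩ : ψ.range) (Submodule.subset_span ?_)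
      rw [Finset.coe_image]
      exact ⟨m, hm, rfl⟩
    refine core2 ψ (T.image (Ideal.Quotient.mk J)) fun y => ?_
    have hy := hT' y
    rw [Submodule.mem_span_finset] at hy
    obtain ⟨f, -, hf⟩ := hy
    have hc : ∀ m, ∃ q, ψ q = (f m : MvPolynomial (Fin (N + 1)) F ⧸ J) := fun m => (f m).2
    choose g hg using hc
    refine ⟨g, ?_⟩
    rw [← hf]
    refine Finset.sum_congr rfl fun m _ => ?_
    rw [hg]
    rfl
  -- a homogeneous component
  have hq1 : ψ q ≠ 0 := by
    intro h0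
    rw [halg, Ideal.Quotient.eq_zero_iff_mem] at h0
    exact hq0 (hinj q h0)
  obtain ⟨d, hd⟩ : ∃ d, (DirectSum.decompose (qgr J) (ψ q) d :
      MvPolynomial (Fin (N + 1)) F ⧸ J) ≠ 0 := by
    by_contra hcon
    push Not at hcon
    apply hq1
    rw [← DirectSum.sum_support_decompose (qgr J) (ψ q)]
    exact Finset.sum_eq_zero fun i _ => hcon i
  set c : MvPolynomial (Fin (N + 1)) F ⧸ J :=
    (DirectSum.decompose (qgr J) (ψ q) d : MvPolynomial (Fin (N + 1)) F ⧸ J) with hc
  refine ⟨d, fun m k b hb hbk W hW hWb => ?_⟩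
  set b' : MvPolynomial (Fin (N + 1)) F ⧸ J := Ideal.Quotient.mk J b with hb'
  have hb0 : b' ≠ 0 := by
    intro h0
    rw [hb', Ideal.Quotient.eq_zero_iff_mem] at h0
    exact hb h0
  have hbm : b' ∈ qgr J k := ⟨b, hbk, rfl⟩
  -- the key: `c * w` is divisible by `b'`
  have key : ∀ w ∈ W, ∃ u ∈ qgr J (m + d), c * w = b' * u := by
    intro w hw
    -- powers of the linear forms
    let A : Ideal (MvPolynomial (Fin (N + 1)) F ⧸ J) :=
      Submodule.comap (LinearMap.mulRight (MvPolynomial (Fin (N + 1)) F ⧸ J) w) (Ideal.span {b'})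
    have hA : ∀ x, x ∈ A ↔ x * w ∈ Ideal.span {b'} := fun x => Iff.rfl
    have hX : ∀ j, Ideal.Quotient.mk J (X j) ∈ A.radical := by
      intro j
      obtain ⟨M, hM⟩ := hWb w hw j
      exact ⟨M, hM⟩
    have hH : ∀ i, ∃ M : ℕ, Ideal.Quotient.mk J (h i) ^ M ∈ A := by
      intro i
      have h1 : h i ∈ A.radical.comap (Ideal.Quotient.mk J) := by
        have h2 : h i ∈ Ideal.span (X '' (Set.univ : Set (Fin (N + 1))) :
            Set (MvPolynomial (Fin (N + 1)) F)) := by
          rw [mem_ideal_span_X_image]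
          intro e he
          have h3 := hh i (mem_support_iff.1 he)
          by_contra hcon
          push Not at hcon
          have h4 : e = 0 := by
            ext j
            exact hcon j (Set.mem_univ _)
          rw [h4] at h3
          simp at h3
        refine (Ideal.span_le.2 ?_) h2
        rintro _ ⟨j, -, rfl⟩
        exact hX j
      exact h1
    obtain ⟨M₀, hM₀⟩ := hH 0
    obtain ⟨M₁, hM₁⟩ := hH 1
    rw [hA, Ideal.mem_span_singleton] at hM₀ hM₁
    obtain ⟨r₀, hr₀⟩ := hM₀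
    obtain ⟨r₁, hr₁⟩ := hM₁
    obtain ⟨u, hu⟩ := hq M₀ M₁ r₀ r₁ (by
      rw [hψX, hψX]
      apply mul_left_cancel₀ hb0
      calc b' * (Ideal.Quotient.mk J (h 1) ^ M₁ * r₀) =
          Ideal.Quotient.mk J (h 1) ^ M₁ * (b' * r₀) := by ring
        _ = Ideal.Quotient.mk J (h 0) ^ M₀ * (Ideal.Quotient.mk J (h 1) ^ M₁ * w) := by
          rw [← hr₀]; ring
        _ = _ := by rw [hr₁]; ring)
    rw [hψX] at hu
    have hh0 : Ideal.Quotient.mk J (h 0) ^ M₀ ≠ 0 := by
      apply pow_ne_zero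
      intro h0
      rw [Ideal.Quotient.eq_zero_iff_mem] at h0
      have h1 := hinj (X 0) (by rw [aeval_X]; exact h0)
      exact X_ne_zero _ h1
    have h7 : ψ q * w = b' * u := by
      apply mul_left_cancel₀ hh0
      calc Ideal.Quotient.mk J (h 0) ^ M₀ * (ψ q * w) =
          ψ q * (Ideal.Quotient.mk J (h 0) ^ M₀ * w) := by ring
        _ = b' * (ψ q * r₀) := by rw [hr₀]; ring
        _ = _ := by rw [hu]; ring
    -- homogeneous components
    have h8 := DirectSum.coe_decompose_mul_add_of_right_mem (qgr J) (i := d)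
      (a := ψ q) (hW hw)
    have h9 := DirectSum.coe_decompose_mul_add_of_left_mem (qgr J) (j := m + d) (b := u) hbm
    refine ⟨(DirectSum.decompose (qgr J) u (m + d) : MvPolynomial (Fin (N + 1)) F ⧸ J),
      Subtype.property _, ?_⟩
    rw [← h9, ← h8, h7, show d + (m + k) = k + (m + d) by ring]
  -- the dimensions
  have hcinj : Function.Injective (LinearMap.mulLeft F c) := mul_right_injective₀ hd
  have hle : W.map (LinearMap.mulLeft F c) ≤ (qgr J (m + d)).map (LinearMap.mulLeft F b') := by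
    rintro _ ⟨w, hw, rfl⟩
    obtain ⟨u, hu, h1⟩ := key w hw
    exact ⟨u, hu, h1.symm⟩
  haveI : FiniteDimensional F (qgr J (m + d)) := qgr_fin F J _
  have e1 : Module.finrank F (W.map (LinearMap.mulLeft F c)) = Module.finrank F W :=
    (LinearEquiv.finrank_eq (Submodule.equivMapOfInjective _ hcinj W)).symm
  rw [← e1]
  exact le_trans (Submodule.finrank_mono hle) (Submodule.finrank_map_le _ _)

end Pool.Agent.XS
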