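import Pool.Agent.XS.StmtsC
import Pool.Agent.XB.LNF

/-!
# XHG: the Hilbert function of the surface `g`
-/

set_option autoImplicit false

noncomputable section

namespace Pool.Agent.XS

open scoped Classical
open MvPolynomial Pool.Agent.FRM Pool.Agent.XV Pool.Agent.XB

namespace XHG_

theorem choose2 (m : ℕ) : 2 * ((m + 1 + 1).choose (1 + 1)) = (m + 1) * (m + 2) := by
  have h := Nat.descFactorial_eq_factorial_mul_choose (m + 1 + 1) (1 + 1)
  have h1 : (1 + 1).factorial = 2 := rfl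
  rw [h1] at h
  rw [← h]
  simp only [Nat.descFactorial]
  have a1 : m + 1 + 1 - 0 = m + 2 := by omega
  have a2 : m + 1 + 1 - 1 = m + 1 := by omega
  rw [a1, a2]
  ring

theorem arith (a : ℤ) (v C m ch : ℕ)
    (hch : 2 * ch = (m + 1) * (m + 2)) (h : |a - v * ch| ≤ C * ((m : ℤ) + 1) ^ 1) :
    |2 * a - v * (m : ℤ) ^ 2| ≤ ((2 * C + 3 * v : ℕ) : ℤ) * ((m : ℤ) + 1) := by
  have h1 : (2 : ℤ) * ch = (m + 1) * (m + 2) := by exact_mod_cast hch
  have h2 := abs_le.1 h
  have h3 : (v : ℤ) * (2 * (ch : ℤ)) = v * ((m + 1) * (m + 2)) := by rw [h1]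
  have h4 : 0 ≤ (v : ℤ) * m := by positivity
  have h5 : 0 ≤ (v : ℤ) := by positivity
  push_cast
  rw [abs_le]
  constructor
  · nlinarith [h2.1, h2.2]
  · nlinarith [h2.1, h2.2]

/-- the leading coefficient is determined -/
theorem uniq (a : ℕ → ℤ) (d d' C C' : ℕ) (h : ∀ m : ℕ, |2 * a m - d * (m : ℤ) ^ 2| ≤ C * ((m : ℤ) + 1))
    (h' : ∀ m : ℕ, |2 * a m - d' * (m : ℤ) ^ 2| ≤ C' * ((m : ℤ) + 1)) : d = d' := by
  have key : ∀ (d d' C C' : ℕ), (∀ m : ℕ, |2 * a m - d * (m : ℤ) ^ 2| ≤ C * ((m : ℤ) + 1)) →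
      (∀ m : ℕ, |2 * a m - d' * (m : ℤ) ^ 2| ≤ C' * ((m : ℤ) + 1)) → d ≤ d' := by
    intro d d' C C' h h'
    by_contra hcon
    push Not at hcon
    have h1 := abs_le.1 (h (2 * (C + C') + 1))
    have h2 := abs_le.1 (h' (2 * (C + C') + 1))
    have h3 : (d' : ℤ) + 1 ≤ d := by exact_mod_cast hcon
    push_cast at h1 h2
    obtain ⟨S, hS⟩ : ∃ S : ℤ, S = C + C' := ⟨_, rfl⟩
    have hS0 : 0 ≤ S := by rw [hS]; positivity
    have h4 : ((d : ℤ) - d') * (2 * S + 1) ^ 2 ≤ S * (2 * S + 1 + 1) := by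
      have e1 := h1.1
      have e2 := h2.2
      rw [← hS] at e1 e2
      have e3 : (C : ℤ) = S - C' := by rw [hS]; ring
      rw [e3] at e1
      nlinarith
    have h5 : (2 * S + 1) ^ 2 ≤ ((d : ℤ) - d') * (2 * S + 1) ^ 2 := by
      nlinarith [sq_nonneg (2 * S + 1)]
    nlinarith
  exact le_antisymm (key d d' C C' h h') (key d' d C' C h' h)

section

variable (F : Type) [Field F] (J : Ideal (MvPolynomial (Fin (N + 1)) F))
  (h : Fin 3 → MvPolynomial (Fin (N + 1)) F) (T : GML.GMod F 3)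
  (e' : T.M ≃ₗ[F] (MvPolynomial (Fin (N + 1)) F ⧸ J))
  (hT : IsRM T (qgr J) (fun i => Ideal.Quotient.mk J (h i)) e')

include hT in
theorem e_smul (q : MvPolynomial (Fin 3) F) (x : T.M) :
    e' (q • x) = Ideal.Quotient.mk J (aeval h q) * e' x := by
  induction q using MvPolynomial.induction_on generalizing x with
  | C a =>
    have h1 : (C a : MvPolynomial (Fin 3) F) • x = a • x := by
      rw [← algebraMap_eq, algebraMap_smul]
    have h2 : aeval h (C a : MvPolynomial (Fin 3) F) = C a := by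
      rw [← algebraMap_eq, AlgHom.commutes]
      rfl
    rw [h1, map_smul, h2]
    obtain ⟨G, hG⟩ := Ideal.Quotient.mk_surjective (e' x)
    rw [← hG]
    change Ideal.Quotient.mk J (a • G) = _
    rw [← map_mul, MvPolynomial.smul_eq_C_mul]
  | add p q hp hq => rw [add_smul, map_add, map_add, map_add, hp, hq, add_mul]
  | mul_X p i hp =>
    rw [mul_smul, hp, hT.smul, map_mul, aeval_X, map_mul, mul_assoc]

include hT in
theorem fin_T (hFNH : XB.Stmt_Fnh) (hJ : ∀ G ∈ J, ∀ m, homogeneousComponent m G ∈ J)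
    (hh : ∀ i, (h i).IsHomogeneous 1)
    (hm : ∀ j, ∃ m : ℕ, (X j : MvPolynomial (Fin (N + 1)) F) ^ m ∈ Ideal.span (Set.range h) ⊔ J) :
    Module.Finite (MvPolynomial (Fin 3) F) T.M := by
  obtain ⟨S, hS⟩ := hFNH F (N + 1) 3 J hJ h hh hm
  refine ⟨⟨S.image fun G => e'.symm (Ideal.Quotient.mk J G), ?_⟩⟩
  rw [eq_top_iff]
  rintro x -
  obtain ⟨G, hG⟩ := Ideal.Quotient.mk_surjective (e' x)
  obtain ⟨q, hq⟩ := hS G
  rw [← Ideal.Quotient.eq_zero_iff_mem, map_sub, sub_eq_zero, map_sum, hG] at hq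
  have h1 : x = ∑ m ∈ S, q m • e'.symm (Ideal.Quotient.mk J m) := by
    apply e'.injective
    rw [hq, map_sum]
    refine Finset.sum_congr rfl fun m _ => ?_
    rw [e_smul F J h T e' hT, LinearEquiv.apply_symm_apply, map_mul]
  rw [h1]
  refine Submodule.sum_mem _ fun m hm => Submodule.smul_mem _ _ (Submodule.subset_span ?_)
  exact Finset.mem_coe.2 (Finset.mem_image_of_mem _ hm)

include hT in
theorem gr_T (m : ℕ) : Module.finrank F (T.gr m) = Module.finrank F (qgr J m) := by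
  have h1 : (T.gr m).map e'.toLinearMap = qgr J m := by
    ext y
    constructor
    · rintro ⟨x, hx, rfl⟩
      exact (hT.gr m x).1 hx
    · intro hy
      refine ⟨e'.symm y, (hT.gr m _).2 ?_, ?_⟩
      · rw [LinearEquiv.apply_symm_apply]
        exact hy
      · exact e'.apply_symm_apply y
  rw [← h1]
  exact (LinearEquiv.finrank_eq (e'.submoduleMap (T.gr m)))

include hT in
theorem hilb (hFNH : XB.Stmt_Fnh) (hGRO : GML.Stmt_GRO)
    (hJ : ∀ G ∈ J, ∀ m, homogeneousComponent m G ∈ J) (hh : ∀ i, (h i).IsHomogeneous 1)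
    (hm : ∀ j, ∃ m : ℕ, (X j : MvPolynomial (Fin (N + 1)) F) ^ m ∈ Ideal.span (Set.range h) ⊔ J) :
    ∃ C : ℕ, ∀ m : ℕ, |2 * (Module.finrank F (qgr J m) : ℤ) -
      Module.finrank (MvPolynomial (Fin 3) F) T.M * (m : ℤ) ^ 2| ≤ C * ((m : ℤ) + 1) := by
  obtain ⟨-, -, C, hC⟩ := hGRO F 1 T (fin_T F J h T e' hT hFNH hJ hh hm)
  refine ⟨_, fun m => arith _ _ C m _ (choose2 m) ?_⟩
  have h1 := hC m
  rw [gr_T F J h T e' hT] at h1
  exact h1

include hT in
theorem tors (hfin : Module.Finite (MvPolynomial (Fin 3) F) T.M)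
    (h0 : Module.finrank (MvPolynomial (Fin 3) F) T.M = 0) :
    ∃ q : MvPolynomial (Fin 3) F, q ≠ 0 ∧ aeval h q ∈ J := by
  rw [Module.finrank_eq_zero_iff] at h0
  obtain ⟨q, hq0, hq⟩ := h0 (e'.symm 1)
  refine ⟨q, hq0, ?_⟩
  have h2 := e_smul F J h T e' hT q (e'.symm 1)
  rw [hq, map_zero, LinearEquiv.apply_symm_apply, mul_one] at h2
  rw [← Ideal.Quotient.eq_zero_iff_mem]
  exact h2.symm

end

theorem exists_pe : ∀ k : Fin 10, ∃ π : Equiv.Perm (Fin 5), pe π 0 = k := by decide +kernel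

theorem exists_ray (g : Option (Fin 10)) : ∃ π σ l, RayOf g π σ l := by
  cases g with
  | none => exact ⟨1, 0, 2, Or.inl ⟨rfl, rfl, rfl⟩⟩
  | some k =>
    obtain ⟨π, hπ⟩ := exists_pe k
    exact ⟨π, 0, 0, Or.inr ⟨k, rfl, Or.inl ⟨rfl, Or.inl rfl, hπ⟩⟩⟩

end XHG_

open XHG_ in
theorem XHG_proof (hLNF : XB.Stmt_Lnf) (hFNH : XB.Stmt_Fnh) (hDMG : XB.Stmt_Dmg)
    (hQGR : XB.Stmt_Qgr) (hGRO : GML.Stmt_GRO) (hPRI : XV.Stmt_Pri) (hLCG : XB.Stmt_Lcg) :
    Stmt_Xhg := by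
  intro F _ _ g
  obtain ⟨h, hh, hX⟩ := hLNF F g
  have hJ : ∀ G ∈ JI F g, ∀ m, homogeneousComponent m G ∈ JI F g :=
    fun G hG m => LNF_.homog_JI hPRI F g G hG m
  obtain ⟨hgr⟩ := hQGR F (JI F g) hJ
  obtain ⟨M, e₀, hM⟩ : ∃ (M : GML.GMod F 3)
      (e₀ : M.M ≃ₗ[F] (MvPolynomial (Fin (N + 1)) F ⧸ JI F g)),
      IsRM M (qgr (JI F g)) (fun i => Ideal.Quotient.mk (JI F g) (h i)) e₀ := by
    -- the graded module
    let D : Type := MvPolynomial (Fin (N + 1)) F ⧸ JI F g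
    let φ : MvPolynomial (Fin 3) F →ₐ[F] D := (Ideal.Quotient.mkₐ F (JI F g)).comp (aeval h)
    let _ : Algebra (MvPolynomial (Fin 3) F) D := φ.toRingHom.toAlgebra
    have _ : IsScalarTower F (MvPolynomial (Fin 3) F) D :=
      IsScalarTower.of_algebraMap_eq fun x => (φ.commutes x).symm
    have hφX : ∀ i, algebraMap (MvPolynomial (Fin 3) F) D (X i) = Ideal.Quotient.mk (JI F g) (h i) := by
      intro i
      change Ideal.Quotient.mk (JI F g) (aeval h (X i)) = _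
      rw [aeval_X]
    have hX1 : ∀ i, algebraMap (MvPolynomial (Fin 3) F) D (X i) ∈ qgr (JI F g) 1 := by
      intro i
      rw [hφX]
      exact ⟨h i, hh i, rfl⟩
    let M : GML.GMod F 3 := DIL.ofAlg (qgr (JI F g)) hX1
    have hM : IsRM M (qgr (JI F g)) (fun i => Ideal.Quotient.mk (JI F g) (h i))
        (LinearEquiv.refl F (MvPolynomial (Fin (N + 1)) F ⧸ JI F g)) := by
      refine ⟨?_, ?_, ?_⟩
      · intro i x
        change (X i : MvPolynomial (Fin 3) F) • (x : D) = Ideal.Quotient.mk (JI F g) (h i) * (x : D)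
        rw [Algebra.smul_def, hφX]
      · intro n x
        change (x : D) ∈ DIL.ext (qgr (JI F g)) (n : ℤ) ↔ (x : D) ∈ qgr (JI F g) n
        rw [DIL.ext_natCast]
      · intro n hn
        change DIL.ext (qgr (JI F g)) n = ⊥
        unfold DIL.ext
        rw [if_neg (by omega)]
    exact ⟨M, _, hM⟩
  have hmain := hilb F (JI F g) h M _ hM hFNH hGRO hJ hh hX
  obtain ⟨d, hd⟩ : ∃ d, d = Module.finrank (MvPolynomial (Fin 3) F) M.M := ⟨_, rfl⟩
  rw [← hd] at hmain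
  refine ⟨d, ?_, hmain, ?_⟩
  · -- positivity
    rw [Nat.pos_iff_ne_zero]
    intro h0
    rw [hd] at h0
    obtain ⟨q, hq0, h1⟩ := tors F (JI F g) h M _ hM
      (fin_T F (JI F g) h M _ hM hFNH hJ hh hX) h0
    obtain ⟨π, σ, l, hray⟩ := exists_ray g
    obtain ⟨-, -, hloc, -⟩ := hLCG F g π σ l hray
    have h3 : ∀ r ∈ JI F g, ∃ n : ℕ, chf F π σ ^ n * r ∈ Ideal.span {che F π σ l} ⊔ I F := by
      intro r hr
      unfold JI Jg at hr
      rw [Submodule.mem_sup] at hr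
      obtain ⟨a, ha, b, hb, rfl⟩ := hr
      have h4 : ∃ n : ℕ, chf F π σ ^ n * a ∈ Ideal.span {che F π σ l} ⊔ I F := by
        induction ha using Submodule.span_induction with
        | mem x hx =>
          obtain ⟨c, hc, rfl⟩ := hx
          obtain ⟨n, b', hb'⟩ := hloc c hc
          refine ⟨n, ?_⟩
          have h5 : chf F π σ ^ n * xc F c =
              b' * che F π σ l + (chf F π σ ^ n * xc F c - b' * che F π σ l) := by ring
          rw [h5]
          exact Ideal.add_mem _ (Ideal.mem_sup_left (Ideal.mul_mem_left _ _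
            (Ideal.mem_span_singleton_self _))) (Ideal.mem_sup_right hb')
        | zero => exact ⟨0, by rw [mul_zero]; exact Ideal.zero_mem _⟩
        | add x y _ _ hx hy =>
          obtain ⟨n, hn⟩ := hx
          obtain ⟨n', hn'⟩ := hy
          refine ⟨n + n', ?_⟩
          have h5 : chf F π σ ^ (n + n') * (x + y) = chf F π σ ^ n' * (chf F π σ ^ n * x) +
              chf F π σ ^ n * (chf F π σ ^ n' * y) := by ring
          rw [h5]
          exact Ideal.add_mem _ (Ideal.mul_mem_left _ _ hn) (Ideal.mul_mem_left _ _ hn')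
        | smul c x _ hx =>
          obtain ⟨n, hn⟩ := hx
          refine ⟨n, ?_⟩
          have h5 : chf F π σ ^ n * (c • x) = c * (chf F π σ ^ n * x) := by
            rw [smul_eq_mul]; ring
          rw [h5]
          exact Ideal.mul_mem_left _ _ hn
      obtain ⟨n, hn⟩ := h4
      refine ⟨n, ?_⟩
      rw [mul_add]
      exact Ideal.add_mem _ hn (Ideal.mem_sup_right (Ideal.mul_mem_left _ _ hb))
    obtain ⟨n, hn⟩ := h3 _ h1
    exact hDMG F g π σ l hray h hh hX q hq0 n hn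
  · intro h' hh' hX' T e' hT
    obtain ⟨C, hC⟩ := hmain
    obtain ⟨C', hC'⟩ := hilb F (JI F g) h' T e' hT hFNH hGRO hJ hh' hX'
    exact uniq (fun m => (Module.finrank F (qgr (JI F g) m) : ℤ)) _ _ C' C hC' hC

end Pool.Agent.XS
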