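import Pool.Agent.XS.Stmts

/-!
# XIN: products of coordinates with different orders along two crossing lines
-/

set_option autoImplicit false

noncomputable section

namespace Pool.Agent.XS.XIN_

open scoped Classical
open MvPolynomial Pool.Agent.FRM Pool.Agent.XV Pool.Agent.XB

/-- Power series in two variables. -/
abbrev R2 (F : Type) [Field F] : Type := PowerSeries (PowerSeries F)

/-- The constant coefficient. -/
def cc (F : Type) [Field F] : R2 F →+* F :=
  (PowerSeries.constantCoeff (R := F)).comp (PowerSeries.constantCoeff (R := PowerSeries F))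

/-- The values of the variables. -/
def vl (F : Type) [Field F] : Fin 4 → R2 F :=
  ![1, PowerSeries.X, PowerSeries.C PowerSeries.X, 0]

/-- The map of polynomials. -/
def pm (F : Type) [Field F] : MvPolynomial (Fin 4) F →+* R2 F :=
  eval₂Hom ((PowerSeries.C (R := PowerSeries F)).comp (PowerSeries.C (R := F))) (vl F)

theorem isUnit_of_cc {F : Type} [Field F] {f : R2 F} (h : IsUnit (cc F f)) : IsUnit f := by
  rw [PowerSeries.isUnit_iff_constantCoeff, PowerSeries.isUnit_iff_constantCoeff]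
  exact h

theorem pm_X (F : Type) [Field F] (i : Fin 4) : pm F (X i) = vl F i := by
  simp [pm]

theorem pm_gA (F : Type) [Field F] : IsUnit (pm F (gA F 0)) := by
  apply isUnit_of_cc
  have h0 : cc F (vl F 0) = 1 := by simp [vl]
  have h1 : cc F (vl F 1) = 0 := by simp [vl, cc]
  have h2 : cc F (vl F 2) = 0 := by simp [vl, cc]
  have e : gA F 0 = X 0 * (1 + X 1) * (1 + X 2) * (1 - X 1 * X 2) := by
    simp only [gA, hx, hy, rx, ry, Fin.prod_univ_three]
    simp
  have hX : ∀ i, cc F (pm F (X i)) = cc F (vl F i) := fun i => by rw [pm_X]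
  have h : cc F (pm F (gA F 0)) = 1 := by
    rw [e]
    simp only [map_mul, map_add, map_sub, map_one, hX, h0, h1, h2]
    ring
  rw [h]
  exact isUnit_one

/-- The map of the chart. -/
def am (F : Type) [Field F] : Au F 0 →+* R2 F :=
  IsLocalization.Away.lift (gA F 0) (pm_gA F)

theorem am_alg (F : Type) [Field F] (a : MvPolynomial (Fin 4) F) :
    am F (algebraMap _ (Au F 0) a) = pm F a :=
  IsLocalization.Away.lift_eq (gA F 0) (pm_gA F) a

theorem am_Xa0 (F : Type) [Field F] : am F (Xa F 0 0) = PowerSeries.X := by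
  unfold Xa
  rw [am_alg, pm_X]
  rfl

theorem am_Xa1 (F : Type) [Field F] : am F (Xa F 0 1) = PowerSeries.C PowerSeries.X := by
  unfold Xa
  rw [am_alg, pm_X]
  rfl

theorem am_Xa2 (F : Type) [Field F] : am F (Xa F 0 2) = 0 := by
  unfold Xa
  rw [am_alg, pm_X]
  rfl

theorem am_C (F : Type) [Field F] (a : F) :
    am F (algebraMap F (Au F 0) a) = PowerSeries.C (PowerSeries.C a) := by
  rw [IsScalarTower.algebraMap_apply F (MvPolynomial (Fin 4) F) (Au F 0), am_alg]
  simp [pm, MvPolynomial.algebraMap_eq]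

/-- The coefficients. -/
def cf {F : Type} [Field F] (s t : ℕ) (f : R2 F) : F :=
  PowerSeries.coeff t (PowerSeries.coeff s f)

theorem cf_sum {F : Type} [Field F] (s t : ℕ) {ι : Type} (S : Finset ι) (f : ι → R2 F) :
    cf s t (∑ i ∈ S, f i) = ∑ i ∈ S, cf s t (f i) := by
  unfold cf
  rw [map_sum, map_sum]

theorem cf_term {F : Type} [Field F] (s t a b : ℕ) (r : F) (u : R2 F) :
    cf s t (PowerSeries.C (PowerSeries.C r) *
      (u * (PowerSeries.X ^ a * (PowerSeries.C PowerSeries.X) ^ b))) =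
    if a ≤ s ∧ b ≤ t then r * cf (s - a) (t - b) u else 0 := by
  have h : PowerSeries.C (PowerSeries.C r) *
      (u * (PowerSeries.X ^ a * (PowerSeries.C PowerSeries.X) ^ b)) =
      PowerSeries.C (PowerSeries.C r) * (PowerSeries.X ^ a *
        (PowerSeries.C (PowerSeries.X ^ b) * u)) := by
    rw [map_pow]
    ring
  unfold cf
  rw [h, PowerSeries.coeff_C_mul, PowerSeries.coeff_C_mul, PowerSeries.coeff_X_pow_mul']
  by_cases h1 : a ≤ s
  · rw [if_pos h1, PowerSeries.coeff_C_mul, PowerSeries.coeff_X_pow_mul']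
    by_cases h2 : b ≤ t
    · rw [if_pos h2, if_pos ⟨h1, h2⟩]
    · rw [if_neg h2, if_neg (fun h => h2 h.2), mul_zero]
  · rw [if_neg h1, if_neg (fun h => h1 h.1), map_zero, mul_zero]

theorem indep {F : Type} [Field F] {ι : Type} (s t : ι → ℕ)
    (hinj : Function.Injective fun i => (s i, t i)) (u : ι → R2 F) (hu : ∀ i, IsUnit (u i))
    (S : Finset ι) (g : ι → F)
    (h : ∑ i ∈ S, PowerSeries.C (PowerSeries.C (g i)) *
      (u i * (PowerSeries.X ^ s i * (PowerSeries.C PowerSeries.X) ^ t i)) = 0) :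
    ∀ i ∈ S, g i = 0 := by
  by_contra hcon
  push Not at hcon
  obtain ⟨i0, hi0, hg0⟩ := hcon
  obtain ⟨i, hi, hmin⟩ := Finset.exists_min_image (S.filter fun i => g i ≠ 0)
    (fun i => toLex (s i, t i)) ⟨i0, Finset.mem_filter.2 ⟨hi0, hg0⟩⟩
  rw [Finset.mem_filter] at hi
  have h1 := congrArg (cf (s i) (t i)) h
  rw [cf_sum] at h1
  have hz : cf (s i) (t i) (0 : R2 F) = 0 := by simp [cf]
  rw [hz, Finset.sum_eq_single i] at h1
  · rw [cf_term, if_pos ⟨le_refl _, le_refl _⟩, Nat.sub_self, Nat.sub_self] at h1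
    have hu0 : cf 0 0 (u i) ≠ 0 := by
      have : IsUnit (cc F (u i)) := (hu i).map (cc F)
      have h2 := this.ne_zero
      simpa [cf, cc] using h2
    rcases mul_eq_zero.1 h1 with h2 | h2
    · exact hi.2 h2
    · exact hu0 h2
  · intro j hj hne
    rw [cf_term]
    split_ifs with hle
    · by_cases hgj : g j = 0
      · rw [hgj, zero_mul]
      · exfalso
        have h2 := hmin j (Finset.mem_filter.2 ⟨hj, hgj⟩)
        rw [Prod.Lex.le_iff] at h2
        simp only [ofLex_toLex] at h2
        apply hne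
        apply hinj
        simp only [Prod.mk.injEq]
        omega
    · rfl
  · intro h2
    exact absurd hi.1 h2

theorem elc_act (π : Equiv.Perm (Fin 5)) (c : Pt) :
    elc 0 0 (act π⁻¹ c) = c.e (pe π 0) ∧ elc 0 1 (act π⁻¹ c) = c.e (pe π 7) ∧
      elc 0 2 (act π⁻¹ c) = c.w := by
  refine ⟨?_, ?_, ?_⟩
  · simp [elc, el, act]
  · simp [elc, el, act]
  · simp [elc, el, act]

theorem act_act_inv (π : Equiv.Perm (Fin 5)) (c : Pt) : act π (act π⁻¹ c) = c := by
  ext k
  · rfl
  · show c.e (pe (π⁻¹)⁻¹ (pe π⁻¹ k)) = c.e k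
    rw [← pe_mul, inv_inv, mul_inv_cancel, pe_one]

theorem sgn_unit (π : Equiv.Perm (Fin 5)) (c : Pt) (B : Type) [CommRing B] :
    IsUnit ((sgn π c : ℤ) : B) := by
  have h : IsUnit (sgn π c) := by
    unfold sgn
    rw [IsUnit.prod_iff]
    intro k _
    apply IsUnit.pow
    unfold sg
    split_ifs
    · exact isUnit_one
    · exact isUnit_one.neg
  exact h.map (Int.castRingHom B)

end Pool.Agent.XS.XIN_

namespace Pool.Agent.XS

open MvPolynomial Pool.Agent.FRM Pool.Agent.XV Pool.Agent.XB XIN_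

theorem XIN_proof (hUCH : XB.Stmt_Uch) : Stmt_Xin := by
  intro F _ π ι _ A hw hinj
  obtain ⟨φ, hker, -, -, -, -, hφ⟩ := hUCH F π 0
  -- the values on the coordinates
  have hx : ∀ c : Pt, ∃ u : R2 F, IsUnit u ∧ am F (φ (xc F c)) =
      u * (PowerSeries.X ^ (c.e (pe π 0)) * (PowerSeries.C PowerSeries.X) ^ (c.e (pe π 7)) *
        0 ^ c.w) := by
    intro c
    obtain ⟨w, hwu, hw1⟩ := hφ (act π⁻¹ c)
    obtain ⟨v, hv⟩ := sgn_unit π (act π⁻¹ c) (MvPolynomial (Fin (N + 1)) F)
    have h1 : tws π (xc F) (act π⁻¹ c) = (v : MvPolynomial (Fin (N + 1)) F) * xc F c := by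
      unfold tws
      rw [act_act_inv, hv]
    have h2 : xc F c = ((v⁻¹ : (MvPolynomial (Fin (N + 1)) F)ˣ) : MvPolynomial (Fin (N + 1)) F) *
        tws π (xc F) (act π⁻¹ c) := by
      rw [h1, ← mul_assoc, Units.inv_mul, one_mul]
    obtain ⟨e0, e1, e2⟩ := elc_act π c
    refine ⟨am F (φ ((v⁻¹ : (MvPolynomial (Fin (N + 1)) F)ˣ) :
      MvPolynomial (Fin (N + 1)) F)) * am F w, ?_, ?_⟩
    · exact (((v⁻¹).isUnit.map φ).map (am F)).mul (hwu.map (am F))
    · rw [h2, map_mul, map_mul, hw1, map_mul, mul_assoc]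
      congr 2
      rw [Fin.prod_univ_three, map_mul, map_mul, map_pow, map_pow, map_pow, am_Xa0, am_Xa1,
        am_Xa2, e0, e1, e2]
  -- products
  have hprod : ∀ M : Multiset Pt, (∀ c ∈ M, c.w = 0) → ∃ u : R2 F, IsUnit u ∧
      am F (φ (M.map (xc F)).prod) = u * (PowerSeries.X ^ (M.map fun c => c.e (pe π 0)).sum *
        (PowerSeries.C PowerSeries.X) ^ (M.map fun c => c.e (pe π 7)).sum) := by
    intro M
    induction M using Multiset.induction with
    | empty =>
      intro _
      exact ⟨1, isUnit_one, by simp⟩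
    | cons c M ih =>
      intro hM
      obtain ⟨u, hu, h1⟩ := ih fun d hd => hM d (Multiset.mem_cons_of_mem hd)
      obtain ⟨v, hv, h2⟩ := hx c
      rw [hM c (Multiset.mem_cons_self c M)] at h2
      refine ⟨v * u, hv.mul hu, ?_⟩
      rw [Multiset.map_cons, Multiset.prod_cons, map_mul, map_mul, h1, h2, Multiset.map_cons,
        Multiset.sum_cons, Multiset.map_cons, Multiset.sum_cons, pow_add, pow_add, pow_zero]
      ring
  choose u hu hAu using fun i => hprod (A i) (hw i)
  -- the ideal maps to zero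
  have hJ : ∀ r ∈ JI F none, am F (φ r) = 0 := by
    have hle : JI F none ≤ RingHom.ker ((am F).comp (φ : MvPolynomial (Fin (N + 1)) F →+* Au F 0)) := by
      unfold JI
      rw [sup_le_iff]
      constructor
      · unfold Jg
        rw [Ideal.span_le]
        rintro r ⟨c, hc, rfl⟩
        obtain ⟨v, -, h2⟩ := hx c
        show am F (φ (xc F c)) = 0
        have h3 : c.w ≠ 0 := by
          have : 0 < c.w := hc
          omega
        rw [h2, zero_pow h3, mul_zero, mul_zero]
      · intro r hr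
        rw [← hker] at hr
        show am F (φ r) = 0
        rw [show φ r = 0 from hr, map_zero]
    intro r hr
    exact hle hr
  rw [linearIndependent_iff']
  intro S g hg
  have h1 : Ideal.Quotient.mk (JI F none) (∑ i ∈ S, C (g i) * ((A i).map (xc F)).prod) = 0 := by
    rw [← hg, map_sum]
    refine Finset.sum_congr rfl fun i _ => ?_
    rw [← MvPolynomial.smul_eq_C_mul]
    rfl
  rw [Ideal.Quotient.eq_zero_iff_mem] at h1
  have h2 := hJ _ h1
  rw [map_sum, map_sum] at h2
  refine indep (fun i => ((A i).map fun c => c.e (pe π 0)).sum)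
    (fun i => ((A i).map fun c => c.e (pe π 7)).sum) hinj u hu S g ?_
  rw [← h2]
  refine Finset.sum_congr rfl fun i _ => ?_
  rw [map_mul, map_mul, hAu i]
  congr 1
  have h3 : φ (C (g i)) = algebraMap F (Au F 0) (g i) := by
    rw [← MvPolynomial.algebraMap_eq]
    exact φ.commutes (g i)
  rw [h3, am_C]

end Pool.Agent.XS
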