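import Pool.Agent.XS.StmtsC

/-!
# XKA: the ideal of `R[y]`
-/

set_option autoImplicit false

noncomputable section

namespace Pool.Agent.XS

open scoped Classical
open MvPolynomial Pool.Agent.FRM Pool.Agent.XV Pool.Agent.XB

namespace XKA_

/-! ### homogeneous components -/

section comp

variable {F : Type} [Field F] {σ τ : Type}

theorem hc_homog (p : MvPolynomial σ F) (n m : ℕ) (hp : p.IsHomogeneous n) :
    homogeneousComponent m p = if m = n then p else 0 :=
  homogeneousComponent_of_mem ((mem_homogeneousSubmodule n p).mpr hp)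

/-- components of the product with a homogeneous polynomial -/
theorem hc_mul (h a : MvPolynomial σ F) (s : ℕ) (hh : h.IsHomogeneous s) (d : ℕ) :
    homogeneousComponent (d + s) (h * a) = h * homogeneousComponent d a := by
  conv_lhs => rw [← sum_homogeneousComponent a]
  rw [Finset.mul_sum, map_sum]
  have h1 : ∀ e, homogeneousComponent (d + s) (h * homogeneousComponent e a) =
      if e = d then h * homogeneousComponent d a else 0 := by
    intro e
    rw [hc_homog _ (s + e) _ (hh.mul (homogeneousComponent_isHomogeneous e a))]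
    by_cases he : e = d
    · subst he
      rw [if_pos (by omega), if_pos rfl]
    · rw [if_neg (by omega), if_neg he]
  rw [Finset.sum_congr rfl (fun e _ => h1 e), Finset.sum_ite_eq']
  split_ifs with h2
  · rfl
  · rw [homogeneousComponent_eq_zero, mul_zero]
    rw [Finset.mem_range] at h2
    omega

/-- small components of the product with a homogeneous polynomial -/
theorem hc_mul_lt (h a : MvPolynomial σ F) (s : ℕ) (hh : h.IsHomogeneous s) (d : ℕ)
    (hd : d < s) : homogeneousComponent d (h * a) = 0 := by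
  conv_lhs => rw [← sum_homogeneousComponent a]
  rw [Finset.mul_sum, map_sum]
  apply Finset.sum_eq_zero
  intro e _
  rw [hc_homog _ (s + e) _ (hh.mul (homogeneousComponent_isHomogeneous e a)), if_neg (by omega)]

theorem hc_rename (f : σ → τ) (a : MvPolynomial σ F) (d : ℕ) :
    homogeneousComponent d (rename f a) = rename f (homogeneousComponent d a) := by
  conv_lhs => rw [← sum_homogeneousComponent a]
  rw [map_sum, map_sum]
  have h1 : ∀ e, homogeneousComponent d (rename f (homogeneousComponent e a)) =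
      if e = d then rename f (homogeneousComponent d a) else 0 := by
    intro e
    rw [hc_homog _ e _ ((homogeneousComponent_isHomogeneous e a).rename_isHomogeneous)]
    by_cases he : e = d
    · subst he
      simp
    · rw [if_neg (Ne.symm he), if_neg he]
  rw [Finset.sum_congr rfl (fun e _ => h1 e), Finset.sum_ite_eq']
  split_ifs with h2
  · rfl
  · rw [homogeneousComponent_eq_zero, map_zero]
    rw [Finset.mem_range] at h2
    omega

end comp

/-! ### polynomials in `Y` -/

section pol

variable (F : Type) [Field F] (n₀ : ℕ)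

theorem Yv_homog : (RST.Yv F n₀).IsHomogeneous 1 := isHomogeneous_X _ _

theorem emb_apply (a : MvPolynomial (Fin n₀) F) : RST.emb F n₀ a = rename Fin.castSucc a := rfl

/-- expansion in powers of `Y` -/
theorem expand (p : MvPolynomial (Fin (n₀ + 1)) F) :
    ∃ (n : ℕ) (a : ℕ → MvPolynomial (Fin n₀) F),
      p = ∑ i ∈ Finset.range (n + 1), RST.emb F n₀ (a i) * RST.Yv F n₀ ^ i := by
  induction p using MvPolynomial.induction_on with
  | C c =>
    refine ⟨0, fun _ => C c, ?_⟩
    rw [Finset.sum_range_one, pow_zero, mul_one, emb_apply, rename_C]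
  | add p q hp hq =>
    obtain ⟨n, a, rfl⟩ := hp
    obtain ⟨m, b, rfl⟩ := hq
    refine ⟨n + m, fun i => (if i ≤ n then a i else 0) + (if i ≤ m then b i else 0), ?_⟩
    simp only [map_add, add_mul]
    rw [Finset.sum_add_distrib]
    congr 1
    · have h1 : Finset.range (n + 1) ⊆ Finset.range (n + m + 1) :=
        Finset.range_subset_range.mpr (by omega)
      rw [← Finset.sum_subset h1]
      · apply Finset.sum_congr rfl
        intro i hi
        rw [Finset.mem_range] at hi
        rw [if_pos (by omega)]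
      · intro i _ hi
        rw [Finset.mem_range] at hi
        rw [if_neg (by omega), map_zero, zero_mul]
    · have h1 : Finset.range (m + 1) ⊆ Finset.range (n + m + 1) :=
        Finset.range_subset_range.mpr (by omega)
      rw [← Finset.sum_subset h1]
      · apply Finset.sum_congr rfl
        intro i hi
        rw [Finset.mem_range] at hi
        rw [if_pos (by omega)]
      · intro i _ hi
        rw [Finset.mem_range] at hi
        rw [if_neg (by omega), map_zero, zero_mul]
  | mul_X p j hp =>
    obtain ⟨n, a, rfl⟩ := hp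
    induction j using Fin.lastCases with
    | last =>
      refine ⟨n + 1, fun i => if i = 0 then 0 else a (i - 1), ?_⟩
      rw [Finset.sum_range_succ' _ (n + 1), Finset.sum_mul]
      simp only [if_true, map_zero, zero_mul, add_zero]
      apply Finset.sum_congr rfl
      intro i _
      rw [if_neg (by omega), Nat.add_sub_cancel, pow_succ, mul_assoc]
      rfl
    | cast j =>
      refine ⟨n, fun i => a i * X j, ?_⟩
      rw [Finset.sum_mul]
      apply Finset.sum_congr rfl
      intro i _
      rw [map_mul, emb_apply F n₀ (X j), rename_X]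
      ring

/-- components of an expansion -/
theorem hc_expand (n : ℕ) (a : ℕ → MvPolynomial (Fin n₀) F) (d : ℕ) :
    homogeneousComponent d (∑ i ∈ Finset.range (n + 1), RST.emb F n₀ (a i) * RST.Yv F n₀ ^ i) =
      ∑ i ∈ Finset.range (n + 1),
        RST.emb F n₀ (if i ≤ d then homogeneousComponent (d - i) (a i) else 0) *
          RST.Yv F n₀ ^ i := by
  rw [map_sum]
  apply Finset.sum_congr rfl
  intro i _
  have hY : (RST.Yv F n₀ ^ i).IsHomogeneous i := by
    have := (Yv_homog F n₀).pow i
    rwa [one_mul] at this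
  split_ifs with h
  · have h1 : d = (d - i) + i := by omega
    conv_lhs => rw [h1]
    rw [mul_comm, hc_mul _ _ i hY, mul_comm, emb_apply, emb_apply, hc_rename]
  · rw [mul_comm, hc_mul_lt _ _ i hY d (by omega), map_zero, zero_mul]

/-- expansion of homogeneous polynomials -/
theorem expand_homog (p : MvPolynomial (Fin (n₀ + 1)) F) (m : ℕ) (hp : p.IsHomogeneous m) :
    ∃ b : ℕ → MvPolynomial (Fin n₀) F, (∀ i, (b i).IsHomogeneous (m - i)) ∧
      p = ∑ i ∈ Finset.range (m + 1), RST.emb F n₀ (b i) * RST.Yv F n₀ ^ i := by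
  obtain ⟨n, a, ha⟩ := expand F n₀ p
  refine ⟨fun i => if i ≤ n then homogeneousComponent (m - i) (a i) else 0, ?_, ?_⟩
  · intro i
    dsimp only
    split_ifs
    · exact homogeneousComponent_isHomogeneous _ _
    · exact isHomogeneous_zero _ _ _
  · have h1 : p = homogeneousComponent m p := by
      rw [hc_homog p m m hp, if_pos rfl]
    rw [h1, ha, hc_expand]
    have h2 : ∀ (k l : ℕ), ∑ i ∈ Finset.range (k + 1),
        RST.emb F n₀ (if i ≤ l then homogeneousComponent (m - i) (a i) else 0) *
          RST.Yv F n₀ ^ i = ∑ i ∈ Finset.range (k + l + 1), if i ≤ k ∧ i ≤ l then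
        RST.emb F n₀ (homogeneousComponent (m - i) (a i)) * RST.Yv F n₀ ^ i else 0 := by
      intro k l
      rw [← Finset.sum_subset (Finset.range_subset_range.mpr (by omega : k + 1 ≤ k + l + 1))]
      · apply Finset.sum_congr rfl
        intro i hi
        rw [Finset.mem_range] at hi
        by_cases h : i ≤ l
        · rw [if_pos h, if_pos ⟨by omega, h⟩]
        · rw [if_neg h, if_neg (fun h' => h h'.2), map_zero, zero_mul]
      · intro i _ hi
        rw [Finset.mem_range] at hi
        rw [if_neg (fun h' => by omega)]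
    rw [h2, h2, Nat.add_comm n m]
    apply Finset.sum_congr rfl
    intro i _
    by_cases h3 : i ≤ n ∧ i ≤ m
    · rw [if_pos h3, if_pos h3.symm]
    · rw [if_neg h3, if_neg (fun h4 => h3 h4.symm)]

end pol

/-! ### the homomorphism -/

section main

variable (F : Type) [Field F] (J : Ideal (MvPolynomial (Fin (N + 1)) F)) [J.IsPrime]
  (g : Option (Fin 10))

/-- `F[X] → Frac (F[X] / J)` -/
def pj : MvPolynomial (Fin (N + 1)) F →ₐ[F] FractionRing (MvPolynomial (Fin (N + 1)) F ⧸ J) :=
  (IsScalarTower.toAlgHom F (MvPolynomial (Fin (N + 1)) F ⧸ J)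
    (FractionRing (MvPolynomial (Fin (N + 1)) F ⧸ J))).comp (Ideal.Quotient.mkₐ F J)

omit [J.IsPrime] in
theorem pj_apply (a : MvPolynomial (Fin (N + 1)) F) :
    pj F J a = algebraMap (MvPolynomial (Fin (N + 1)) F ⧸ J) _ (Ideal.Quotient.mk J a) := rfl

theorem pj_zero (a : MvPolynomial (Fin (N + 1)) F) : pj F J a = 0 ↔ a ∈ J := by
  rw [pj_apply, FaithfulSMul.algebraMap_eq_zero_iff, Ideal.Quotient.eq_zero_iff_mem]

theorem psi_emb (a : MvPolynomial (Fin (N + 1)) F) :
    psi F J g (RST.emb F (N + 1) a) = pj F J a := by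
  have h : (psi F J g).comp (RST.emb F (N + 1)) = pj F J := by
    apply MvPolynomial.algHom_ext
    intro c
    rw [AlgHom.comp_apply, emb_apply, rename_X]
    unfold psi
    rw [aeval_X, Fin.snoc_castSucc]
    rfl
  exact congrArg (fun f => f a) h

theorem psi_Yv : psi F J g (RST.Yv F (N + 1)) = pj F J (xc F cO ^ 2) / pj F J (xc F (cG g)) := by
  unfold psi RST.Yv
  rw [aeval_X, Fin.snoc_last]
  rfl

theorem ym_eq (n i : ℕ) (a : MvPolynomial (Fin (N + 1)) F) :
    ym F g n i a = xc F cO ^ (2 * i) * xc F (cG g) ^ (n - i) * a := rfl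

/-- the denominators -/
theorem psi_mul (hG : xc F (cG g) ∉ J) (n : ℕ) (a : ℕ → MvPolynomial (Fin (N + 1)) F) :
    psi F J g (∑ i ∈ Finset.range (n + 1), RST.emb F (N + 1) (a i) * RST.Yv F (N + 1) ^ i) *
      pj F J (xc F (cG g)) ^ n = pj F J (∑ i ∈ Finset.range (n + 1), ym F g n i (a i)) := by
  have hG0 : pj F J (xc F (cG g)) ≠ 0 := fun h => hG ((pj_zero F J _).mp h)
  rw [map_sum, map_sum, Finset.sum_mul]
  apply Finset.sum_congr rfl
  intro i hi
  rw [Finset.mem_range] at hi
  rw [ym_eq, map_mul, map_mul, map_mul, map_pow, map_pow, map_pow, psi_emb, psi_Yv, map_pow,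
    div_pow, ← pow_mul]
  have h1 : pj F J (xc F (cG g)) ^ n =
      pj F J (xc F (cG g)) ^ (n - i) * pj F J (xc F (cG g)) ^ i := by
    rw [← pow_add]; congr 1; omega
  rw [h1]
  have h2 := pow_ne_zero i hG0
  field_simp

theorem mem_Ipr (p : MvPolynomial (Fin (N + 1 + 1)) F) : p ∈ Ipr F J g ↔ psi F J g p = 0 :=
  Iff.rfl

theorem sum_mem_iff (hG : xc F (cG g) ∉ J) (n : ℕ) (a : ℕ → MvPolynomial (Fin (N + 1)) F) :
    ∑ i ∈ Finset.range (n + 1), RST.emb F (N + 1) (a i) * RST.Yv F (N + 1) ^ i ∈ Ipr F J g ↔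
      ∑ i ∈ Finset.range (n + 1), ym F g n i (a i) ∈ J := by
  have hG0 : pj F J (xc F (cG g)) ≠ 0 := fun h => hG ((pj_zero F J _).mp h)
  rw [mem_Ipr, ← pj_zero F J, ← psi_mul F J g hG, mul_eq_zero, or_iff_left (pow_ne_zero n hG0)]

theorem xc_homog (c : Pt) : (xc F c).IsHomogeneous 1 := isHomogeneous_X _ _

/-- components of the numerators -/
theorem hc_ym (n i : ℕ) (hi : i ≤ n) (a : MvPolynomial (Fin (N + 1)) F) (d : ℕ) :
    homogeneousComponent (d + n) (ym F g n i a) =
      ym F g n i (if i ≤ d then homogeneousComponent (d - i) a else 0) := by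
  have h1 : (xc F cO ^ (2 * i) * xc F (cG g) ^ (n - i)).IsHomogeneous (n + i) := by
    have h2 := ((xc_homog F cO).pow (2 * i)).mul ((xc_homog F (cG g)).pow (n - i))
    have h3 : 1 * (2 * i) + 1 * (n - i) = n + i := by omega
    rwa [h3] at h2
  rw [ym_eq, ym_eq]
  split_ifs with h
  · have h2 : d + n = (d - i) + (n + i) := by omega
    rw [h2, hc_mul _ _ _ h1]
  · rw [hc_mul_lt _ _ _ h1 _ (by omega), mul_zero]

theorem homI (hJ : HomId F J) (hG : xc F (cG g) ∉ J) : RST.HomI (Ipr F J g) := by
  intro p hp d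
  obtain ⟨n, a, rfl⟩ := expand F (N + 1) p
  rw [hc_expand, sum_mem_iff F J g hG]
  rw [sum_mem_iff F J g hG] at hp
  have h1 := hJ _ hp (d + n)
  rw [map_sum] at h1
  have h2 : ∑ i ∈ Finset.range (n + 1), homogeneousComponent (d + n) (ym F g n i (a i)) =
      ∑ i ∈ Finset.range (n + 1),
        ym F g n i (if i ≤ d then homogeneousComponent (d - i) (a i) else 0) := by
    apply Finset.sum_congr rfl
    intro i hi
    rw [Finset.mem_range] at hi
    exact hc_ym F g n i (by omega) (a i) d
  rw [h2] at h1
  exact h1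

/-- the embedding of `F[X] / J` in its field of fractions -/
def al : (MvPolynomial (Fin (N + 1)) F ⧸ J) →ₗ[F]
    FractionRing (MvPolynomial (Fin (N + 1)) F ⧸ J) :=
  (IsScalarTower.toAlgHom F (MvPolynomial (Fin (N + 1)) F ⧸ J)
    (FractionRing (MvPolynomial (Fin (N + 1)) F ⧸ J))).toLinearMap

omit [J.IsPrime] in
theorem al_inj : Function.Injective (al F J) :=
  IsFractionRing.injective (MvPolynomial (Fin (N + 1)) F ⧸ J) _

/-- the embedding of the quotient by `Ipr` -/
def qu : (MvPolynomial (Fin (N + 1 + 1)) F ⧸ Ipr F J g) →ₗ[F]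
    FractionRing (MvPolynomial (Fin (N + 1)) F ⧸ J) :=
  (Ideal.Quotient.liftₐ (Ipr F J g) (psi F J g) (fun _ h => h)).toLinearMap

theorem qu_mk (p : MvPolynomial (Fin (N + 1 + 1)) F) :
    qu F J g (Ideal.Quotient.mk _ p) = psi F J g p := rfl

theorem qu_inj : Function.Injective (qu F J g) := by
  rw [injective_iff_map_eq_zero]
  intro x hx
  obtain ⟨p, rfl⟩ := Ideal.Quotient.mk_surjective x
  rw [qu_mk] at hx
  rw [Ideal.Quotient.eq_zero_iff_mem]
  exact hx

theorem hf_eq (hG : xc F (cG g) ∉ J) (m : ℕ) :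
    RST.hf (Ipr F J g) m = Module.finrank F (Yg F J g m) := by
  have hG0 : pj F J (xc F (cG g)) ≠ 0 := fun h => hG ((pj_zero F J _).mp h)
  let μ : FractionRing (MvPolynomial (Fin (N + 1)) F ⧸ J) →ₗ[F]
      FractionRing (MvPolynomial (Fin (N + 1)) F ⧸ J) :=
    LinearMap.mulRight F (pj F J (xc F (cG g)) ^ m)
  have hμ : Function.Injective μ := mul_left_injective₀ (pow_ne_zero m hG0)
  let W := (homogeneousSubmodule (Fin (N + 1 + 1)) F m).map
    (Ideal.Quotient.mkₐ F (Ipr F J g)).toLinearMap
  have h1 : W.map (μ.comp (qu F J g)) = (Yg F J g m).map (al F J) := by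
    apply le_antisymm
    · rintro _ ⟨_, ⟨p, hp, rfl⟩, rfl⟩
      obtain ⟨b, hb, hpb⟩ := expand_homog F (N + 1) p m hp
      refine ⟨Ideal.Quotient.mk J (∑ i ∈ Finset.range (m + 1), ym F g m i (b i)), ?_, ?_⟩
      · rw [map_sum]
        refine sum_mem (fun i hi => Submodule.subset_span ⟨i, ?_, b i, hb i, rfl⟩)
        rw [Finset.mem_range] at hi
        omega
      · change pj F J _ = psi F J g p * _
        rw [← psi_mul F J g hG, ← hpb]
    · rw [Submodule.map_le_iff_le_comap]
      unfold Yg
      rw [Submodule.span_le]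
      rintro _ ⟨i, hi, r, hr, rfl⟩
      refine ⟨Ideal.Quotient.mk _ (RST.emb F (N + 1) r * RST.Yv F (N + 1) ^ i), ⟨_, ?_, rfl⟩, ?_⟩
      · have h2 : (RST.emb F (N + 1) r).IsHomogeneous (m - i) := hr.rename_isHomogeneous
        have h3 := h2.mul ((Yv_homog F (N + 1)).pow i)
        have h4 : m - i + 1 * i = m := by omega
        rw [h4] at h3
        exact h3
      · change psi F J g _ * _ = pj F J _
        rw [map_mul, map_pow, psi_emb, psi_Yv, ym_eq, map_mul, map_mul, map_pow, map_pow, map_pow,
          div_pow, ← pow_mul]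
        have h5 : pj F J (xc F (cG g)) ^ m =
            pj F J (xc F (cG g)) ^ (m - i) * pj F J (xc F (cG g)) ^ i := by
          rw [← pow_add]; congr 1; omega
        rw [h5]
        have h6 := pow_ne_zero i hG0
        field_simp
  have h2 : Module.finrank F (W.map (μ.comp (qu F J g))) = Module.finrank F W :=
    LinearEquiv.finrank_eq (Submodule.equivMapOfInjective (μ.comp (qu F J g))
      (show Function.Injective (μ ∘ qu F J g) from hμ.comp (qu_inj F J g)) W).symm
  have h3 : Module.finrank F ((Yg F J g m).map (al F J)) = Module.finrank F (Yg F J g m) :=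
    LinearEquiv.finrank_eq (Submodule.equivMapOfInjective _ (al_inj F J) _).symm
  rw [← h3, ← h1, h2]
  rfl

end main

end XKA_

open XKA_ in
theorem XKA_proof : Stmt_Xka := by
  intro F _ J _ g hJ hG
  refine ⟨RingHom.ker_isPrime _, homI F J g hJ hG, ?_, hf_eq F J g hG,
    fun n a => sum_mem_iff F J g hG n a, expand F (N + 1)⟩
  ext a
  rw [Ideal.mem_comap, mem_Ipr]
  change psi F J g (RST.emb F (N + 1) a) = 0 ↔ _
  rw [psi_emb, pj_zero]

end Pool.Agent.XS
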