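import Pool.Agent.XS.Stmts

/-!
# XLA: decomposition of lattice points
-/

set_option autoImplicit false

noncomputable section

namespace Pool.Agent.XS

open scoped Classical
open MvPolynomial Pool.Agent.FRM Pool.Agent.XV Pool.Agent.XB

namespace XLA_

/-- One point of the table. -/
theorem mk_pt (e : Fin 10 → ℕ) (h : Adm 1 0 e) :
    ∃ c : Pt, c.w = 0 ∧ c.e 0 = e 0 ∧ c.e 7 = e 7 := ⟨⟨0, e, h⟩, rfl, rfl, rfl⟩

/-- The sixteen lattice points of the pentagon. -/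
theorem tab (a b : ℕ) (h1 : a ≤ 4) (h2 : b ≤ 4) (h3 : a ≤ b + 2) (h4 : b ≤ a + 2)
    (h5 : a + b ≤ 6) : ∃ c : Pt, c.w = 0 ∧ c.e 0 = a ∧ c.e 7 = b := by
  have key : (a = 0 ∧ b = 0) ∨ (a = 0 ∧ b = 1) ∨ (a = 0 ∧ b = 2) ∨ (a = 1 ∧ b = 0) ∨
      (a = 1 ∧ b = 1) ∨ (a = 1 ∧ b = 2) ∨ (a = 1 ∧ b = 3) ∨ (a = 2 ∧ b = 0) ∨
      (a = 2 ∧ b = 1) ∨ (a = 2 ∧ b = 2) ∨ (a = 2 ∧ b = 3) ∨ (a = 2 ∧ b = 4) ∨
      (a = 3 ∧ b = 1) ∨ (a = 3 ∧ b = 2) ∨ (a = 3 ∧ b = 3) ∨ (a = 4 ∧ b = 2) := by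
    interval_cases a <;> omega
  rcases key with ⟨rfl, rfl⟩ | ⟨rfl, rfl⟩ | ⟨rfl, rfl⟩ | ⟨rfl, rfl⟩ | ⟨rfl, rfl⟩ | ⟨rfl, rfl⟩ |
    ⟨rfl, rfl⟩ | ⟨rfl, rfl⟩ | ⟨rfl, rfl⟩ | ⟨rfl, rfl⟩ | ⟨rfl, rfl⟩ | ⟨rfl, rfl⟩ | ⟨rfl, rfl⟩ |
    ⟨rfl, rfl⟩ | ⟨rfl, rfl⟩ | ⟨rfl, rfl⟩
  · exact mk_pt ![0, 0, 2, 2, 2, 2, 0, 0, 2, 0] (by decide +kernel)
  · exact mk_pt ![0, 0, 1, 3, 2, 2, 0, 1, 1, 0] (by decide +kernel)
  · exact mk_pt ![0, 0, 0, 4, 2, 2, 0, 2, 0, 0] (by decide +kernel)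
  · exact mk_pt ![1, 0, 2, 1, 1, 2, 0, 0, 3, 0] (by decide +kernel)
  · exact mk_pt ![1, 0, 1, 2, 1, 2, 0, 1, 2, 0] (by decide +kernel)
  · exact mk_pt ![1, 0, 0, 3, 1, 2, 0, 2, 1, 0] (by decide +kernel)
  · exact mk_pt ![1, 0, 0, 3, 1, 1, 1, 3, 0, 0] (by decide +kernel)
  · exact mk_pt ![2, 0, 2, 0, 0, 2, 0, 0, 4, 0] (by decide +kernel)
  · exact mk_pt ![2, 0, 1, 1, 0, 2, 0, 1, 3, 0] (by decide +kernel)
  · exact mk_pt ![2, 0, 0, 2, 0, 2, 0, 2, 2, 0] (by decide +kernel)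
  · exact mk_pt ![2, 0, 0, 2, 0, 1, 1, 3, 1, 0] (by decide +kernel)
  · exact mk_pt ![2, 0, 0, 2, 0, 0, 2, 4, 0, 0] (by decide +kernel)
  · exact mk_pt ![3, 0, 1, 0, 0, 1, 0, 1, 3, 1] (by decide +kernel)
  · exact mk_pt ![3, 0, 0, 1, 0, 1, 0, 2, 2, 1] (by decide +kernel)
  · exact mk_pt ![3, 0, 0, 1, 0, 0, 1, 3, 1, 1] (by decide +kernel)
  · exact mk_pt ![4, 0, 0, 0, 0, 0, 0, 2, 2, 2] (by decide +kernel)

/-- Every lattice point of the `m + 1`-fold pentagon is a point of the pentagon plus a point of the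
`m`-fold one. -/
theorem step (m s t : ℕ) (h3 : s ≤ t + 2 * (m + 1)) (h4 : t ≤ s + 2 * (m + 1))
    (h5 : s + t ≤ 6 * (m + 1)) : ∃ a b : ℕ, a ≤ s ∧ b ≤ t ∧ a ≤ 4 ∧ b ≤ 4 ∧ a ≤ b + 2 ∧
      b ≤ a + 2 ∧ a + b ≤ 6 ∧ s - a ≤ t - b + 2 * m ∧ t - b ≤ s - a + 2 * m ∧
      (s - a) + (t - b) ≤ 6 * m := by
  by_cases c1 : t = s + 2 * m + 2
  · exact ⟨s - 2 * m, s - 2 * m + 2, by omega⟩
  by_cases c2 : t = s + 2 * m + 1
  · exact ⟨s - 2 * m, s - 2 * m + 1, by omega⟩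
  by_cases c3 : s = t + 2 * m + 2
  · exact ⟨t - 2 * m + 2, t - 2 * m, by omega⟩
  by_cases c4 : s = t + 2 * m + 1
  · exact ⟨t - 2 * m + 1, t - 2 * m, by omega⟩
  · exact ⟨(s + t + 1 - 6 * m) / 2, (s + t + 1 - 6 * m) / 2, by omega⟩

/-- The case of the identity. -/
theorem one (m : ℕ) : ∀ s t : ℕ, s ≤ t + 2 * m → t ≤ s + 2 * m → s + t ≤ 6 * m →
    ∃ A : Multiset Pt, Multiset.card A = m ∧ (∀ c ∈ A, c.w = 0) ∧
      (A.map fun c => c.e 0).sum = s ∧ (A.map fun c => c.e 7).sum = t := by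
  induction m with
  | zero =>
    intro s t h3 h4 h5
    obtain rfl : s = 0 := by omega
    obtain rfl : t = 0 := by omega
    exact ⟨0, by simp, by simp, by simp, by simp⟩
  | succ m ih =>
    intro s t h3 h4 h5
    obtain ⟨a, b, k1, k2, k3, k4, k5, k6, k7, k8, k9, k10⟩ := step m s t h3 h4 h5
    obtain ⟨c, hc0, hc1, hc2⟩ := tab a b k3 k4 k5 k6 k7
    obtain ⟨A, hA1, hA2, hA3, hA4⟩ := ih (s - a) (t - b) k8 k9 k10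
    refine ⟨c ::ₘ A, by simp [hA1], ?_, ?_, ?_⟩
    · intro d hd
      rcases Multiset.mem_cons.1 hd with rfl | hd
      · exact hc0
      · exact hA2 d hd
    · simp only [Multiset.map_cons, Multiset.sum_cons, hA3, hc1]
      omega
    · simp only [Multiset.map_cons, Multiset.sum_cons, hA4, hc2]
      omega

end XLA_

open XLA_

theorem xla_proof : Stmt_Xla := by
  intro π m s t _ _ h3 h4 h5
  obtain ⟨A, hA1, hA2, hA3, hA4⟩ := one m s t h3 h4 h5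
  refine ⟨A.map (act π), by simpa using hA1, ?_, ?_, ?_⟩
  · intro c hc
    obtain ⟨d, hd, rfl⟩ := Multiset.mem_map.1 hc
    exact hA2 d hd
  · rw [Multiset.map_map]
    simpa [Function.comp_def, act_e] using hA3
  · rw [Multiset.map_map]
    simpa [Function.comp_def, act_e] using hA4

end Pool.Agent.XS
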