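import Pool.Agent.XS.StmtsC
import Pool.Agent.XB.LNF

/-!
# XPA: parameters
-/

set_option autoImplicit false

noncomputable section

namespace Pool.Agent.XS

open scoped Classical
open MvPolynomial Pool.Agent.FRM Pool.Agent.XV Pool.Agent.XB Pool.Agent.XB.LNF_

theorem XPA_proof (hDIM : XV.Stmt_Dim) (hPRI : XV.Stmt_Pri) (hLZA : FRM.Stmt_Lza)
    (hLZE : FRM.Stmt_Lze) : Stmt_Xpa := by
  intro F _ _ c₀
  have : Infinite F := IsAlgClosed.instInfinite
  obtain ⟨J, hJdef⟩ : ∃ J : Ideal (MvPolynomial (Fin (N + 1)) F),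
      J = I F ⊔ Ideal.span {xc F c₀} := ⟨_, rfl⟩
  rw [← hJdef]
  have hJ : Homog J := by
    rw [hJdef]
    refine homog_sup_span _ (fun f hf m => (hPRI F).2 f hf m) _ ?_
    rintro _ rfl
    exact isHomogeneous_X F _
  have hdim : ringKrullDim (MvPolynomial (Fin (N + 1)) F ⧸ J) ≤ (3 : ℕ) := by
    refine dim_gen (MvPolynomial (Fin (N + 1)) F) (I F) J (hPRI F).1 (hJdef ▸ le_sup_left)
      (xc F c₀) ?_ (xc_notMem F c₀) 3 ?_
    · rw [hJdef]
      exact Ideal.mem_sup_right (Ideal.mem_span_singleton_self _)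
    · rw [hDIM F]
      norm_num
  have key : ∀ s : ℕ, s ≤ 3 → ∃ c : Fin s → (Fin (N + 1) → F),
      ringKrullDim (MvPolynomial (Fin (N + 1)) F ⧸
        (J ⊔ Ideal.span (Set.range fun i => (∑ l, C (c i l) * X l :
          MvPolynomial (Fin (N + 1)) F)))) ≤ ((3 - s : ℕ) : WithBot ℕ∞) := by
    intro s
    induction s with
    | zero =>
      intro _
      refine ⟨fun i => i.elim0, ?_⟩
      have h1 : (Set.range fun i : Fin 0 =>
          (∑ l, C ((i.elim0 : Fin (N + 1) → F) l) * X l : MvPolynomial (Fin (N + 1)) F)) = ∅ :=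
        Set.range_eq_empty _
      rw [h1, Ideal.span_empty, sup_bot_eq]
      exact hdim
    | succ s ih =>
      intro hs
      obtain ⟨c, hc1⟩ := ih (by omega)
      have hds : 3 - s = (2 - s) + 1 := by omega
      rw [hds] at hc1
      obtain ⟨T, hT, hT1, hT2⟩ := hLZA F N (2 - s) _
        (homog_sup_span J hJ _ (by rintro _ ⟨i, rfl⟩; exact lin_hom (c i))) hc1
      obtain ⟨c', hc'⟩ := exists_avoid T hT hT1
      refine ⟨Fin.snoc c c', ?_⟩
      have h1 := hT2 c' hc'
      have h2 : (Set.range fun i : Fin (s + 1) =>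
          (∑ l, C ((Fin.snoc c c' : Fin (s + 1) → (Fin (N + 1) → F)) i l) * X l :
            MvPolynomial (Fin (N + 1)) F)) =
          (Set.range fun i => (∑ l, C (c i l) * X l : MvPolynomial (Fin (N + 1)) F)) ∪
            {∑ l, C (c' l) * X l} := by
        ext G
        constructor
        · rintro ⟨i, rfl⟩
          refine Fin.lastCases ?_ (fun i => ?_) i
          · right
            simp
          · left
            exact ⟨i, by simp⟩
        · rintro (⟨i, rfl⟩ | h)
          · exact ⟨i.castSucc, by simp⟩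
          · rw [Set.mem_singleton_iff] at h
            exact ⟨Fin.last s, by simp [h]⟩
      rw [h2, Ideal.span_union, ← sup_assoc]
      have h3 : 3 - (s + 1) = 2 - s := by omega
      rw [h3]
      exact h1
  obtain ⟨c, hc⟩ := key 3 le_rfl
  rw [Nat.sub_self, Nat.cast_zero] at hc
  refine ⟨fun i => ∑ l, C (c i l) * X l, fun i => lin_hom (c i), ?_⟩
  exact hLZE F N _ (homog_sup_span J hJ _
    (by rintro _ ⟨i, rfl⟩; exact lin_hom (c i))) hc

end Pool.Agent.XS
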