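import Pool.Agent.XS.Stmts
import Pool.Agent.XB.LCG

/-!
# XPR: the prime ideal of the surface `g`
-/

set_option autoImplicit false

noncomputable section

namespace Pool.Agent.XS

open scoped Classical
open MvPolynomial Pool.Agent.FRM Pool.Agent.XV Pool.Agent.XB

namespace XPR_

variable {F : Type} [Field F]

theorem tws_hom (π : Equiv.Perm (Fin 5)) (c : Pt) : (tws π (xc F) c).IsHomogeneous 1 := by
  unfold tws xc
  rw [← map_intCast (C : F →+* MvPolynomial (Fin (N + 1)) F)]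
  have h := (isHomogeneous_C (Fin (N + 1)) ((sgn π c : ℤ) : F)).mul
    (isHomogeneous_X F (pt.symm (act π c)))
  simpa using h

theorem chf_hom (π : Equiv.Perm (Fin 5)) (σ : Fin 6) : (chf F π σ).IsHomogeneous 4 := by
  have h := (((tws_hom (F := F) π (tp σ 0)).mul (tws_hom π (tp σ 7))).mul
    (tws_hom π (tp σ 8))).mul (tws_hom π (tp σ 9))
  exact h

theorem che_hom (π : Equiv.Perm (Fin 5)) (σ : Fin 6) (l : Fin 3) :
    (che F π σ l).IsHomogeneous 1 := tws_hom _ _

/-- Components of a product. -/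
theorem hc_mul' {n d : ℕ} {f : MvPolynomial (Fin (N + 1)) F} (hf : f.IsHomogeneous d)
    (p : MvPolynomial (Fin (N + 1)) F) :
    homogeneousComponent n (f * p) =
      ∑ i ∈ Finset.range (p.totalDegree + 1), if n = d + i then f * homogeneousComponent i p
        else 0 := by
  conv_lhs => rw [← sum_homogeneousComponent p, Finset.mul_sum, map_sum]
  refine Finset.sum_congr rfl fun i _ => ?_
  exact homogeneousComponent_of_mem (hf.mul (homogeneousComponent_isHomogeneous i p))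

theorem hc_mul {n d : ℕ} {f : MvPolynomial (Fin (N + 1)) F} (hf : f.IsHomogeneous d)
    (p : MvPolynomial (Fin (N + 1)) F) :
    homogeneousComponent (d + n) (f * p) = f * homogeneousComponent n p := by
  rw [hc_mul' hf p]
  by_cases h : n ∈ Finset.range (p.totalDegree + 1)
  · rw [Finset.sum_eq_single_of_mem n h]
    · rw [if_pos rfl]
    · intro b _ hb
      rw [if_neg]
      omega
  · rw [Finset.sum_eq_zero, homogeneousComponent_eq_zero, mul_zero]
    · rw [Finset.mem_range, not_lt] at h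
      omega
    · intro b hb
      rw [if_neg]
      intro h'
      apply h
      have : n = b := by omega
      rw [this]
      exact hb

theorem hc_mul_lt {n d : ℕ} {f : MvPolynomial (Fin (N + 1)) F} (hf : f.IsHomogeneous d)
    (h : n < d) (p : MvPolynomial (Fin (N + 1)) F) :
    homogeneousComponent n (f * p) = 0 := by
  rw [hc_mul' hf p]
  refine Finset.sum_eq_zero fun i _ => ?_
  rw [if_neg]
  omega

/-- An ideal generated by a homogeneous element and a homogeneous ideal. -/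
theorem homId_sup {d : ℕ} {e : MvPolynomial (Fin (N + 1)) F} (he : e.IsHomogeneous d)
    {J : Ideal (MvPolynomial (Fin (N + 1)) F)} (hJ : HomId F J) :
    HomId F (Ideal.span {e} ⊔ J) := by
  intro G hG m
  obtain ⟨a, ha, b, hb, rfl⟩ := Submodule.mem_sup.1 hG
  obtain ⟨s, rfl⟩ := Ideal.mem_span_singleton'.1 ha
  rw [map_add]
  refine Ideal.add_mem _ (Ideal.mem_sup_left ?_) (Ideal.mem_sup_right (hJ b hb m))
  rw [mul_comm s e]
  by_cases hm : d ≤ m
  · obtain ⟨n, rfl⟩ := Nat.exists_eq_add_of_le hm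
    rw [hc_mul he]
    exact Ideal.mul_mem_right _ _ (Ideal.mem_span_singleton_self e)
  · rw [hc_mul_lt he (by omega)]
    exact Ideal.zero_mem _

/-- The saturation of an ideal with respect to the powers of an element. -/
def sat (f : MvPolynomial (Fin (N + 1)) F) (J : Ideal (MvPolynomial (Fin (N + 1)) F)) :
    Ideal (MvPolynomial (Fin (N + 1)) F) where
  carrier := {r | ∃ n : ℕ, f ^ n * r ∈ J}
  zero_mem' := ⟨0, by rw [mul_zero]; exact Ideal.zero_mem _⟩
  add_mem' := by
    rintro r r' ⟨n, hn⟩ ⟨n', hn'⟩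
    refine ⟨n + n', ?_⟩
    have h1 := Ideal.mul_mem_left J (f ^ n') hn
    have h2 := Ideal.mul_mem_left J (f ^ n) hn'
    have h3 := Ideal.add_mem J h1 h2
    convert h3 using 1
    rw [pow_add]
    ring
  smul_mem' := by
    rintro b r ⟨n, hn⟩
    refine ⟨n, ?_⟩
    have h1 := Ideal.mul_mem_left J b hn
    convert h1 using 1
    rw [smul_eq_mul]
    ring

theorem mem_sat {f : MvPolynomial (Fin (N + 1)) F} {J : Ideal (MvPolynomial (Fin (N + 1)) F)}
    {r : MvPolynomial (Fin (N + 1)) F} : r ∈ sat f J ↔ ∃ n : ℕ, f ^ n * r ∈ J := Iff.rfl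

theorem sat_hom {d : ℕ} {f : MvPolynomial (Fin (N + 1)) F} (hf : f.IsHomogeneous d)
    {J : Ideal (MvPolynomial (Fin (N + 1)) F)} (hJ : HomId F J) : HomId F (sat f J) := by
  rintro r ⟨n, hn⟩ m
  refine ⟨n, ?_⟩
  have h := hJ _ hn (d * n + m)
  rwa [hc_mul (hf.pow n)] at h

theorem ex_pe : ∀ k : Fin 10, pe (Equiv.swap (Equiv.swap 0 (eS k) 1) (eT k) *
    Equiv.swap 0 (eS k)) 0 = k := by
  decide

/-- Every surface is in some chart. -/
theorem ex_ray (g : Option (Fin 10)) : ∃ π σ l, RayOf g π σ l := by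
  cases g with
  | none => exact ⟨1, 0, 2, Or.inl ⟨rfl, rfl, rfl⟩⟩
  | some k => exact ⟨_, 0, 0, Or.inr ⟨k, rfl, Or.inl ⟨rfl, Or.inl rfl, ex_pe k⟩⟩⟩

end XPR_

open XPR_

theorem XPR_proof (hLCG : XB.Stmt_Lcg) (hCVG : XB.Stmt_Cvg) (hPRI : XV.Stmt_Pri)
    (hUCH : XB.Stmt_Uch) (hRAY : XB.Stmt_Ray) : Stmt_Xpr := by
  intro F _ _ g
  have hIh : HomId F (I F) := (hPRI F).2
  have hEJ : ∀ π σ l, RayOf g π σ l → Ideal.span {che F π σ l} ⊔ I F ≤ JI F g := by
    intro π σ l hl
    refine sup_le_sup_right ?_ _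
    rw [Ideal.span_singleton_le_iff_mem]
    exact (hLCG F g π σ l hl).1
  have hJs : ∀ π σ l, RayOf g π σ l →
      JI F g ≤ sat (chf F π σ) (Ideal.span {che F π σ l} ⊔ I F) := by
    intro π σ l hl
    obtain ⟨-, -, h3, -, -, -⟩ := hLCG F g π σ l hl
    refine sup_le ?_ ?_
    · unfold Jg
      rw [Ideal.span_le]
      rintro _ ⟨c, hc, rfl⟩
      obtain ⟨n, b, hb⟩ := h3 c hc
      refine ⟨n, ?_⟩
      have h4 : chf F π σ ^ n * xc F c = b * che F π σ l +
          (chf F π σ ^ n * xc F c - b * che F π σ l) := by ring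
      rw [h4]
      exact Ideal.add_mem _ (Ideal.mem_sup_left (Ideal.mul_mem_left _ _
        (Ideal.mem_span_singleton_self _))) (Ideal.mem_sup_right hb)
    · intro r hr
      exact ⟨0, Ideal.mem_sup_right (Ideal.mul_mem_left _ _ hr)⟩
  have hprime : ∀ π σ l, RayOf g π σ l →
      (sat (chf F π σ) (Ideal.span {che F π σ l} ⊔ I F)).IsPrime := by
    intro π σ l hl
    obtain ⟨-, -, -, -, h5, h6⟩ := hLCG F g π σ l hl
    refine Ideal.isPrime_iff.2 ⟨?_, ?_⟩
    · rw [Ne, Ideal.eq_top_iff_one]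
      rintro ⟨n, hn⟩
      apply h6 π σ l hl n 0
      rw [pow_zero]
      exact hn
    · rintro r r' ⟨n, hn⟩
      rw [← mul_assoc] at hn
      rcases h5 _ _ hn with ⟨m, hm⟩ | ⟨m, hm⟩
      · left
        refine ⟨m + n, ?_⟩
        rw [pow_add, mul_assoc]
        exact hm
      · right
        exact ⟨m, hm⟩
  have hnot : ∀ π σ l, RayOf g π σ l → ∀ π' σ' l', RayOf g π' σ' l' →
      chf F π' σ' ∉ sat (chf F π σ) (Ideal.span {che F π σ l} ⊔ I F) := by
    rintro π σ l hl π' σ' l' hl' ⟨n, hn⟩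
    obtain ⟨-, -, -, -, -, h6⟩ := hLCG F g π σ l hl
    apply h6 π' σ' l' hl' n 1
    rw [pow_one]
    exact hn
  have hle : ∀ π σ l, RayOf g π σ l → ∀ π' σ' l', RayOf g π' σ' l' →
      sat (chf F π σ) (Ideal.span {che F π σ l} ⊔ I F) ≤
        sat (chf F π' σ') (Ideal.span {che F π' σ' l'} ⊔ I F) := by
    rintro π σ l hl π' σ' l' hl' r ⟨n, hn⟩
    have h1 := hJs π' σ' l' hl' (hEJ π σ l hl hn)
    rcases (hprime π' σ' l' hl').mem_or_mem h1 with h2 | h2
    · exact absurd ((hprime π' σ' l' hl').mem_of_pow_mem n h2) (hnot π' σ' l' hl' π σ l hl)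
    · exact h2
  have heq : ∀ π σ l, RayOf g π σ l → ∀ π' σ' l', RayOf g π' σ' l' →
      sat (chf F π σ) (Ideal.span {che F π σ l} ⊔ I F) =
        sat (chf F π' σ') (Ideal.span {che F π' σ' l'} ⊔ I F) := fun π σ l hl π' σ' l' hl' =>
    le_antisymm (hle π σ l hl π' σ' l' hl') (hle π' σ' l' hl' π σ l hl)
  obtain ⟨π₀, σ₀, l₀, h₀⟩ := ex_ray g
  set Pg := sat (chf F π₀ σ₀) (Ideal.span {che F π₀ σ₀ l₀} ⊔ I F) with hPg
  have hPgs : ∀ π σ l, RayOf g π σ l →
      Pg = sat (chf F π σ) (Ideal.span {che F π σ l} ⊔ I F) := fun π σ l hl =>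
    heq π₀ σ₀ l₀ h₀ π σ l hl
  refine ⟨Pg, hprime _ _ _ h₀, sat_hom (chf_hom _ _) (homId_sup (che_hom _ _ _) hIh),
    hJs _ _ _ h₀, ?_, ?_, ?_⟩
  · intro π σ l hl
    refine ⟨hnot _ _ _ h₀ π σ l hl, fun r => ?_⟩
    rw [hPgs π σ l hl]
    exact mem_sat
  · -- the uniform exponent
    have hfg : Pg.FG := IsNoetherian.noetherian Pg
    obtain ⟨S, hS⟩ := hfg
    have h1 : ∀ π σ l, RayOf g π σ l → ∃ n : ℕ, ∀ r ∈ Pg, chf F π σ ^ n * r ∈ JI F g := by
      intro π σ l hl
      have h2 : ∀ r ∈ S, ∃ n : ℕ, chf F π σ ^ n * r ∈ JI F g := by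
        intro r hr
        have h3 : r ∈ Pg := by
          rw [← hS]
          exact Ideal.subset_span hr
        rw [hPgs π σ l hl] at h3
        obtain ⟨n, hn⟩ := h3
        exact ⟨n, hEJ π σ l hl hn⟩
      choose! ν hν using h2
      refine ⟨∑ r ∈ S, ν r, fun r hr => ?_⟩
      rw [← hS] at hr
      induction hr using Submodule.span_induction with
      | mem r hr =>
        have h4 : ν r ≤ ∑ r ∈ S, ν r := Finset.single_le_sum (fun _ _ => Nat.zero_le _) hr
        obtain ⟨m, hm⟩ := Nat.exists_eq_add_of_le h4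
        rw [hm, pow_add]
        have h5 := Ideal.mul_mem_left (JI F g) (chf F π σ ^ m) (hν r hr)
        convert h5 using 1
        ring
      | zero => rw [mul_zero]; exact Ideal.zero_mem _
      | add x y _ _ hx hy => rw [mul_add]; exact Ideal.add_mem _ hx hy
      | smul a x _ hx =>
        have h5 := Ideal.mul_mem_left (JI F g) a hx
        convert h5 using 1
        rw [smul_eq_mul]
        ring
    -- the ideal of the elements with products in the ideal of the surface
    let T : Ideal (MvPolynomial (Fin (N + 1)) F) :=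
      { carrier := {p | ∀ r ∈ Pg, p * r ∈ JI F g}
        zero_mem' := by
          intro r _
          rw [zero_mul]
          exact Ideal.zero_mem _
        add_mem' := by
          intro p q hp hq r hr
          rw [add_mul]
          exact Ideal.add_mem _ (hp r hr) (hq r hr)
        smul_mem' := by
          intro b p hp r hr
          rw [smul_eq_mul, mul_assoc]
          exact Ideal.mul_mem_left _ _ (hp r hr) }
    have hT : ∀ p, p ∈ T ↔ ∀ r ∈ Pg, p * r ∈ JI F g := fun p => Iff.rfl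
    have hle2 : Ideal.span {f | ∃ π σ l, RayOf g π σ l ∧ f = chf F π σ} ⊔ JI F g ≤
        T.radical := by
      refine sup_le ?_ (le_trans ?_ Ideal.le_radical)
      · rw [Ideal.span_le]
        rintro _ ⟨π, σ, l, hl, rfl⟩
        obtain ⟨n, hn⟩ := h1 π σ l hl
        exact ⟨n, (hT _).2 hn⟩
      · intro p hp
        rw [hT]
        intro r _
        exact Ideal.mul_mem_right _ _ hp
    have h6 : ∀ j, ∃ n : ℕ, (X j : MvPolynomial (Fin (N + 1)) F) ^ n ∈ T := by
      intro j
      obtain ⟨m, hm⟩ := hCVG F g j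
      obtain ⟨k, hk⟩ := hle2 hm
      exact ⟨m * k, by rw [pow_mul]; exact hk⟩
    choose ν hν using h6
    refine ⟨∑ j, ν j, fun r hr j => ?_⟩
    have h4 : ν j ≤ ∑ j, ν j :=
      Finset.single_le_sum (fun _ _ => Nat.zero_le _) (Finset.mem_univ j)
    obtain ⟨m, hm⟩ := Nat.exists_eq_add_of_le h4
    rw [hm, pow_add]
    have h5 := Ideal.mul_mem_left (JI F g) (X j ^ m) ((hT _).1 (hν j) r hr)
    convert h5 using 1
    ring
  · -- coordinates of order zero
    rintro c hc ⟨n, hn⟩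
    obtain ⟨φ, hker, hfu, hsurj, hZ, hche, hunit⟩ := hUCH F π₀ σ₀
    obtain ⟨hXp, hndvd⟩ := LCG_.Xa_prime F σ₀ l₀
    have h1 : Xa F σ₀ l₀ ∣ φ (chf F π₀ σ₀ ^ n * xc F c) := by
      obtain ⟨a, ha, b, hb, hab⟩ := Submodule.mem_sup.1 hn
      have hb0 : φ b = 0 := by
        rw [← RingHom.mem_ker, hker]
        exact hb
      rw [← hab, map_add, hb0, add_zero]
      obtain ⟨s, rfl⟩ := Ideal.mem_span_singleton'.1 ha
      rw [map_mul, hche]
      exact Dvd.intro_left _ (by ring : (φ s * Za F σ₀) * Xa F σ₀ l₀ = _)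
    rw [map_mul, map_pow] at h1
    rcases hXp.dvd_or_dvd h1 with h2 | h2
    · exact hXp.not_isUnit (isUnit_of_dvd_unit h2 (hfu.pow _))
    · obtain ⟨w, hw, hwe⟩ := hunit (act π₀⁻¹ c)
      rw [LCG_.xc_eq F π₀ c, map_mul, map_intCast, hwe, ← mul_assoc] at h2
      rcases hXp.dvd_or_dvd h2 with h3 | h3
      · refine hXp.not_isUnit (isUnit_of_dvd_unit h3 (IsUnit.mul ?_ hw))
        refine IsUnit.of_mul_eq_one ((sgn π₀ (act π₀⁻¹ c) : ℤ) : Au F σ₀) ?_
        rw [← Int.cast_mul, LCG_.sgn_sq, Int.cast_one]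
      · obtain ⟨l', -, hl'⟩ := (hXp.dvd_finsetProd_iff _).1 h3
        by_cases hll : elc σ₀ l' (act π₀⁻¹ c) = 0
        · rw [hll, pow_zero] at hl'
          exact hXp.not_isUnit (isUnit_of_dvd_one hl')
        · have h4 := hndvd l' (hXp.dvd_of_dvd_pow hl')
          subst h4
          rw [(hRAY.1 g π₀ σ₀ l₀ h₀).1 c] at hll
          exact hll hc

end Pool.Agent.XS
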