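import Pool.Agent.XS.XSA3

/-!
# XS, module XSA: the upper bound for `R[y]`
-/

set_option autoImplicit false

noncomputable section

namespace Pool.Agent.XS

open scoped Classical
open MvPolynomial Pool.Agent.FRM Pool.Agent.XV Pool.Agent.XB

namespace XSA_

section lev

variable {F : Type} [Field F] {Ψ : Chts F} {k : Fin 10}

lemma fin_inf (m : ℕ) (V : Submodule F (Rr F)) :
    Module.Finite F (Yg F (I F) (some k) m ⊓ V : Submodule F (Rr F)) := by
  have := fin_qgr (I F) (2 * m)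
  have hle : (Yg F (I F) (some k) m ⊓ V : Submodule F (Rr F)) ≤ qgr (I F) (2 * m) :=
    inf_le_left.trans (Yg_le_qgr m)
  exact Submodule.finiteDimensional_of_le hle

lemma tt_qgr (m c : ℕ) : tt F k m c ∈ qgr (I F) (m + c) := by
  unfold tt
  have h1 : (xc F (cG (some k)) ^ m * xc F cO ^ c).IsHomogeneous (1 * m + 1 * c) :=
    ((isHomogeneous_X F _).pow _).mul ((isHomogeneous_X F _).pow _)
  rw [one_mul, one_mul] at h1
  have h2 := mk_mem (J := I F) h1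
  rw [map_mul, map_pow, map_pow] at h2
  exact h2

lemma uu_qgr (α β : ℕ) : uu F k α β ∈ qgr (I F) (α + β) := by
  unfold uu
  have h1 : (xc F cO ^ α * xc F (cG (some k)) ^ β).IsHomogeneous (1 * α + 1 * β) :=
    ((isHomogeneous_X F _).pow _).mul ((isHomogeneous_X F _).pow _)
  rw [one_mul, one_mul] at h1
  have h2 := mk_mem (J := I F) h1
  rw [map_mul, map_pow, map_pow] at h2
  exact h2

lemma tt_ne (m c : ℕ) : tt F k m c ≠ 0 := by
  have hdom : IsDomain (Rr F) := (Ideal.Quotient.isDomain_iff_prime _).2 (XV.pri F).1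
  have h : ∀ c, mq (xc F c) ≠ 0 := fun c h => LNF_.xc_notMem F c
    (Ideal.Quotient.eq_zero_iff_mem.1 h)
  exact mul_ne_zero (pow_ne_zero _ (h _)) (pow_ne_zero _ (h _))

/-- One step. -/
lemma lev (hRAY : XB.Stmt_Ray) (hCVG : XB.Stmt_Cvg) [IsAlgClosed F]
    {P : Ideal (MvPolynomial (Fin (N + 1)) F)} (hp : P.IsPrime) (hJP : JI F (some k) ≤ P)
    (hch : ∀ π σ l, RayOf (some k) π σ l → chf F π σ ∉ P)
    (hmem : ∀ π σ l, RayOf (some k) π σ l → ∀ r, r ∈ P ↔ Xa F σ l ∣ Ψ.ψ π σ (mq r))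
    {n₁ : ℕ} (hn : ∀ (m k : ℕ) (b : MvPolynomial (Fin (N + 1)) F), b ∉ P → b.IsHomogeneous k →
      ∀ W : Submodule F (MvPolynomial (Fin (N + 1)) F ⧸ P), W ≤ qgr P (m + k) →
      (∀ w ∈ W, ∀ j, ∃ M : ℕ, Ideal.Quotient.mk P (X j) ^ M * w ∈
        Ideal.span {Ideal.Quotient.mk P b}) →
      Module.finrank F W ≤ Module.finrank F (qgr P (m + n₁)))
    {m j α β c d : ℕ} (h1 : c ≤ α + 2 * β) (h2 : j + α + 4 * β = 4 * m + c)
    (h3 : d + c = m + α + β) :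
    Module.finrank F (Yg F (I F) (some k) m ⊓ Vj Ψ k j : Submodule F (Rr F)) ≤
      Module.finrank F (Yg F (I F) (some k) m ⊓ Vj Ψ k (j + 1) : Submodule F (Rr F)) +
      Module.finrank F (qgr P (d + n₁)) := by
  have hdom : IsDomain (Rr F) := (Ideal.Quotient.isDomain_iff_prime _).2 (XV.pri F).1
  have hIP : I F ≤ P := le_sup_right.trans hJP
  obtain ⟨π₀, σ₀, l₀, hl₀⟩ := XPR_.ex_ray (some k)
  have hf1 := fin_inf (F := F) (k := k) m (Vj Ψ k j)
  have hf2 := fin_inf (F := F) (k := k) m (Vj Ψ k (j + 1))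
  -- uniform denominators
  let U : ℕ → Submodule F (Rr F) := fun M =>
    { carrier := {w | ∃ q, mq (chf F π₀ σ₀) ^ M * (w * uu F k α β) = q * tt F k m c}
      zero_mem' := ⟨0, by ring⟩
      add_mem' := by
        rintro a b ⟨q, hq⟩ ⟨q', hq'⟩
        exact ⟨q + q', by rw [add_mul q, ← hq, ← hq']; ring⟩
      smul_mem' := by
        rintro c a ⟨q, hq⟩
        exact ⟨mq (C c) * q, by rw [smul_eq, mul_assoc (mq (C c)) q, ← hq]; ring⟩ }
  have hU : Monotone U := by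
    intro M M' hMM w hw
    obtain ⟨q, hq⟩ := hw
    obtain ⟨e, rfl⟩ := Nat.exists_eq_add_of_le hMM
    refine ⟨mq (chf F π₀ σ₀) ^ e * q, ?_⟩
    rw [mul_assoc _ q, ← hq, pow_add]
    ring
  obtain ⟨M, hM⟩ := unif (Yg F (I F) (some k) m ⊓ Vj Ψ k j : Submodule F (Rr F)) U hU (by
    intro w hw
    obtain ⟨n, r, hr⟩ := clear Ψ π₀ σ₀ (ray_dvd hRAY h1 h2 hw hl₀)
    exact ⟨n, r, hr⟩)
  let p : Rr F →ₐ[F] (MvPolynomial (Fin (N + 1)) F ⧸ P) := Ideal.Quotient.factorₐ F hIP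
  have hpm : ∀ r, p (mq r) = Ideal.Quotient.mk P r := fun r => rfl
  have hqP : ∀ q : Rr F, p q = 0 → ∀ π σ l, RayOf (some k) π σ l →
      Xa F σ l ∣ Ψ.ψ π σ q := by
    intro q hq π σ l hl
    obtain ⟨r, rfl⟩ := Ideal.Quotient.mk_surjective q
    refine (hmem π σ l hl r).1 ?_
    rw [← Ideal.Quotient.eq_zero_iff_mem]
    exact hq
  have hchd : ∀ π σ l, RayOf (some k) π σ l →
      ¬Xa F σ l ∣ Ψ.ψ π σ (mq (chf F π₀ σ₀)) := fun π σ l hl h =>
    hch π₀ σ₀ l₀ hl₀ ((hmem π σ l hl _).2 h)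
  obtain ⟨V, hV, hdim⟩ := lev_abs p (Yg F (I F) (some k) m ⊓ Vj Ψ k j : Submodule F (Rr F))
    (Yg F (I F) (some k) m ⊓ Vj Ψ k (j + 1) : Submodule F (Rr F))
    (mq (chf F π₀ σ₀) ^ M * uu F k α β) (tt F k m c) (tt_ne m c)
    (by
      intro w hw
      obtain ⟨q, hq⟩ := hM hw
      exact ⟨q, by rw [← hq]; ring⟩)
    (by
      intro w hw q hq hpq
      refine ⟨hw.1, fun π σ l hl => ?_⟩
      exact step_up hRAY h2 hl (hchd π σ l hl) (hqP q hpq π σ l hl) hq)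
  refine hdim.trans (Nat.add_le_add_left ?_ _)
  have hbhom : (chf F π₀ σ₀ ^ M).IsHomogeneous (4 * M) := (XPR_.chf_hom π₀ σ₀).pow M
  refine hn d (4 * M) (chf F π₀ σ₀ ^ M) ?_ hbhom V ?_ ?_
  · intro h
    exact hch π₀ σ₀ l₀ hl₀ (hp.mem_of_pow_mem M h)
  · intro v hv
    obtain ⟨w, hw, q, hq, rfl⟩ := hV v hv
    have h4 : q ∈ qgr (I F) (d + 4 * M) := by
      refine hdiv (XV.pri F).2 (XV.pri F).1 (tt_qgr (k := k) m c) (tt_ne m c) ?_
      rw [← hq]
      have h5 := mul_mem_qgr (mul_mem_qgr (mk_mem (J := I F) hbhom) (uu_qgr (k := k) α β))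
        (Yg_le_qgr m hw.1)
      have h6 : 4 * M + (α + β) + 2 * m = d + 4 * M + (m + c) := by omega
      rw [h6, map_pow] at h5
      exact h5
    obtain ⟨r, hr, rfl⟩ := h4
    exact mk_mem hr
  · intro v hv i
    obtain ⟨w, hw, q, hq, rfl⟩ := hV v hv
    have key : ∀ π σ l, RayOf (some k) π σ l →
        chf F π σ ∈ (col (p q) (Ideal.Quotient.mk P (chf F π₀ σ₀ ^ M))).radical := by
      intro π σ l hl
      obtain ⟨n, r, hr⟩ := clear Ψ π σ (ray_dvd hRAY h1 h2 hw hl)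
      refine ⟨n, ?_⟩
      have h7 : mq (chf F π σ) ^ n * q = mq (chf F π₀ σ₀) ^ M * r := by
        apply mul_right_cancel₀ (tt_ne (F := F) (k := k) m c)
        linear_combination (-mq (chf F π σ) ^ n) * hq + mq (chf F π₀ σ₀) ^ M * hr
      rw [mem_col]
      have h8 := congrArg p h7
      rw [map_mul, map_mul, map_pow, map_pow, hpm, hpm] at h8
      rw [map_pow (Ideal.Quotient.mk P) (chf F π σ) n, map_pow (Ideal.Quotient.mk P) _ M, h8]
      exact Ideal.mul_mem_right _ _ (Ideal.mem_span_singleton_self _)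
    obtain ⟨n, hn⟩ := hCVG F (some k) i
    have hle : Ideal.span {f | ∃ π σ l, RayOf (some k) π σ l ∧ f = chf F π σ} ⊔ JI F (some k) ≤
        (col (p q) (Ideal.Quotient.mk P (chf F π₀ σ₀ ^ M))).radical := by
      refine sup_le ?_ (hJP.trans ((le_col _ _).trans Ideal.le_radical))
      rw [Ideal.span_le]
      rintro _ ⟨π, σ, l, hl, rfl⟩
      exact key π σ l hl
    obtain ⟨n', hn'⟩ := hle hn
    rw [← pow_mul, mem_col, map_pow] at hn'
    exact ⟨_, hn'⟩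

end lev

end XSA_

open XSA_ in
theorem XSA_proof (hUCH : XB.Stmt_Uch) (hRAY : XB.Stmt_Ray) (_hLCG : XB.Stmt_Lcg)
    (hCVG : XB.Stmt_Cvg) (hLNF : XB.Stmt_Lnf) (hDMG : XB.Stmt_Dmg) (hRAZ : Stmt_Raz)
    (hXCV : Stmt_Xcv) (hXPR : Stmt_Xpr) (hXGB : Stmt_Xgb) (hFNH : XB.Stmt_Fnh) : Stmt_Xsa := by
  intro F _ _ k
  obtain ⟨Ψ⟩ := chts hUCH F
  obtain ⟨P, hp, hPh, hJP, hPr, -, hP0⟩ := hXPR F (some k)
  obtain ⟨n₀, hn₀⟩ := top_bound hRAY hFNH hRAZ hXCV hXGB F Ψ k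
  have hmem : ∀ π σ l, RayOf (some k) π σ l → ∀ r, r ∈ P ↔ Xa F σ l ∣ Ψ.ψ π σ (mq r) :=
    fun π σ l hl r => mem_P Ψ π σ l (hPr π σ l hl).2 r
  obtain ⟨π₀, σ₀, l₀, hl₀⟩ := XPR_.ex_ray (some k)
  obtain ⟨h, hh, hX⟩ := hLNF F (some k)
  obtain ⟨n₁, hn₁⟩ := hXGB F 1 P hp hPh h hh
    (fun j => by
      obtain ⟨n, hn⟩ := hX j
      exact ⟨n, sup_le_sup_left hJP _ hn⟩)
    (fun q hq => by
      by_contra hq0
      obtain ⟨n, hn⟩ := ((hPr π₀ σ₀ l₀ hl₀).2 _).1 hq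
      exact hDMG F (some k) π₀ σ₀ l₀ hl₀ h hh hX q hq0 n hn)
  -- monotonicity
  have hc0 : ∃ c, ordG (some k) c = 0 := by
    refine ⟨act (Equiv.swap (Equiv.swap 0 (eS k) 1) (eT k) * Equiv.swap 0 (eS k)) (tp 0 0), ?_⟩
    show (act _ (tp 0 0)).e k = 0
    have h1 := XPR_.ex_pe k
    generalize Equiv.swap (Equiv.swap 0 (eS k) 1) (eT k) * Equiv.swap 0 (eS k) = π at h1
    rw [← h1, act_e]
    rfl
  obtain ⟨c0, hc0⟩ := hc0
  have hmP : ∀ {m n : ℕ}, m ≤ n →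
      Module.finrank F (qgr P m) ≤ Module.finrank F (qgr P n) := fun hmn =>
    mono hp (isHomogeneous_X F _ : (xc F c0).IsHomogeneous 1) (hP0 c0 hc0) hmn
  have hmI : ∀ {m n : ℕ}, m ≤ n →
      Module.finrank F (qgr (I F) m) ≤ Module.finrank F (qgr (I F) n) := fun hmn =>
    mono (XV.pri F).1 (isHomogeneous_X F _ : (xc F c0).IsHomogeneous 1) (LNF_.xc_notMem F c0) hmn
  refine ⟨max (n₁ + 2) n₀, fun m => ?_⟩
  set n := max (n₁ + 2) n₀ with hndef
  let w : ℕ → ℕ := fun j =>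
    Module.finrank F (Yg F (I F) (some k) m ⊓ Vj Ψ k j : Submodule F (Rr F))
  let a : ℕ → ℕ := fun d => Module.finrank F (qgr (JI F (some k)) d)
  have hPa : ∀ {d e : ℕ}, d ≤ e → Module.finrank F (qgr P d) ≤ a e := fun hde =>
    (hmP hde).trans (mono_ideal hJP _)
  have hstep : ∀ s, s < m → w (2 * m + 2 * s) ≤ w (2 * m + 2 * (s + 1)) + 2 * a (s + n) := by
    intro s hs
    have e1 : w (2 * m + 2 * s) ≤ w (2 * m + 2 * s + 1) + Module.finrank F (qgr P (s + n₁)) :=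
      lev hRAY hCVG hp hJP (fun π σ l hl => (hPr π σ l hl).1) hmem hn₁ (m := m)
        (j := 2 * m + 2 * s) (α := 0) (β := m - s) (c := 2 * (m - s)) (d := s)
        (by omega) (by omega) (by omega)
    have e2 : w (2 * m + 2 * s + 1) ≤ w (2 * m + 2 * s + 1 + 1) +
        Module.finrank F (qgr P (s + 2 + n₁)) :=
      lev hRAY hCVG hp hJP (fun π σ l hl => (hPr π σ l hl).1) hmem hn₁ (m := m)
        (j := 2 * m + 2 * s + 1) (α := 1) (β := m - s - 1) (c := 2 * (m - s) - 2) (d := s + 2)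
        (by omega) (by omega) (by omega)
    have e3 : Module.finrank F (qgr P (s + n₁)) ≤ a (s + n) := hPa (by omega)
    have e4 : Module.finrank F (qgr P (s + 2 + n₁)) ≤ a (s + n) := hPa (by omega)
    have e5 : 2 * m + 2 * s + 1 + 1 = 2 * m + 2 * (s + 1) := by ring
    rw [e5] at e2
    omega
  have hsum : ∀ s, s ≤ m → w (2 * m) ≤ w (2 * m + 2 * s) +
      2 * ∑ i ∈ Finset.range s, a (i + n) := by
    intro s
    induction s with
    | zero => intro _; simp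
    | succ s ih =>
      intro hs
      have e1 := ih (by omega)
      have e2 := hstep s (by omega)
      rw [Finset.sum_range_succ]
      omega
  have e1 := hsum m le_rfl
  have e2 : w (2 * m) = Module.finrank F (Yg F (I F) (some k) m) := by
    show Module.finrank F (Yg F (I F) (some k) m ⊓ Vj Ψ k (2 * m) : Submodule F (Rr F)) = _
    rw [inf_eq_left.2 (Yg_le_Vj hRAY m)]
  have e3 : w (2 * m + 2 * m) ≤ Module.finrank F (qgr (I F) (m + n)) := by
    have e4 : 2 * m + 2 * m = 4 * m := by ring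
    rw [e4]
    exact (hn₀ m).trans (hmI (by omega))
  rw [← e2]
  show w (2 * m) ≤ _ + 2 * ∑ i ∈ Finset.range (m + 1), a (i + n)
  rw [Finset.sum_range_succ]
  omega

end Pool.Agent.XS
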