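import Pool.Agent.XS.Stmts

/-!
# XSC: lower bound for the sections with poles along a line
-/

set_option autoImplicit false

noncomputable section

namespace Pool.Agent.XS

open scoped Classical
open MvPolynomial Pool.Agent.FRM Pool.Agent.XV Pool.Agent.XB

namespace XSC_

/-! ## The index set -/

/-- the pairs `(s + 2 m, t)` -/
def Lam (m : ℕ) : Finset (Sigma fun _ : ℕ => ℕ) :=
  (Finset.range (6 * m + 1)).sigma fun s =>
    if s ≤ 1 then ∅ else Finset.Ico (s - 4 * m) (min (s + 1) (8 * m + 1 - s))

theorem sum_a (n : ℕ) : 2 * ∑ j ∈ Finset.range n, (j + 1) = n * (n + 1) := by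
  induction n with
  | zero => simp
  | succ n ih =>
    rw [Finset.sum_range_succ, mul_add, ih]
    ring

theorem sum_b (n : ℕ) : ∑ i ∈ Finset.range n, (2 * n - 1 - 2 * i) = n * n := by
  rw [← Finset.sum_range_reflect]
  have h : ∀ n : ℕ, ∑ i ∈ Finset.range n, (2 * i + 1) = n * n := by
    intro n
    induction n with
    | zero => simp
    | succ n ih =>
      rw [Finset.sum_range_succ, ih]
      ring
  rw [← h n]
  apply Finset.sum_congr rfl
  intro i hi
  have := Finset.mem_range.1 hi
  omega

theorem card_Lam (m : ℕ) : 12 * m ^ 2 ≤ (Lam m).card := by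
  rcases Nat.eq_zero_or_pos m with rfl | hm
  · simp
  unfold Lam
  rw [Finset.card_sigma, show 6 * m + 1 = (4 * m + 1) + 2 * m by ring, Finset.sum_range_add]
  have h2 : ∑ i ∈ Finset.range (2 * m), (if 4 * m + 1 + i ≤ 1 then ∅ else
      Finset.Ico (4 * m + 1 + i - 4 * m) (min (4 * m + 1 + i + 1)
        (8 * m + 1 - (4 * m + 1 + i)))).card = (2 * m) * (2 * m) := by
    rw [← sum_b (2 * m)]
    apply Finset.sum_congr rfl
    intro i hi
    have := Finset.mem_range.1 hi
    rw [if_neg (by omega), Nat.card_Ico]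
    omega
  have h1 : ∑ s ∈ Finset.range (4 * m + 1), (if s ≤ 1 then ∅ else
      Finset.Ico (s - 4 * m) (min (s + 1) (8 * m + 1 - s))).card + 3 =
      ∑ s ∈ Finset.range (4 * m + 1), (s + 1) := by
    obtain ⟨n, hn⟩ : ∃ n, 4 * m + 1 = n + 2 := ⟨4 * m - 1, by omega⟩
    rw [hn, Finset.sum_range_succ', Finset.sum_range_succ', Finset.sum_range_succ',
      Finset.sum_range_succ']
    have h3 : ∑ k ∈ Finset.range n, (if k + 1 + 1 ≤ 1 then ∅ else
        Finset.Ico (k + 1 + 1 - 4 * m) (min (k + 1 + 1 + 1) (8 * m + 1 - (k + 1 + 1)))).card =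
        ∑ k ∈ Finset.range n, (k + 1 + 1 + 1) := by
      apply Finset.sum_congr rfl
      intro i hi
      have := Finset.mem_range.1 hi
      rw [if_neg (by omega), Nat.card_Ico]
      omega
    rw [h3]
    simp
  have h3 := sum_a (4 * m + 1)
  nlinarith

/-! ## Finiteness -/

theorem qgr_fin (F : Type) [Field F] (J : Ideal (MvPolynomial (Fin (N + 1)) F)) (m : ℕ) :
    FiniteDimensional F (qgr J m) := by
  unfold qgr
  have h : homogeneousSubmodule (Fin (N + 1)) F m ≤ restrictTotalDegree (Fin (N + 1)) F m := by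
    intro p hp
    exact (mem_restrictTotalDegree _ _ _).2 (IsHomogeneous.totalDegree_le hp)
  have : FiniteDimensional F (homogeneousSubmodule (Fin (N + 1)) F m) :=
    Submodule.finiteDimensional_of_le h
  infer_instance

theorem ym_hom (F : Type) [CommRing F] (g : Option (Fin 10)) (m i : ℕ) (hi : i ≤ m)
    (r : MvPolynomial (Fin (N + 1)) F) (hr : r.IsHomogeneous (m - i)) :
    (ym F g m i r).IsHomogeneous (2 * m) := by
  have h1 : ∀ c : Pt, (xc F c).IsHomogeneous 1 := fun c => isHomogeneous_X _ _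
  have h2 := (((h1 cO).pow (2 * i)).mul ((h1 (cG g)).pow (m - i))).mul hr
  have h3 : 1 * (2 * i) + 1 * (m - i) + (m - i) = 2 * m := by omega
  rw [h3] at h2
  exact h2

theorem Yg_le (F : Type) [Field F] (J : Ideal (MvPolynomial (Fin (N + 1)) F))
    (g : Option (Fin 10)) (m : ℕ) : Yg F J g m ≤ qgr J (2 * m) := by
  unfold Yg
  rw [Submodule.span_le]
  rintro _ ⟨i, hi, r, hr, rfl⟩
  exact ⟨_, ym_hom F g m i hi r hr, rfl⟩

theorem exists_pe : ∀ k : Fin 10, ∃ π : Equiv.Perm (Fin 5), pe π 0 = k := by decide +kernel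

end XSC_

open XSC_ in
theorem XSC_proof (hXIN : Stmt_Xin) (hXLA : Stmt_Xla) : Stmt_Xsc := by
  intro F _ k m
  obtain ⟨π, hπ⟩ := exists_pe k
  have hA : ∀ p : Lam m, ∃ A : Multiset Pt,
      Multiset.card A = m - (2 * m + 1 - p.1.1) / 2 ∧ (∀ c ∈ A, c.w = 0) ∧
      (A.map fun c => c.e (pe π 0)).sum = p.1.1 + 2 * ((2 * m + 1 - p.1.1) / 2) - 2 * m ∧
      (A.map fun c => c.e (pe π 7)).sum = p.1.2 := by
    rintro ⟨⟨s, t⟩, hp⟩
    unfold Lam at hp
    rw [Finset.mem_sigma] at hp
    obtain ⟨hs, ht⟩ := hp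
    change s ∈ _ at hs
    change t ∈ (if s ≤ 1 then ∅ else Finset.Ico (s - 4 * m) (min (s + 1) (8 * m + 1 - s))) at ht
    have hs1 : ¬ s ≤ 1 := by
      intro h
      rw [if_pos h] at ht
      exact Finset.notMem_empty _ ht
    rw [if_neg hs1, Finset.mem_Ico, lt_min_iff] at ht
    rw [Finset.mem_range] at hs
    obtain ⟨ht1, ht2, ht3⟩ := ht
    change ∃ A : Multiset Pt, Multiset.card A = m - (2 * m + 1 - s) / 2 ∧ (∀ c ∈ A, c.w = 0) ∧
      (A.map fun c => c.e (pe π 0)).sum = s + 2 * ((2 * m + 1 - s) / 2) - 2 * m ∧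
      (A.map fun c => c.e (pe π 7)).sum = t
    exact hXLA π _ _ _ (by omega) (by omega) (by omega) (by omega) (by omega)
  choose A hA1 hA2 hA3 hA4 using hA
  let i : Lam m → ℕ := fun p => (2 * m + 1 - p.1.1) / 2
  let B : Lam m → Multiset Pt := fun p =>
    Multiset.replicate (2 * i p) cO + Multiset.replicate (m - i p) (cG (some k)) + A p
  have hi : ∀ p : Lam m, i p ≤ m ∧ 2 ≤ p.1.1 := by
    rintro ⟨⟨s, t⟩, hp⟩
    unfold Lam at hp
    rw [Finset.mem_sigma] at hp
    obtain ⟨hs, ht⟩ := hp
    change t ∈ (if s ≤ 1 then ∅ else Finset.Ico (s - 4 * m) (min (s + 1) (8 * m + 1 - s))) at ht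
    have hs1 : ¬ s ≤ 1 := by
      intro h
      rw [if_pos h] at ht
      exact Finset.notMem_empty _ ht
    change (2 * m + 1 - s) / 2 ≤ m ∧ 2 ≤ s
    omega
  have hB2 : ∀ p, ∀ c ∈ B p, c.w = 0 := by
    intro p c hc
    rw [Multiset.mem_add, Multiset.mem_add] at hc
    rcases hc with (hc | hc) | hc
    · rw [Multiset.eq_of_mem_replicate hc]
      rfl
    · rw [Multiset.eq_of_mem_replicate hc]
      rfl
    · exact hA2 p c hc
  have hcG : (cG (some k)).e (pe π 0) = 4 := by
    rw [hπ]
    change cGe k k = 4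
    unfold cGe
    rw [if_pos rfl]
  have hinj : Function.Injective (fun p => (((B p).map fun c => c.e (pe π 0)).sum,
      ((B p).map fun c => c.e (pe π 7)).sum)) := by
    intro p q hpq
    simp only [Prod.mk.injEq] at hpq
    obtain ⟨h1, h2⟩ := hpq
    have h3 : ∀ p, ((B p).map fun c => c.e (pe π 0)).sum = 2 * m + p.1.1 := by
      intro p
      change ((Multiset.replicate (2 * i p) cO + Multiset.replicate (m - i p) (cG (some k)) +
        A p).map fun c => c.e (pe π 0)).sum = _
      rw [Multiset.map_add, Multiset.map_add, Multiset.sum_add, Multiset.sum_add,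
        Multiset.map_replicate, Multiset.map_replicate, Multiset.sum_replicate,
        Multiset.sum_replicate, hA3, hcG]
      change 2 * i p * 1 + (m - i p) * 4 + (p.1.1 + 2 * ((2 * m + 1 - p.1.1) / 2) - 2 * m) = _
      obtain ⟨h4, h5⟩ := hi p
      change (2 * m + 1 - p.1.1) / 2 ≤ m at h4
      change 2 * ((2 * m + 1 - p.1.1) / 2) * 1 + (m - (2 * m + 1 - p.1.1) / 2) * 4 +
        (p.1.1 + 2 * ((2 * m + 1 - p.1.1) / 2) - 2 * m) = _
      omega
    have h4 : p.1.1 = q.1.1 := by
      have := h3 p
      have := h3 q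
      omega
    have h5 : i p = i q := by
      change (2 * m + 1 - p.1.1) / 2 = (2 * m + 1 - q.1.1) / 2
      rw [h4]
    have h6 : ∀ p, ((B p).map fun c => c.e (pe π 7)).sum =
        (2 * i p) • cO.e (pe π 7) + (m - i p) • (cG (some k)).e (pe π 7) + p.1.2 := by
      intro p
      change ((Multiset.replicate (2 * i p) cO + Multiset.replicate (m - i p) (cG (some k)) +
        A p).map fun c => c.e (pe π 7)).sum = _
      rw [Multiset.map_add, Multiset.map_add, Multiset.sum_add, Multiset.sum_add,
        Multiset.map_replicate, Multiset.map_replicate, Multiset.sum_replicate,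
        Multiset.sum_replicate, hA4]
    rw [h6, h6, h5] at h2
    have h7 : p.1.2 = q.1.2 := Nat.add_left_cancel h2
    apply Subtype.ext
    exact Sigma.ext h4 (heq_of_eq h7)
  have hli := hXIN F π (Lam m) B hB2 hinj
  have hmem : ∀ p, Ideal.Quotient.mk (JI F none) ((B p).map (xc F)).prod ∈
      Yg F (JI F none) (some k) m := by
    intro p
    apply Submodule.subset_span
    refine ⟨i p, (hi p).1, ((A p).map (xc F)).prod, ?_, ?_⟩
    · have h1 : ∀ s : Multiset Pt, ((s.map (xc F)).prod).IsHomogeneous (Multiset.card s) := by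
        intro s
        induction s using Multiset.induction_on with
        | empty => simpa using isHomogeneous_one _ _
        | cons a s ih =>
          rw [Multiset.map_cons, Multiset.prod_cons, Multiset.card_cons,
            add_comm (Multiset.card s) 1]
          exact (isHomogeneous_X _ _).mul ih
      have h2 := h1 (A p)
      rw [hA1] at h2
      exact h2
    · change Ideal.Quotient.mk (JI F none) (((Multiset.replicate (2 * i p) cO +
        Multiset.replicate (m - i p) (cG (some k)) + A p).map (xc F)).prod) = _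
      rw [Multiset.map_add, Multiset.map_add, Multiset.prod_add, Multiset.prod_add,
        Multiset.map_replicate, Multiset.map_replicate, Multiset.prod_replicate,
        Multiset.prod_replicate]
      rfl
  haveI : FiniteDimensional F (qgr (JI F none) (2 * m)) := qgr_fin F _ _
  haveI : FiniteDimensional F (Yg F (JI F none) (some k) m) :=
    Submodule.finiteDimensional_of_le (Yg_le F (JI F none) (some k) m)
  have h1 := finrank_span_eq_card hli
  have h2 : Submodule.span F (Set.range fun p =>
      Ideal.Quotient.mk (JI F none) ((B p).map (xc F)).prod) ≤ Yg F (JI F none) (some k) m := by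
    rw [Submodule.span_le]
    rintro _ ⟨p, rfl⟩
    exact hmem p
  have h3 := Submodule.finrank_mono h2
  rw [h1, Fintype.card_coe] at h3
  exact le_trans (card_Lam m) h3

end Pool.Agent.XS
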