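import Pool.Agent.XS.StmtsC
import Pool.Agent.XB.LNF
import Pool.Agent.XB.QGR
import Pool.Agent.GML.All

/-!
# XS / XSM: curves on the surfaces in `X`
-/

set_option autoImplicit false

noncomputable section

namespace Pool.Agent.XS

open scoped Classical
open MvPolynomial Pool.Agent.FRM Pool.Agent.XV Pool.Agent.XB Pool.Agent.GML

namespace XSM_

open XB.LNF_

/-- linear forms without common zero -/
lemma forms (hLZA : FRM.Stmt_Lza) (hLZE : FRM.Stmt_Lze) (F : Type) [Field F] [IsAlgClosed F]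
    (J : Ideal (MvPolynomial (Fin (N + 1)) F)) (hJ : Homog J) (d : ℕ)
    (hd : ringKrullDim (MvPolynomial (Fin (N + 1)) F ⧸ J) ≤ (d : ℕ)) :
    ∃ h : Fin d → MvPolynomial (Fin (N + 1)) F, (∀ i, (h i).IsHomogeneous 1) ∧
      ∀ j, ∃ n : ℕ, (X j : MvPolynomial (Fin (N + 1)) F) ^ n ∈
        J ⊔ Ideal.span (Set.range h) := by
  have : Infinite F := IsAlgClosed.instInfinite
  have key : ∀ s : ℕ, s ≤ d → ∃ c : Fin s → (Fin (N + 1) → F),
      ringKrullDim (MvPolynomial (Fin (N + 1)) F ⧸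
        (J ⊔ Ideal.span (Set.range fun i => (∑ l, C (c i l) * X l :
          MvPolynomial (Fin (N + 1)) F)))) ≤ ((d - s : ℕ) : WithBot ℕ∞) := by
    intro s
    induction s with
    | zero =>
      intro _
      refine ⟨fun i => i.elim0, ?_⟩
      have h1 : (Set.range fun i : Fin 0 =>
          (∑ l, C ((i.elim0 : Fin (N + 1) → F) l) * X l : MvPolynomial (Fin (N + 1)) F)) = ∅ :=
        Set.range_eq_empty _
      rw [h1, Ideal.span_empty, sup_bot_eq]
      exact hd
    | succ s ih =>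
      intro hs
      obtain ⟨c, hc1⟩ := ih (by omega)
      have hds : d - s = (d - (s + 1)) + 1 := by omega
      rw [hds] at hc1
      obtain ⟨T, hT, hT1, hT2⟩ := hLZA F N (d - (s + 1)) _
        (homog_sup_span J hJ _ (by rintro _ ⟨i, rfl⟩; exact lin_hom (c i))) hc1
      obtain ⟨c', hc'⟩ := exists_avoid T hT hT1
      refine ⟨Fin.snoc c c', ?_⟩
      have h1 := hT2 c' hc'
      have h2 : (Set.range fun i : Fin (s + 1) =>
          (∑ l, C ((Fin.snoc c c' : Fin (s + 1) → (Fin (N + 1) → F)) i l) * X l :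
            MvPolynomial (Fin (N + 1)) F)) =
          (Set.range fun i => (∑ l, C (c i l) * X l : MvPolynomial (Fin (N + 1)) F)) ∪
            {∑ l, C (c' l) * X l} := by
        ext G
        constructor
        · rintro ⟨i, rfl⟩
          refine Fin.lastCases ?_ (fun i => ?_) i
          · right
            simp
          · left
            exact ⟨i, by simp⟩
        · rintro (⟨i, rfl⟩ | h)
          · exact ⟨i.castSucc, by simp⟩
          · rw [Set.mem_singleton_iff] at h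
            exact ⟨Fin.last s, by simp [h]⟩
      rw [h2, Ideal.span_union, ← sup_assoc]
      exact h1
  obtain ⟨c, hc⟩ := key d le_rfl
  rw [Nat.sub_self, Nat.cast_zero] at hc
  refine ⟨fun i => ∑ l, C (c i l) * X l, fun i => lin_hom (c i), ?_⟩
  exact hLZE F N _ (homog_sup_span J hJ _ (by rintro _ ⟨i, rfl⟩; exact lin_hom (c i))) hc

/-- linear growth of quotients of dimension at most two -/
lemma growth (hFNH : XB.Stmt_Fnh) (F : Type) [Field F]
    (J : Ideal (MvPolynomial (Fin (N + 1)) F)) (hJ : Homog J)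
    (h : Fin 2 → MvPolynomial (Fin (N + 1)) F) (hh : ∀ i, (h i).IsHomogeneous 1)
    (hX : ∀ j, ∃ m : ℕ, (X j : MvPolynomial (Fin (N + 1)) F) ^ m ∈
      Ideal.span (Set.range h) ⊔ J) :
    ∃ C : ℕ, ∀ m : ℕ, Module.finrank F (qgr J m) ≤ C * (m + 1) := by
  obtain ⟨T, hT⟩ := hFNH F (N + 1) 2 J hJ h hh hX
  obtain ⟨hgr⟩ := QGR_proof F J hJ
  let D : Type := MvPolynomial (Fin (N + 1)) F ⧸ J
  let φ : MvPolynomial (Fin 2) F →ₐ[F] D := (Ideal.Quotient.mkₐ F J).comp (aeval h)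
  let _ : Algebra (MvPolynomial (Fin 2) F) D := φ.toRingHom.toAlgebra
  have _ : IsScalarTower F (MvPolynomial (Fin 2) F) D :=
    IsScalarTower.of_algebraMap_eq fun x => (φ.commutes x).symm
  have hX1 : ∀ i, algebraMap (MvPolynomial (Fin 2) F) D (X i) ∈ qgr J 1 := by
    intro i
    refine ⟨h i, hh i, ?_⟩
    change Ideal.Quotient.mk J (h i) = φ (X i)
    change _ = Ideal.Quotient.mk J (aeval h (X i))
    rw [aeval_X]
  let M : GMod F 2 := DIL.ofAlg (qgr J) hX1
  have hfin : Module.Finite (MvPolynomial (Fin 2) F) D := by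
    refine ⟨⟨T.image (Ideal.Quotient.mk J), ?_⟩⟩
    rw [eq_top_iff]
    rintro x -
    obtain ⟨G, rfl⟩ := Ideal.Quotient.mk_surjective x
    obtain ⟨q, hq⟩ := hT G
    rw [← Ideal.Quotient.eq_zero_iff_mem, map_sub, sub_eq_zero] at hq
    rw [hq, map_sum]
    refine Submodule.sum_mem _ fun m hm => ?_
    rw [map_mul]
    have h1 : Ideal.Quotient.mk J (aeval h (q m)) * Ideal.Quotient.mk J m =
        (q m) • (Ideal.Quotient.mk J m : D) := by
      rw [Algebra.smul_def]
      rfl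
    rw [h1]
    exact Submodule.smul_mem _ _ (Submodule.subset_span
      (Finset.mem_coe.2 (Finset.mem_image_of_mem _ hm)))
  obtain ⟨-, -, C, hC⟩ := GML.a_gro F 0 M hfin
  refine ⟨C + Module.finrank (MvPolynomial (Fin 2) F) D, fun m => ?_⟩
  have h1 := hC m
  have h2 : M.gr (m : ℤ) = qgr J m := DIL.ext_natCast (𝒟 := qgr J) m
  rw [h2] at h1
  have h3 : (m + 0 + 1).choose (0 + 1) = m + 1 := by simp
  rw [h3, pow_zero, mul_one] at h1
  have h4 := (abs_le.1 h1).2
  have h5 : (Module.finrank F (qgr J m) : ℤ) ≤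
      C + Module.finrank (MvPolynomial (Fin 2) F) D * ((m + 1 : ℕ) : ℤ) := by linarith
  have h6 : (Module.finrank F (qgr J m)) ≤
      C + Module.finrank (MvPolynomial (Fin 2) F) D * (m + 1) := by exact_mod_cast h5
  refine h6.trans ?_
  nlinarith [Nat.zero_le (C * m)]

end XSM_

open XSM_ XB.LNF_ in
theorem XSM_proof (hXPR : Stmt_Xpr) (hDIM : XV.Stmt_Dim) (hPRI : XV.Stmt_Pri)
    (hLZA : FRM.Stmt_Lza) (hLZE : FRM.Stmt_Lze) (hFNH : XB.Stmt_Fnh) : Stmt_Xsm := by
  intro F _ _ g c hc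
  obtain ⟨Pg, hP, hPh, hJP, -, ⟨n, hn⟩, hx⟩ := hXPR F g
  obtain ⟨c', hc'⟩ := ex_pt g
  have hd1 : ringKrullDim (MvPolynomial (Fin (N + 1)) F ⧸ Pg) ≤ (3 : ℕ) := by
    refine dim_gen (MvPolynomial (Fin (N + 1)) F) (I F) Pg (hPRI F).1
      (le_sup_right.trans hJP) (xc F c')
      (hJP (Ideal.mem_sup_left (Ideal.subset_span ⟨c', hc', rfl⟩))) (xc_notMem F c') 3 ?_
    rw [hDIM F]
    norm_num
  have hd2 : ringKrullDim (MvPolynomial (Fin (N + 1)) F ⧸ (Pg ⊔ Ideal.span {xc F c})) ≤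
      (2 : ℕ) :=
    dim_gen (MvPolynomial (Fin (N + 1)) F) Pg _ hP le_sup_left (xc F c)
      (Ideal.mem_sup_right (Ideal.subset_span (Set.mem_singleton _))) (hx c hc) 2 hd1
  have hx1 : ∀ f ∈ ({xc F c} : Set (MvPolynomial (Fin (N + 1)) F)), f.IsHomogeneous 1 := by
    rintro _ rfl
    exact isHomogeneous_X F _
  obtain ⟨h, hh, hX⟩ := forms hLZA hLZE F (Pg ⊔ Ideal.span {xc F c})
    (homog_sup_span Pg hPh _ hx1) 2 hd2
  refine growth hFNH F _ (homog_sup_span (JI F g) (homog_JI hPRI F g) _ hx1) h hh ?_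
  intro j
  obtain ⟨M, hM⟩ := hX j
  refine ⟨n + M, ?_⟩
  rw [pow_add]
  rw [sup_assoc] at hM
  obtain ⟨p, hp, r, hr, hpr⟩ := Submodule.mem_sup.1 hM
  rw [← hpr, mul_add]
  refine add_mem ?_ ?_
  · exact Ideal.mem_sup_right (Ideal.mem_sup_left (hn p hp j))
  · have h1 : r ∈ Ideal.span (Set.range h) ⊔ (JI F g ⊔ Ideal.span {xc F c}) := by
      refine (?_ : Ideal.span {xc F c} ⊔ Ideal.span (Set.range h) ≤ _) hr
      exact sup_le (le_sup_right.trans le_sup_right) le_sup_left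
    exact Ideal.mul_mem_left _ _ h1

end Pool.Agent.XS
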