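import Pool.Agent.XS.Stmts

/-!
# XSU: upper bound for the Hilbert function of `G`
-/

set_option autoImplicit false

noncomputable section

namespace Pool.Agent.XS

open scoped Classical
open MvPolynomial Pool.Agent.FRM Pool.Agent.XV Pool.Agent.XB

namespace XSU_

/-! ### combinatorics -/

theorem mdeg0 (e : Fin 10 → ℕ) : mdeg e 0 = e 0 + e 1 + e 2 + e 3 := by
  simp [mdeg, Fin.sum_univ_succ, eS, eT]; ring

theorem mdeg1 (e : Fin 10 → ℕ) : mdeg e 1 = e 0 + e 4 + e 5 + e 6 := by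
  simp [mdeg, Fin.sum_univ_succ, eS, eT]; ring

theorem mdeg2 (e : Fin 10 → ℕ) : mdeg e 2 = e 1 + e 4 + e 7 + e 8 := by
  simp [mdeg, Fin.sum_univ_succ, eS, eT]; ring

theorem mdeg3 (e : Fin 10 → ℕ) : mdeg e 3 = e 2 + e 5 + e 7 + e 9 := by
  simp [mdeg, Fin.sum_univ_succ, eS, eT]; ring

theorem mdeg4 (e : Fin 10 → ℕ) : mdeg e 4 = e 3 + e 6 + e 8 + e 9 := by
  simp [mdeg, Fin.sum_univ_succ, eS, eT]; ring

/-- all degrees are `4 m` -/
def Dg (m : ℕ) (e : Fin 10 → ℕ) : Prop := ∀ i, mdeg e i = 4 * m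

theorem Dg.eqs {m : ℕ} {e : Fin 10 → ℕ} (h : Dg m e) :
    e 0 + e 1 + e 2 + e 3 = 4 * m ∧ e 0 + e 4 + e 5 + e 6 = 4 * m ∧
    e 1 + e 4 + e 7 + e 8 = 4 * m ∧ e 2 + e 5 + e 7 + e 9 = 4 * m ∧
    e 3 + e 6 + e 8 + e 9 = 4 * m :=
  ⟨mdeg0 e ▸ h 0, mdeg1 e ▸ h 1, mdeg2 e ▸ h 2, mdeg3 e ▸ h 3, mdeg4 e ▸ h 4⟩

theorem mdeg_add (e f : Fin 10 → ℕ) (i : Fin 5) : mdeg (e + f) i = mdeg e i + mdeg f i := by
  unfold mdeg
  rw [← Finset.sum_add_distrib]
  refine Finset.sum_congr rfl fun k _ => ?_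
  split_ifs <;> simp

/-- crossing pairs of diagonals -/
def kk : Fin 5 → Fin 10 := ![1, 1, 2, 2, 5]
def ll : Fin 5 → Fin 10 := ![5, 6, 6, 8, 8]
def pp : Fin 5 → Fin 10 := ![0, 0, 0, 1, 4]
def qq : Fin 5 → Fin 10 := ![7, 8, 9, 9, 9]
def rr : Fin 5 → Fin 10 := ![2, 3, 3, 3, 6]
def ss : Fin 5 → Fin 10 := ![4, 4, 5, 7, 7]

/-- unit vectors -/
def sg (k : Fin 10) : Fin 10 → ℕ := fun l => if l = k then 1 else 0

/-- number of diagonals -/
def dn (e : Fin 10 → ℕ) : ℕ := e 1 + e 2 + e 5 + e 6 + e 8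

theorem dn_add (e f : Fin 10 → ℕ) : dn (e + f) = dn e + dn f := by
  simp only [dn, Pi.add_apply]; ring

theorem tab : ∀ j : Fin 5, kk j ≠ ll j ∧ dn (sg (pp j) + sg (qq j)) < 2 ∧
    dn (sg (rr j) + sg (ss j)) < 2 ∧ dn (sg (kk j) + sg (ll j)) = 2 ∧
    (∀ i, mdeg (sg (pp j) + sg (qq j)) i = mdeg (sg (kk j) + sg (ll j)) i) ∧
    ∀ i, mdeg (sg (rr j) + sg (ss j)) i = mdeg (sg (kk j) + sg (ll j)) i := by
  decide +kernel

theorem plu (F : Type) [CommRing F] : ∀ j : Fin 5,
    br F (kk j) * br F (ll j) = br F (pp j) * br F (qq j) + br F (rr j) * br F (ss j) := by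
  intro j
  fin_cases j <;> simp [br, br2, eS, eT, kk, ll, pp, qq, rr, ss] <;> ring

/-- no crossing diagonals -/
def NC (e : Fin 10 → ℕ) : Prop := ∀ j : Fin 5, e (kk j) = 0 ∨ e (ll j) = 0

/-- the diagonals in cyclic order -/
def dg (e : Fin 10 → ℕ) : Fin 5 → ℕ := ![e 1, e 2, e 5, e 6, e 8]

/-- the index set -/
abbrev Ix (m : ℕ) : Type := Option (Fin 5 × (Σ n : Fin (2 * m), Fin (n.1 + 1)))

/-- the diagonals given by the index -/
def D (m : ℕ) : Ix m → Fin 5 → ℕ
  | none => fun _ => 0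
  | some (i, ⟨n, a⟩) => fun j => if j = i then a.1 + 1 else if j = i + 1 then n.1 - a.1 else 0

theorem dg_inj {m : ℕ} {e f : Fin 10 → ℕ} (he : Dg m e) (hf : Dg m f) (h : dg e = dg f) :
    e = f := by
  obtain ⟨a0, a1, a2, a3, a4⟩ := he.eqs
  obtain ⟨b0, b1, b2, b3, b4⟩ := hf.eqs
  have h0 : e 1 = f 1 := congrFun h 0
  have h1 : e 2 = f 2 := congrFun h 1
  have h2 : e 5 = f 5 := congrFun h 2
  have h3 : e 6 = f 6 := congrFun h 3
  have h4 : e 8 = f 8 := congrFun h 4
  have c0 : e 0 = f 0 := by omega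
  have c3 : e 3 = f 3 := by omega
  have c4 : e 4 = f 4 := by omega
  have c7 : e 7 = f 7 := by omega
  have c9 : e 9 = f 9 := by omega
  funext k
  fin_cases k <;> assumption

theorem cover {m : ℕ} {e : Fin 10 → ℕ} (he : Dg m e) (hn : NC e) : ∃ x : Ix m, D m x = dg e := by
  obtain ⟨a0, a1, a2, a3, a4⟩ := he.eqs
  have n0 : e 1 = 0 ∨ e 5 = 0 := hn 0
  have n1 : e 1 = 0 ∨ e 6 = 0 := hn 1
  have n2 : e 2 = 0 ∨ e 6 = 0 := hn 2
  have n3 : e 2 = 0 ∨ e 8 = 0 := hn 3
  have n4 : e 5 = 0 ∨ e 8 = 0 := hn 4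
  have key : (e 1 = 0 ∧ e 2 = 0 ∧ e 5 = 0 ∧ e 6 = 0 ∧ e 8 = 0) ∨
      (0 < e 1 ∧ e 8 = 0 ∧ e 5 = 0 ∧ e 6 = 0) ∨ (0 < e 2 ∧ e 1 = 0 ∧ e 6 = 0 ∧ e 8 = 0) ∨
      (0 < e 5 ∧ e 2 = 0 ∧ e 8 = 0 ∧ e 1 = 0) ∨ (0 < e 6 ∧ e 5 = 0 ∧ e 1 = 0 ∧ e 2 = 0) ∨
      (0 < e 8 ∧ e 6 = 0 ∧ e 2 = 0 ∧ e 5 = 0) := by
    clear a0 a1 a2 a3 a4 he hn
    rcases Nat.eq_zero_or_pos (e 1) with h1 | h1
    · rcases Nat.eq_zero_or_pos (e 2) with h2 | h2
      · rcases Nat.eq_zero_or_pos (e 5) with h5 | h5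
        · rcases Nat.eq_zero_or_pos (e 6) with h6 | h6
          · rcases Nat.eq_zero_or_pos (e 8) with h8 | h8
            · exact Or.inl ⟨h1, h2, h5, h6, h8⟩
            · exact Or.inr (Or.inr (Or.inr (Or.inr (Or.inr ⟨h8, h6, h2, h5⟩))))
          · exact Or.inr (Or.inr (Or.inr (Or.inr (Or.inl ⟨h6, h5, h1, h2⟩))))
        · have h8 : e 8 = 0 := n4.resolve_left h5.ne'
          exact Or.inr (Or.inr (Or.inr (Or.inl ⟨h5, h2, h8, h1⟩)))
      · have h6 : e 6 = 0 := n2.resolve_left h2.ne'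
        have h8 : e 8 = 0 := n3.resolve_left h2.ne'
        exact Or.inr (Or.inr (Or.inl ⟨h2, h1, h6, h8⟩))
    · have h5 : e 5 = 0 := n0.resolve_left h1.ne'
      have h6 : e 6 = 0 := n1.resolve_left h1.ne'
      rcases Nat.eq_zero_or_pos (e 8) with h8 | h8
      · exact Or.inr (Or.inl ⟨h1, h8, h5, h6⟩)
      · have h2 : e 2 = 0 := n3.resolve_right h8.ne'
        exact Or.inr (Or.inr (Or.inr (Or.inr (Or.inr ⟨h8, h6, h2, h5⟩))))
  rcases key with h | h | h | h | h | h
  · refine ⟨none, ?_⟩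
    funext j
    fin_cases j
    · exact h.1.symm
    · exact h.2.1.symm
    · exact h.2.2.1.symm
    · exact h.2.2.2.1.symm
    · exact h.2.2.2.2.symm
  · refine ⟨some (0, ⟨⟨e 1 - 1 + e 2, by omega⟩, ⟨e 1 - 1, by dsimp only; omega⟩⟩), ?_⟩
    funext j
    fin_cases j <;> simp [D, dg] <;> omega
  · refine ⟨some (1, ⟨⟨e 2 - 1 + e 5, by omega⟩, ⟨e 2 - 1, by dsimp only; omega⟩⟩), ?_⟩
    funext j
    fin_cases j <;> simp [D, dg] <;> omega
  · refine ⟨some (2, ⟨⟨e 5 - 1 + e 6, by omega⟩, ⟨e 5 - 1, by dsimp only; omega⟩⟩), ?_⟩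
    funext j
    fin_cases j <;> simp [D, dg] <;> omega
  · refine ⟨some (3, ⟨⟨e 6 - 1 + e 8, by omega⟩, ⟨e 6 - 1, by dsimp only; omega⟩⟩), ?_⟩
    funext j
    fin_cases j <;> simp [D, dg] <;> omega
  · refine ⟨some (4, ⟨⟨e 8 - 1 + e 1, by omega⟩, ⟨e 8 - 1, by dsimp only; omega⟩⟩), ?_⟩
    funext j
    fin_cases j <;> simp [D, dg] <;> omega

theorem card_Ix (m : ℕ) : Fintype.card (Ix m) = 10 * m ^ 2 + 5 * m + 1 := by
  have h : ∀ k : ℕ, ∑ n ∈ Finset.range (2 * k), (n + 1) = k * (2 * k + 1) := by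
    intro k
    induction k with
    | zero => simp
    | succ k ih =>
      rw [show 2 * (k + 1) = 2 * k + 1 + 1 by ring, Finset.sum_range_succ, Finset.sum_range_succ, ih]
      ring
  simp only [Fintype.card_option, Fintype.card_prod, Fintype.card_sigma, Fintype.card_fin]
  rw [Fin.sum_univ_eq_sum_range (fun n => n + 1) (2 * m), h]
  ring

/-! ### straightening -/

section str

variable (F : Type) [Field F]

/-- the bracket monomial -/
def bm (m : ℕ) (e : Fin 10 → ℕ) : Cox F := X Vr.T ^ m * ∏ k, br F k ^ e k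

theorem bm_add (m m' : ℕ) (e f : Fin 10 → ℕ) : bm F (m + m') (e + f) = bm F m e * bm F m' f := by
  unfold bm
  have h : ∏ k, br F k ^ (e + f) k = (∏ k, br F k ^ e k) * ∏ k, br F k ^ f k := by
    rw [← Finset.prod_mul_distrib]
    exact Finset.prod_congr rfl fun k _ => by rw [Pi.add_apply, pow_add]
  rw [h, pow_add]
  ring

theorem bm_sg (k : Fin 10) : bm F 0 (sg k) = br F k := by
  unfold bm
  rw [pow_zero, one_mul, Finset.prod_eq_single k]
  · simp [sg]
  · intro l _ hl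
    simp [sg, hl]
  · intro h
    exact absurd (Finset.mem_univ k) h

/-- the span of the standard monomials -/
def W (m : ℕ) : Submodule F (Cox F) := Submodule.span F {y | ∃ e, Dg m e ∧ NC e ∧ y = bm F m e}

theorem straight (m : ℕ) : ∀ (n : ℕ) (e : Fin 10 → ℕ), dn e = n → Dg m e → bm F m e ∈ W F m := by
  intro n
  induction n using Nat.strong_induction_on with
  | _ n ih =>
    intro e hn he
    by_cases hc : NC e
    · exact Submodule.subset_span ⟨e, he, hc, rfl⟩
    · unfold NC at hc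
      push Not at hc
      obtain ⟨j, h1, h2⟩ := hc
      obtain ⟨t1, t2, t3, t4, t5, t6⟩ := tab j
      obtain ⟨e0, rfl⟩ : ∃ e0, e = e0 + (sg (kk j) + sg (ll j)) := by
        refine ⟨fun l => e l - (sg (kk j) l + sg (ll j) l), ?_⟩
        funext l
        simp only [Pi.add_apply]
        have hle : sg (kk j) l + sg (ll j) l ≤ e l := by
          by_cases hk : l = kk j
          · have s1 : sg (kk j) l = 1 := if_pos hk
            have s2 : sg (ll j) l = 0 := if_neg (fun h => t1 (hk.symm.trans h))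
            rw [s1, s2, hk]
            omega
          · have s1 : sg (kk j) l = 0 := if_neg hk
            by_cases hl : l = ll j
            · have s2 : sg (ll j) l = 1 := if_pos hl
              rw [s1, s2, hl]
              omega
            · have s2 : sg (ll j) l = 0 := if_neg hl
              rw [s1, s2]
              omega
        omega
      rw [dn_add, t4] at hn
      have e1 : bm F m (e0 + (sg (kk j) + sg (ll j))) = bm F m (e0 + (sg (pp j) + sg (qq j))) +
          bm F m (e0 + (sg (rr j) + sg (ss j))) := by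
        have f : ∀ k l : Fin 10, bm F m (e0 + (sg k + sg l)) = bm F m e0 * (br F k * br F l) := by
          intro k l
          have := bm_add F m 0 e0 (sg k + sg l)
          rw [add_zero] at this
          rw [this]
          have h3 := bm_add F 0 0 (sg k) (sg l)
          rw [add_zero] at h3
          rw [h3, bm_sg, bm_sg]
        rw [f, f, f, plu, mul_add]
      rw [e1]
      refine Submodule.add_mem _ (ih _ ?_ _ rfl ?_) (ih _ ?_ _ rfl ?_)
      · rw [dn_add]; omega
      · intro i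
        rw [mdeg_add, t5, ← mdeg_add]
        exact he i
      · rw [dn_add]; omega
      · intro i
        rw [mdeg_add, t6, ← mdeg_add]
        exact he i

/-- the spanning family -/
def gg (m : ℕ) (x : Ix m) : Cox F :=
  if h : ∃ e, Dg m e ∧ D m x = dg e then bm F m h.choose else 0

theorem W_le (m : ℕ) : W F m ≤ Submodule.span F (Set.range (gg F m)) := by
  unfold W
  rw [Submodule.span_le]
  rintro _ ⟨e, he, hc, rfl⟩
  obtain ⟨x, hx⟩ := cover he hc
  refine Submodule.subset_span ⟨x, ?_⟩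
  have h : ∃ e, Dg m e ∧ D m x = dg e := ⟨e, he, hx⟩
  unfold gg
  rw [dif_pos h]
  congr 1
  exact dg_inj h.choose_spec.1 he (h.choose_spec.2.symm.trans hx)

end str

/-! ### the map to the Cox ring -/

section map

variable (F : Type) [Field F]

/-- `u ↦ 0` -/
def kU : Cox F →ₐ[F] Cox F := aeval fun v => match v with
  | Vr.u => 0
  | v => X v

/-- the composite -/
def psi : MvPolynomial (Fin (N + 1)) F →ₐ[F] Cox F := (kU F).comp (cx F)

theorem kU_br (k : Fin 10) : kU F (br F k) = br F k := by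
  unfold kU br br2
  simp

theorem psi_X (i : Fin (N + 1)) : psi F (X i) = if (pt i).w = 0 then bm F 1 (pt i).e else 0 := by
  unfold psi
  rw [AlgHom.comp_apply]
  have h1 : cx F (X i) = cm F (pt i) := by simp [cx]
  rw [h1]
  unfold cm mon bm
  rw [map_mul, map_mul, map_pow, map_pow, map_prod]
  have h2 : ∀ k, kU F (br F k ^ (pt i).e k) = br F k ^ (pt i).e k := fun k => by
    rw [map_pow, kU_br]
  rw [Finset.prod_congr rfl fun k _ => h2 k]
  have h3 : kU F (X Vr.T) = X Vr.T := by simp [kU]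
  have h4 : kU F (X Vr.u) = 0 := by simp [kU]
  rw [h3, h4]
  split_ifs with h
  · rw [h, pow_zero, mul_one]
  · rw [zero_pow h, mul_zero, zero_mul]

theorem le_ker : JI F none ≤ RingHom.ker (psi F) := by
  unfold JI Jg
  refine sup_le (Ideal.span_le.2 ?_) ?_
  · rintro _ ⟨c, hc, rfl⟩
    change psi F (xc F c) = 0
    unfold xc
    rw [psi_X, Equiv.apply_symm_apply, if_neg]
    exact Nat.pos_iff_ne_zero.1 hc
  · intro r hr
    change kU F (cx F r) = 0
    have h : cx F r = 0 := hr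
    rw [h, map_zero]

/-- kill the coordinates with `w > 0` -/
def rho : MvPolynomial (Fin (N + 1)) F →ₐ[F] MvPolynomial (Fin (N + 1)) F :=
  aeval fun i => if (pt i).w = 0 then X i else 0

theorem sub_rho (r : MvPolynomial (Fin (N + 1)) F) : r - rho F r ∈ Jg F none := by
  have h : (Ideal.Quotient.mkₐ F (Jg F none)).comp (rho F) = Ideal.Quotient.mkₐ F (Jg F none) := by
    apply MvPolynomial.algHom_ext
    intro i
    rw [AlgHom.comp_apply]
    unfold rho
    rw [aeval_X]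
    split_ifs with hi
    · rfl
    · rw [map_zero]
      symm
      refine Ideal.Quotient.eq_zero_iff_mem.2 (Ideal.subset_span ⟨pt i, Nat.pos_of_ne_zero hi, ?_⟩)
      unfold xc
      rw [Equiv.symm_apply_apply]
  rw [← Ideal.Quotient.eq]
  exact (congrArg (fun f => f r) h).symm

theorem cx_rho (r : MvPolynomial (Fin (N + 1)) F) : cx F (rho F r) = psi F r := by
  have h : (cx F).comp (rho F) = psi F := by
    apply MvPolynomial.algHom_ext
    intro i
    rw [AlgHom.comp_apply, psi_X]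
    unfold rho
    rw [aeval_X]
    split_ifs with hi
    · have h1 : cx F (X i) = cm F (pt i) := by simp [cx]
      rw [h1]
      unfold cm mon bm
      rw [hi, pow_zero, mul_one]
    · rw [map_zero]
  exact congrArg (fun f => f r) h

theorem ker_eq : RingHom.ker (psi F) = JI F none := by
  apply le_antisymm _ (le_ker F)
  intro r hr
  have h1 : cx F (rho F r) = 0 := by rw [cx_rho]; exact hr
  have h2 : r = (r - rho F r) + rho F r := by ring
  rw [h2]
  exact Ideal.add_mem _ ((le_sup_left : Jg F none ≤ _) (sub_rho F r))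
    ((le_sup_right : I F ≤ _) h1)

/-- the map on the quotient -/
def LL : (MvPolynomial (Fin (N + 1)) F ⧸ JI F none) →ₐ[F] Cox F :=
  Ideal.Quotient.liftₐ (JI F none) (psi F) (fun a ha => le_ker F ha)

theorem LL_inj : Function.Injective (LL F) := by
  rw [injective_iff_map_eq_zero]
  intro x hx
  obtain ⟨r, rfl⟩ := Ideal.Quotient.mk_surjective x
  rw [Ideal.Quotient.eq_zero_iff_mem, ← ker_eq]
  exact hx

/-- the graded pieces -/
def Pm (m : ℕ) : Submodule F (Cox F) := Submodule.span F {y | ∃ e, Dg m e ∧ y = bm F m e}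

theorem Pm_one : (1 : Cox F) ∈ Pm F 0 := by
  refine Submodule.subset_span ⟨0, ?_, ?_⟩
  · intro i
    simp [mdeg]
  · simp [bm]

theorem Pm_mul {a b : ℕ} {x y : Cox F} (hx : x ∈ Pm F a) (hy : y ∈ Pm F b) :
    x * y ∈ Pm F (a + b) := by
  have h := Submodule.mul_mem_mul hx hy
  have h2 : Pm F a * Pm F b ≤ Pm F (a + b) := by
    unfold Pm
    rw [Submodule.span_mul_span, Submodule.span_le]
    rintro _ ⟨_, ⟨e, he, rfl⟩, _, ⟨f, hf, rfl⟩, rfl⟩
    refine Submodule.subset_span ⟨e + f, ?_, ?_⟩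
    · intro i
      rw [mdeg_add, he i, hf i]
      ring
    · exact (bm_add F a b e f).symm
  exact h2 h

instance : SetLike.GradedMonoid (Pm F) where
  one_mem := Pm_one F
  mul_mem _ _ _ _ hx hy := Pm_mul F hx hy

theorem Pm_X (i : Fin (N + 1)) : psi F (X i) ∈ Pm F 1 := by
  rw [psi_X]
  split_ifs with h
  · refine Submodule.subset_span ⟨(pt i).e, ?_, rfl⟩
    intro j
    have := (pt i).adm.deg j
    rw [h] at this
    exact this
  · exact Submodule.zero_mem _

theorem Pm_mono (d : Fin (N + 1) →₀ ℕ) (a : F) : psi F (monomial d a) ∈ Pm F d.degree := by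
  have h1 : (monomial d a : MvPolynomial (Fin (N + 1)) F) = a • ∏ i ∈ d.support, X i ^ d i := by
    rw [monomial_eq, smul_eq_C_mul]
    rfl
  rw [h1, map_smul, map_prod]
  refine Submodule.smul_mem _ _ ?_
  simp only [map_pow]
  have h2 := SetLike.prod_pow_mem_graded (F := d.support) (Pm F) (fun _ => 1)
    (fun i => psi F (X i)) (fun i => d i) (fun i _ => Pm_X F i)
  have h3 : ∑ i ∈ d.support, d i • 1 = d.degree := by
    rw [Finset.sum_congr rfl fun i _ => smul_eq_mul (d i) 1,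
      Finset.sum_congr rfl fun i _ => mul_one (d i)]
    rfl
  rw [h3] at h2
  exact h2

theorem Pm_hom {m : ℕ} {r : MvPolynomial (Fin (N + 1)) F} (hr : r.IsHomogeneous m) :
    psi F r ∈ Pm F m := by
  rw [r.as_sum, map_sum]
  refine Submodule.sum_mem _ fun d hd => ?_
  have h1 := Pm_mono F d (coeff d r)
  have h2 : d.degree = m := by
    have := hr (mem_support_iff.1 hd)
    rw [← this, Finsupp.degree_eq_weight_one]
    rfl
  rw [h2] at h1
  exact h1

theorem Pm_le (m : ℕ) : Pm F m ≤ Submodule.span F (Set.range (gg F m)) := by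
  refine le_trans ?_ (W_le F m)
  unfold Pm
  rw [Submodule.span_le]
  rintro _ ⟨e, he, rfl⟩
  exact straight F m _ e rfl he

end map

end XSU_

open XSU_ in
theorem XSU_proof : Stmt_Xsu := by
  intro F _ m
  have h1 : ∀ x ∈ qgr (JI F none) m, LL F x ∈ Submodule.span F (Set.range (gg F m)) := by
    rintro _ ⟨r, hr, rfl⟩
    apply Pm_le
    exact Pm_hom F hr
  let L : qgr (JI F none) m →ₗ[F] Submodule.span F (Set.range (gg F m)) :=
    (LL F).toLinearMap.restrict h1
  have hL : Function.Injective L := by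
    intro x y hxy
    apply Subtype.ext
    exact LL_inj F (congrArg Subtype.val hxy)
  haveI : Module.Finite F (Submodule.span F (Set.range (gg F m))) :=
    Module.Finite.span_of_finite F (Set.finite_range _)
  refine (LinearMap.finrank_le_finrank_of_injective hL).trans ?_
  rw [← card_Ix]
  exact finrank_range_le_card (gg F m)

end Pool.Agent.XS
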