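import Pool.Agent.XS.Stmts
import Pool.Agent.XB.LCG

/-!
# XS, module XYJ: `y J ^ N ⊆ R`
-/

set_option autoImplicit false

noncomputable section

namespace Pool.Agent.XS

open scoped Classical
open MvPolynomial Pool.Agent.FRM Pool.Agent.XV Pool.Agent.XB

namespace XYJ_

/-- the coordinates in a chart -/
theorem chart_xc (hUCH : XB.Stmt_Uch) (F : Type) [Field F] (π : Equiv.Perm (Fin 5)) (σ : Fin 6) :
    ∃ φ : MvPolynomial (Fin (N + 1)) F →ₐ[F] Au F σ, RingHom.ker φ = I F ∧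
      (∀ y, ∃ (n : ℕ) (r : MvPolynomial (Fin (N + 1)) F), φ (chf F π σ) ^ n * y = φ r) ∧
      ∀ c, ∃ w, IsUnit w ∧ φ (xc F c) = w * ∏ l, Xa F σ l ^ elc σ l (act π⁻¹ c) := by
  obtain ⟨φ, hker, -, hsurj, -, -, hc⟩ := hUCH F π σ
  refine ⟨φ, hker, hsurj, fun c => ?_⟩
  obtain ⟨w, hw, h1⟩ := hc (act π⁻¹ c)
  refine ⟨((sgn π (act π⁻¹ c) : ℤ) : Au F σ) * w, ?_, ?_⟩
  · refine IsUnit.mul ?_ hw
    have h2 : ((sgn π (act π⁻¹ c) : ℤ) : Au F σ) * ((sgn π (act π⁻¹ c) : ℤ) : Au F σ) = 1 := by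
      rw [← Int.cast_mul, LCG_.sgn_sq, Int.cast_one]
    exact IsUnit.of_mul_eq_one _ h2
  · rw [LCG_.xc_eq F π c, map_mul, map_intCast, h1, mul_assoc]

/-- the divisibility in a chart -/
theorem chart_dvd (hUCH : XB.Stmt_Uch) (hRAY : XB.Stmt_Ray) (hRAZ : Stmt_Raz) (F : Type) [Field F]
    (g : Option (Fin 10)) (π : Equiv.Perm (Fin 5)) (σ : Fin 6)
    (r : MvPolynomial (Fin (N + 1)) F) (hr : r ∈ Jg F g ^ aG g) :
    ∃ n : ℕ, chf F π σ ^ n * (xc F cO ^ 2 * r) ∈ Ideal.span {xc F (cG g)} ⊔ I F := by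
  obtain ⟨φ, hker, hsurj, hc⟩ := chart_xc hUCH F π σ
  have h1 : φ (xc F (cG g)) ∣ φ (xc F cO ^ 2 * r) := by
    obtain ⟨w, hw, h2⟩ := hc (cG g)
    obtain ⟨w', hw', h3⟩ := hc cO
    rw [h2, map_mul, map_pow, h3, hw.mul_left_dvd]
    by_cases hray : ∃ l, RayOf g π σ l
    · obtain ⟨l, hl⟩ := hray
      obtain ⟨hR1, hR2⟩ := hRAY.1 g π σ l hl
      have h4 : ∏ l', Xa F σ l' ^ elc σ l' (act π⁻¹ (cG g)) =
          (∏ l', Xa F σ l' ^ elc σ l' (act π⁻¹ cO)) ^ 2 * Xa F σ l ^ aG g := by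
        rw [← Finset.prod_pow]
        have h5 : Xa F σ l ^ aG g = ∏ l', Xa F σ l' ^ (if l' = l then aG g else 0) := by
          rw [Finset.prod_eq_single l]
          · rw [if_pos rfl]
          · intro l' _ hl'
            rw [if_neg hl', pow_zero]
          · intro h
            exact absurd (Finset.mem_univ l) h
        rw [h5, ← Finset.prod_mul_distrib]
        refine Finset.prod_congr rfl fun l' _ => ?_
        rw [hR2 l', ← pow_mul, ← pow_add, mul_comm 2]
      have h6 : Xa F σ l ^ aG g ∣ φ r := by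
        have h7 : Jg F g ≤ (Ideal.span {Xa F σ l}).comap (φ : _ →+* Au F σ) := by
          refine Ideal.span_le.2 ?_
          rintro _ ⟨c, hcp, rfl⟩
          obtain ⟨w'', -, h8⟩ := hc c
          show φ (xc F c) ∈ Ideal.span {Xa F σ l}
          rw [h8, Ideal.mem_span_singleton]
          refine Dvd.dvd.mul_left ?_ _
          refine dvd_trans ?_ (Finset.dvd_prod_of_mem _ (Finset.mem_univ l))
          rw [hR1 c]
          exact dvd_pow_self _ hcp.ne'
        have h8 : Jg F g ^ aG g ≤ (Ideal.span {Xa F σ l} ^ aG g).comap (φ : _ →+* Au F σ) :=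
          le_trans (Ideal.pow_right_mono h7 _) (Ideal.le_comap_pow _ _)
        have h9 := h8 hr
        rw [Ideal.mem_comap, Ideal.span_singleton_pow, Ideal.mem_span_singleton] at h9
        exact h9
      rw [h4, mul_pow, mul_assoc]
      exact Dvd.dvd.mul_left (mul_dvd_mul_left _ h6) _
    · have h4 : ∀ l, elc σ l (act π⁻¹ (cG g)) ≤ 2 * elc σ l (act π⁻¹ cO) := fun l =>
        hRAZ g π σ l fun h => hray ⟨l, h⟩
      refine Dvd.dvd.mul_right ?_ _
      rw [mul_pow, ← Finset.prod_pow]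
      refine Dvd.dvd.mul_left (Finset.prod_dvd_prod_of_dvd _ _ fun l _ => ?_) _
      rw [← pow_mul, mul_comm]
      exact pow_dvd_pow _ (h4 l)
  obtain ⟨y, hy⟩ := h1
  obtain ⟨n, s, hs⟩ := hsurj y
  refine ⟨n, ?_⟩
  have h2 : chf F π σ ^ n * (xc F cO ^ 2 * r) - s * xc F (cG g) ∈ I F := by
    rw [← hker, RingHom.mem_ker]
    show φ _ = 0
    rw [map_sub, map_mul, map_pow, hy, map_mul, ← hs]
    ring
  rw [← sub_add_cancel (chf F π σ ^ n * (xc F cO ^ 2 * r)) (s * xc F (cG g))]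
  exact Ideal.add_mem _ (Ideal.mem_sup_right h2) (Ideal.mem_sup_left (Ideal.mul_mem_left _ _
    (Ideal.mem_span_singleton_self _)))

/-- the ideal of the elements `s` with `s * y ∈ D` -/
def col {S : Type} [CommRing S] (D : Ideal S) (y : S) : Ideal S where
  carrier := {s | s * y ∈ D}
  add_mem' := by
    intro s s' hs hs'
    show (s + s') * y ∈ D
    rw [add_mul]
    exact Ideal.add_mem _ hs hs'
  zero_mem' := by
    show 0 * y ∈ D
    rw [zero_mul]
    exact Ideal.zero_mem _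
  smul_mem' := by
    intro a s hs
    show a * s * y ∈ D
    rw [mul_assoc]
    exact Ideal.mul_mem_left _ _ hs

end XYJ_

open XYJ_ in
theorem XYJ_proof (hUCH : XB.Stmt_Uch) (hRAY : XB.Stmt_Ray) (_hLCG : XB.Stmt_Lcg)
    (hXCV : Stmt_Xcv) (hRAZ : Stmt_Raz) : Stmt_Xyj := by
  intro F _ _ g
  set D : Ideal (MvPolynomial (Fin (N + 1)) F) := Ideal.span {xc F (cG g)} ⊔ I F with hD
  set A := Jg F g ^ aG g with hA
  -- powers of the variables
  have h1 : ∀ r ∈ A, ∀ i, ∃ n : ℕ, X i ^ n * (xc F cO ^ 2 * r) ∈ D := by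
    intro r hr i
    have h2 : ∀ (p : Equiv.Perm (Fin 5) × Fin 6), ∃ n : ℕ,
        chf F p.1 p.2 ^ n * (xc F cO ^ 2 * r) ∈ D := fun p =>
      chart_dvd hUCH hRAY hRAZ F g p.1 p.2 r hr
    choose n hn using h2
    obtain ⟨M, hM⟩ : ∃ M : ℕ, ∀ p, n p ≤ M :=
      ⟨∑ p, n p, fun p => Finset.single_le_sum (f := n) (fun _ _ => Nat.zero_le _)
        (Finset.mem_univ p)⟩
    obtain ⟨m, hm⟩ := hXCV F M i
    refine ⟨m, ?_⟩
    have h3 : Ideal.span {f | ∃ π σ, f = chf F π σ ^ M} ⊔ I F ≤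
        col D (xc F cO ^ 2 * r) := by
      refine sup_le (Ideal.span_le.2 ?_) fun s hs => ?_
      · rintro _ ⟨π, σ, rfl⟩
        obtain ⟨k, hk⟩ := Nat.exists_eq_add_of_le (hM (π, σ))
        show chf F π σ ^ M * (xc F cO ^ 2 * r) ∈ D
        rw [hk, pow_add, mul_comm (chf F π σ ^ n (π, σ)), mul_assoc]
        exact Ideal.mul_mem_left _ _ (hn (π, σ))
      · exact Ideal.mul_mem_right _ _ (Ideal.mem_sup_right hs)
    exact h3 hm
  -- the same exponent for all elements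
  let T : Ideal (MvPolynomial (Fin (N + 1)) F) :=
    { carrier := {s | ∀ r ∈ A, s * (xc F cO ^ 2 * r) ∈ D}
      add_mem' := by
        intro s s' hs hs' r hr
        rw [add_mul]
        exact Ideal.add_mem _ (hs r hr) (hs' r hr)
      zero_mem' := by
        intro r _
        rw [zero_mul]
        exact Ideal.zero_mem _
      smul_mem' := by
        intro a s hs r hr
        rw [smul_eq_mul, mul_assoc]
        exact Ideal.mul_mem_left _ _ (hs r hr) }
  have h2 : ∀ i, X i ∈ T.radical := by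
    intro i
    obtain ⟨s, hs⟩ := (IsNoetherian.noetherian A : A.FG)
    have h3 : ∀ r : s, ∃ n : ℕ, X i ^ n * (xc F cO ^ 2 * (r : MvPolynomial (Fin (N + 1)) F)) ∈ D := by
      intro r
      refine h1 r ?_ i
      rw [← hs]
      exact Submodule.subset_span r.2
    choose n hn using h3
    refine ⟨∑ r, n r, fun r hr => ?_⟩
    rw [← hs] at hr
    refine Submodule.span_induction ?_ ?_ ?_ ?_ hr
    · intro r hr'
      obtain ⟨k, hk⟩ := Nat.exists_eq_add_of_le
        (Finset.single_le_sum (f := n) (fun _ _ => Nat.zero_le _) (Finset.mem_univ ⟨r, hr'⟩))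
      rw [hk, pow_add, mul_comm (X i ^ n ⟨r, hr'⟩), mul_assoc]
      exact Ideal.mul_mem_left _ _ (hn ⟨r, hr'⟩)
    · rw [mul_zero, mul_zero]
      exact Ideal.zero_mem _
    · intro r r' _ _ h4 h5
      rw [mul_add, mul_add]
      exact Ideal.add_mem _ h4 h5
    · intro a r _ h4
      rw [smul_eq_mul, mul_left_comm (xc F cO ^ 2), mul_left_comm _ a]
      exact Ideal.mul_mem_left _ _ h4
  have h3 : Jg F g ≤ T.radical := by
    refine Ideal.span_le.2 ?_
    rintro _ ⟨c, -, rfl⟩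
    exact h2 _
  obtain ⟨k, hk⟩ := Ideal.exists_pow_le_of_le_radical_of_fg h3 (IsNoetherian.noetherian _)
  refine ⟨k + aG g, fun r hr => ?_⟩
  rw [pow_add] at hr
  refine Submodule.mul_induction_on hr ?_ ?_
  · intro s hs r' hr'
    have h4 := hk hs r' hr'
    rwa [mul_left_comm] at h4
  · intro x y hx hy
    rw [mul_add]
    exact Ideal.add_mem _ hx hy

end Pool.Agent.XS
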