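import Pool.Agent.XB.All
import Pool.Agent.XS.BSH
import Pool.Agent.XS.JGP
import Pool.Agent.XS.RAZ
import Pool.Agent.XS.XBI
import Pool.Agent.XS.XCJ
import Pool.Agent.XS.XCV
import Pool.Agent.XS.XCZ
import Pool.Agent.XS.XDD
import Pool.Agent.XS.XGB
import Pool.Agent.XS.XHG
import Pool.Agent.XS.XIN
import Pool.Agent.XS.XKA
import Pool.Agent.XS.XLA
import Pool.Agent.XS.XPA
import Pool.Agent.XS.XPR
import Pool.Agent.XS.XSA
import Pool.Agent.XS.XSC
import Pool.Agent.XS.XSL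
import Pool.Agent.XS.XSM
import Pool.Agent.XS.XSU
import Pool.Agent.XS.XYJ

/-!
# The numbers of the surfaces of the threefold: all statements are proved
-/

set_option autoImplicit false

namespace Pool.Agent.XS

theorem raz : Stmt_Raz := RAZ_proof

theorem jgp : Stmt_Jgp := JGP_proof

theorem xcv : Stmt_Xcv := XCV_proof XV.cov

theorem xpr : Stmt_Xpr := XPR_proof XB.lcg XB.cvg XV.pri XB.uch XB.ray

theorem xgb : Stmt_Xgb := XGB_proof

theorem xyj : Stmt_Xyj := XYJ_proof XB.uch XB.ray XB.lcg xcv raz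

theorem xcj : Stmt_Xcj := XCJ_proof XB.lcg XB.cvg XV.pri

theorem xin : Stmt_Xin := XIN_proof XB.uch

theorem xla : Stmt_Xla := xla_proof

theorem xsl : Stmt_Xsl := xsl_proof xin xla

theorem xsc : Stmt_Xsc := XSC_proof xin xla

theorem xsu : Stmt_Xsu := XSU_proof

theorem xka : Stmt_Xka := XKA_proof

theorem xcz : Stmt_Xcz := XCZ_proof

theorem xpa : Stmt_Xpa := XPA_proof XV.dim XV.pri XB.lza XB.lze

theorem xsm : Stmt_Xsm := XSM_proof xpr XV.dim XV.pri XB.lza XB.lze XB.fnh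

theorem xhg : Stmt_Xhg := XHG_proof XB.lnf XB.fnh XB.dmg XB.qgr' GML.a_gro XV.pri XB.lcg

theorem bsh : Stmt_Bsh := BSH_proof XB.fid XB.nzd XB.lfk XB.gss XB.hmb

theorem xsa : Stmt_Xsa := XSA_proof XB.uch XB.ray XB.lcg XB.cvg XB.lnf XB.dmg raz xcv xpr xgb XB.fnh

theorem xbi : Stmt_Xbi := XBI_proof XB.vgt xsl

/-- **The data of the surfaces of the threefold.** -/
theorem xdd : Stmt_Xdd := XDD_proof xka jgp xpr xyj xcj xsm xpa xbi xcz xsa xsc xsu XV.pri

end Pool.Agent.XS
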