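import Pool.Agent.XB.Stmts

/-!
# Numbers of the surfaces `G`, `P_k` in `X`: statements

The recipes are in `/team-store/MP_db3ab1_XS.md`.
-/

set_option autoImplicit false

noncomputable section

namespace Pool.Agent.XS

open scoped Classical
open MvPolynomial Pool.Agent.FRM Pool.Agent.XV Pool.Agent.XB

/-- The element `y ^ i * r` of degree `m`, where `1 / y = x_(cG g) / x_cO ^ 2` and `r` has degree
`m - i`, multiplied by `x_(cG g) ^ m`. -/
def ym (F : Type) [CommRing F] (g : Option (Fin 10)) (m i : ℕ)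
    (r : MvPolynomial (Fin (N + 1)) F) : MvPolynomial (Fin (N + 1)) F :=
  xc F cO ^ (2 * i) * xc F (cG g) ^ (m - i) * r

/-- The elements of degree `m` of `R[y]`, multiplied by `x_(cG g) ^ m`, modulo the ideal `J`. -/
def Yg (F : Type) [Field F] (J : Ideal (MvPolynomial (Fin (N + 1)) F)) (g : Option (Fin 10))
    (m : ℕ) : Submodule F (MvPolynomial (Fin (N + 1)) F ⧸ J) :=
  Submodule.span F {f | ∃ i, i ≤ m ∧ ∃ r : MvPolynomial (Fin (N + 1)) F,
    r.IsHomogeneous (m - i) ∧ f = Ideal.Quotient.mk J (ym F g m i r)}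

/-- Homogeneous ideals. -/
def HomId (F : Type) [Field F] (J : Ideal (MvPolynomial (Fin (N + 1)) F)) : Prop :=
  ∀ G ∈ J, ∀ m, homogeneousComponent m G ∈ J

/-! ## The surface `G` -/

/-- JGP: the ideal of `G` is prime (uses HOM of XV). -/
def Stmt_Jgp : Prop :=
  ∀ (F : Type) [Field F], (JI F none).IsPrime

/-- XIN: products of coordinates with different orders along two crossing lines are linearly
independent on `G` (uses UCH of XB). -/
def Stmt_Xin : Prop :=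
  ∀ (F : Type) [Field F] (π : Equiv.Perm (Fin 5)) (ι : Type) [Finite ι] (A : ι → Multiset Pt),
    (∀ i, ∀ c ∈ A i, c.w = 0) →
    Function.Injective (fun i => (((A i).map fun c => c.e (pe π 0)).sum,
      ((A i).map fun c => c.e (pe π 7)).sum)) →
    LinearIndependent F fun i => Ideal.Quotient.mk (JI F none) ((A i).map (xc F)).prod

/-- XLA: decomposition of lattice points. -/
def Stmt_Xla : Prop :=
  ∀ (π : Equiv.Perm (Fin 5)) (m s t : ℕ), s ≤ 4 * m → t ≤ 4 * m → s ≤ t + 2 * m →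
    t ≤ s + 2 * m → s + t ≤ 6 * m →
    ∃ A : Multiset Pt, Multiset.card A = m ∧ (∀ c ∈ A, c.w = 0) ∧
      (A.map fun c => c.e (pe π 0)).sum = s ∧ (A.map fun c => c.e (pe π 7)).sum = t

/-- XSL: lower bound for the Hilbert function of `G` (uses XIN, XLA). -/
def Stmt_Xsl : Prop :=
  ∀ (F : Type) [Field F] (m : ℕ), 10 * m ^ 2 ≤ Module.finrank F (qgr (JI F none) m)

/-- XSU: upper bound for the Hilbert function of `G` (uses UCH of XB or HOM of XV). -/
def Stmt_Xsu : Prop :=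
  ∀ (F : Type) [Field F] (m : ℕ),
    Module.finrank F (qgr (JI F none) m) ≤ 10 * m ^ 2 + 5 * m + 1

/-- XSC: lower bound for the sections with poles along a line (uses XIN, XLA). -/
def Stmt_Xsc : Prop :=
  ∀ (F : Type) [Field F] (k : Fin 10) (m : ℕ),
    12 * m ^ 2 ≤ Module.finrank F (Yg F (JI F none) (some k) m)

/-! ## The function `y` -/

/-- RAZ: the function `y` has poles only along the surface (finite check). -/
def Stmt_Raz : Prop :=
  ∀ g π σ l, ¬RayOf g π σ l → elc σ l (act π⁻¹ (cG g)) ≤ 2 * elc σ l (act π⁻¹ cO)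

/-- XCV: the charts cover `X` (uses COV of XV). -/
def Stmt_Xcv : Prop :=
  ∀ (F : Type) [Field F] [IsAlgClosed F] (M : ℕ) (i : Fin (N + 1)), ∃ n : ℕ,
    (X i : MvPolynomial (Fin (N + 1)) F) ^ n ∈
      Ideal.span {f | ∃ π σ, f = chf F π σ ^ M} ⊔ I F

/-- XYJ: `y J ^ N ⊆ R` (uses UCH, RAY, LCG of XB, and XCV, RAZ). -/
def Stmt_Xyj : Prop :=
  ∀ (F : Type) [Field F] [IsAlgClosed F] (g : Option (Fin 10)), ∃ n : ℕ, ∀ r ∈ Jg F g ^ n,
    xc F cO ^ 2 * r ∈ Ideal.span {xc F (cG g)} ⊔ I F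

/-- XCJ: powers of all coordinates are in the ideal of the surface in `R[y]` (uses LCG, CVG of XB,
and PRI of XV). -/
def Stmt_Xcj : Prop :=
  ∀ (F : Type) [Field F] [IsAlgClosed F] (g : Option (Fin 10)) (c : Pt), ∃ n : ℕ, 0 < n ∧
    Ideal.Quotient.mk (I F) (xc F c ^ n * xc F (cG g) ^ n) ∈
      Submodule.span F {f | ∃ i, i ≤ n ∧ ∃ r : MvPolynomial (Fin (N + 1)) F,
        r.IsHomogeneous (n - i) ∧ r ∈ Jg F g ∧ f = Ideal.Quotient.mk (I F) (ym F g n i r)}

/-! ## The upper bound for `R[y]` -/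

/-- XPR: the prime ideal of the surface `g` (uses LCG, CVG of XB, and PRI of XV). -/
def Stmt_Xpr : Prop :=
  ∀ (F : Type) [Field F] [IsAlgClosed F] (g : Option (Fin 10)),
    ∃ Pg : Ideal (MvPolynomial (Fin (N + 1)) F), Pg.IsPrime ∧ HomId F Pg ∧ JI F g ≤ Pg ∧
      (∀ π σ l, RayOf g π σ l → chf F π σ ∉ Pg ∧
        ∀ r, r ∈ Pg ↔ ∃ n : ℕ, chf F π σ ^ n * r ∈ Ideal.span {che F π σ l} ⊔ I F) ∧
      (∃ n : ℕ, ∀ r ∈ Pg, ∀ j, X j ^ n * r ∈ JI F g) ∧ ∀ c, ordG g c = 0 → xc F c ∉ Pg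

/-- XGB: sections with denominators at the origin. -/
def Stmt_Xgb : Prop :=
  ∀ (F : Type) [Field F] (r : ℕ) (J : Ideal (MvPolynomial (Fin (N + 1)) F)), J.IsPrime →
    HomId F J → ∀ h : Fin (r + 2) → MvPolynomial (Fin (N + 1)) F, (∀ i, (h i).IsHomogeneous 1) →
    (∀ j, ∃ m : ℕ, (X j : MvPolynomial (Fin (N + 1)) F) ^ m ∈ Ideal.span (Set.range h) ⊔ J) →
    (∀ q : MvPolynomial (Fin (r + 2)) F, aeval h q ∈ J → q = 0) →
    ∃ n₀ : ℕ, ∀ (m k : ℕ) (b : MvPolynomial (Fin (N + 1)) F), b ∉ J → b.IsHomogeneous k →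
      ∀ W : Submodule F (MvPolynomial (Fin (N + 1)) F ⧸ J), W ≤ qgr J (m + k) →
      (∀ w ∈ W, ∀ j, ∃ M : ℕ, Ideal.Quotient.mk J (X j) ^ M * w ∈
        Ideal.span {Ideal.Quotient.mk J b}) →
      Module.finrank F W ≤ Module.finrank F (qgr J (m + n₀))

/-- XSA: **upper bound for `R[y]`** (uses UCH, RAY, LCG, CVG, LNF, DMG of XB, DIM, PRI of XV, and
RAZ, XCV, XPR, XGB). -/
def Stmt_Xsa : Prop :=
  ∀ (F : Type) [Field F] [IsAlgClosed F] (k : Fin 10), ∃ n₀ : ℕ, ∀ m : ℕ,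
    Module.finrank F (Yg F (I F) (some k) m) ≤ Module.finrank F (qgr (I F) (m + n₀)) +
      2 * ∑ i ∈ Finset.range (m + 1), Module.finrank F (qgr (JI F (some k)) (i + n₀))

end Pool.Agent.XS
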