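import Pool.Agent.XS.Stmts
import Pool.Agent.XB.StmtsB
import Pool.Agent.RST.Defs

/-!
# The special fibre data of `RST`, and a homogeneous basis: statements

The recipes are in `/team-store/MP_db3ab1_XS.md`.
-/

set_option autoImplicit false

noncomputable section

namespace Pool.Agent.XS

open scoped Classical
open MvPolynomial Pool.Agent.FRM Pool.Agent.XV Pool.Agent.XB

/-- BSH: homogeneous basis (uses FID, NZD, LFK, GSS, HMB of XB). -/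
def Stmt_Bsh : Prop :=
  ∀ (p : ℕ) (J : Type) (E : Eqs p N J) (K : Type) [Field K] (V : ValuationSubring K)
    (F : Type) [Field F] (c : F →+* V) (σ : V →+* F) (t ϖ : V)
    (P : Ideal (MvPolynomial (Fin (N + 1)) K)) (z : Fin 4 → MvPolynomial (Fin (N + 1)) V)
    (B : Type) [CommRing B] [Algebra K B] (φ : MvPolynomial (Fin (N + 1)) K →ₐ[K] B)
    (ℬ : ℕ → Submodule K B) [GradedAlgebra ℬ], SuB E V c σ t ϖ P z φ ℬ →
    ∃ (n : ℕ) (b : Fin n → B) (r : MvPolynomial (Fin (N + 1)) F) (d : Fin n → ℕ) (k : ℕ),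
      0 < n ∧ IsBas V c ϖ φ n b r ∧ (∀ i, b i ∈ ℬ (d i)) ∧ r.IsHomogeneous k

/-- XHG: the Hilbert function of the surface `g` (uses LNF, FNH, DMG, QGR of XB, GRO of GML). -/
def Stmt_Xhg : Prop :=
  ∀ (F : Type) [Field F] [IsAlgClosed F] (g : Option (Fin 10)), ∃ d : ℕ, 0 < d ∧
    (∃ C : ℕ, ∀ m : ℕ, |2 * (Module.finrank F (qgr (JI F g) m) : ℤ) - d * (m : ℤ) ^ 2| ≤
      C * ((m : ℤ) + 1)) ∧
    ∀ h : Fin 3 → MvPolynomial (Fin (N + 1)) F, (∀ i, (h i).IsHomogeneous 1) →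
    (∀ j, ∃ n : ℕ, (X j : MvPolynomial (Fin (N + 1)) F) ^ n ∈
      Ideal.span (Set.range h) ⊔ JI F g) →
    ∀ (T : GML.GMod F 3) (e' : T.M ≃ₗ[F] (MvPolynomial (Fin (N + 1)) F ⧸ JI F g)),
    IsRM T (qgr (JI F g)) (fun i => Ideal.Quotient.mk (JI F g) (h i)) e' →
      Module.finrank (MvPolynomial (Fin 3) F) T.M = d

/-- XSM: curves on the surface `g` (uses XPR, FRM.LZA, LZE, XB.FNH, XV.DIM). -/
def Stmt_Xsm : Prop :=
  ∀ (F : Type) [Field F] [IsAlgClosed F] (g : Option (Fin 10)) (c : Pt), ordG g c = 0 →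
    ∃ C : ℕ, ∀ m : ℕ, Module.finrank F (qgr (JI F g ⊔ Ideal.span {xc F c}) m) ≤ C * (m + 1)

/-- XPA: parameters (uses XV.DIM, PRI, FRM.LZA, LZE). -/
def Stmt_Xpa : Prop :=
  ∀ (F : Type) [Field F] [IsAlgClosed F] (c : Pt),
    ∃ z : Fin 3 → MvPolynomial (Fin (N + 1)) F, (∀ i, (z i).IsHomogeneous 1) ∧
      ∀ j, ∃ n : ℕ, (X j : MvPolynomial (Fin (N + 1)) F) ^ n ∈
        I F ⊔ Ideal.span {xc F c} ⊔ Ideal.span (Set.range z)

/-- XBI: the Hilbert function of `X` is not quadratic (uses VGT of XB, XSL). -/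
def Stmt_Xbi : Prop :=
  ∀ (F : Type) [Field F] (C : ℕ), ∃ m : ℕ, C * (m + 1) ^ 2 < Module.finrank F (qgr (I F) m)

/-- XCZ: a coordinate which vanishes on `G` and not on `P_k` (finite check). -/
def Stmt_Xcz : Prop :=
  ∀ k : Fin 10, ∃ c : Pt, 0 < c.w ∧ c.e k = 0

section

variable (F : Type) [Field F] (J : Ideal (MvPolynomial (Fin (N + 1)) F)) [J.IsPrime]
  (g : Option (Fin 10))

/-- The homomorphism `F[X, Y] → Frac (F[X] / J)`, `Y ↦ y = x_cO ^ 2 / x_(cG g)`. -/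
def psi : MvPolynomial (Fin (N + 1 + 1)) F →ₐ[F]
    FractionRing (MvPolynomial (Fin (N + 1)) F ⧸ J) :=
  aeval (Fin.snoc (α := fun _ => FractionRing (MvPolynomial (Fin (N + 1)) F ⧸ J))
    (fun c => algebraMap (MvPolynomial (Fin (N + 1)) F ⧸ J) _ (Ideal.Quotient.mk J (X c)))
    (algebraMap (MvPolynomial (Fin (N + 1)) F ⧸ J) _ (Ideal.Quotient.mk J (xc F cO ^ 2)) /
      algebraMap (MvPolynomial (Fin (N + 1)) F ⧸ J) _ (Ideal.Quotient.mk J (xc F (cG g)))))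

/-- The ideal of `R[y]` in `F[X, Y]`. -/
def Ipr : Ideal (MvPolynomial (Fin (N + 1 + 1)) F) :=
  RingHom.ker (psi F J g)

end

/-- XKA: the ideal of `R[y]`. -/
def Stmt_Xka : Prop :=
  ∀ (F : Type) [Field F] (J : Ideal (MvPolynomial (Fin (N + 1)) F)) [J.IsPrime]
    (g : Option (Fin 10)), HomId F J → xc F (cG g) ∉ J →
    (Ipr F J g).IsPrime ∧ RST.HomI (Ipr F J g) ∧
    (Ipr F J g).comap (RST.emb F (N + 1)) = J ∧
    (∀ m, RST.hf (Ipr F J g) m = Module.finrank F (Yg F J g m)) ∧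
    (∀ (n : ℕ) (a : ℕ → MvPolynomial (Fin (N + 1)) F),
      ∑ i ∈ Finset.range (n + 1), RST.emb F (N + 1) (a i) * RST.Yv F (N + 1) ^ i ∈ Ipr F J g ↔
        ∑ i ∈ Finset.range (n + 1), ym F g n i (a i) ∈ J) ∧
    ∀ p : MvPolynomial (Fin (N + 1 + 1)) F, ∃ (n : ℕ) (a : ℕ → MvPolynomial (Fin (N + 1)) F),
      p = ∑ i ∈ Finset.range (n + 1), RST.emb F (N + 1) (a i) * RST.Yv F (N + 1) ^ i

/-- XDD: **the special fibre data** (uses XKA, JGP, XYJ, XCJ, XSM, XPA, XBI, XCZ, XSA, XSC, XSU,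
and PRI of XV). -/
def Stmt_Xdd : Prop :=
  ∀ (F : Type) [Field F] [IsAlgClosed F] (k : Fin 10) (v d : ℕ),
    (∃ C : ℕ, ∀ m : ℕ, |6 * (Module.finrank F (qgr (I F) m) : ℤ) - v * (m : ℤ) ^ 3| ≤
      C * ((m : ℤ) + 1) ^ 2) →
    (∃ C : ℕ, ∀ m : ℕ, |2 * (Module.finrank F (qgr (JI F (some k)) m) : ℤ) - d * (m : ℤ) ^ 2| ≤
      C * ((m : ℤ) + 1)) →
    ∃ D : RST.XD F (N + 1), D.IX = I F ∧ D.A = {c | 0 < ordG (some k) (pt c)} ∧
      D.W = {c | 0 < (pt c).w} ∧ D.e' = v + 2 * d ∧ D.s₁ = 24 ∧ D.s₂ = 20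

end Pool.Agent.XS
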