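import Pool.Agent.XS.XPR
import Pool.Agent.XB.LCG
import Pool.Agent.XB.HIX
import Pool.Agent.XB.QGR
import Pool.Agent.XV.All

/-!
# XS, module XSA: the upper bound for `R[y]`, preparations
-/

set_option autoImplicit false

noncomputable section

namespace Pool.Agent.XS

open scoped Classical
open MvPolynomial Pool.Agent.FRM Pool.Agent.XV Pool.Agent.XB

namespace XSA_

/-! ### Algebra -/

section abs

lemma dvd_of_exps {B : Type} [CommRing B] [IsDomain B] {ι : Type} (Y : ι → B)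
    (hY : ∀ l, Prime (Y l)) (hne : ∀ l l', Y l ∣ Y l' → l = l') (e : ι → ℕ) (y : B)
    (s : Finset ι) (h : ∀ l ∈ s, Y l ^ e l ∣ y) : ∏ l ∈ s, Y l ^ e l ∣ y := by
  induction s using Finset.induction_on with
  | empty => simp
  | insert a s ha ih =>
    obtain ⟨z, hz⟩ := ih fun l hl => h l (Finset.mem_insert_of_mem hl)
    have h1 := h a (Finset.mem_insert_self _ _)
    rw [hz] at h1
    have h2 : ¬Y a ∣ ∏ l ∈ s, Y l ^ e l := by
      intro h3
      obtain ⟨l, hl, h4⟩ := ((hY a).dvd_finsetProd_iff _).1 h3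
      have h5 := hne a l ((hY a).dvd_of_dvd_pow h4)
      rw [h5] at ha
      exact ha hl
    obtain ⟨z', hz'⟩ := (hY a).pow_dvd_of_dvd_mul_left _ h2 h1
    rw [Finset.prod_insert ha, hz, hz']
    exact ⟨z', by ring⟩

lemma cancel_exp {B : Type} [CommRing B] [IsDomain B] (Y : Fin 3 → B)
    (hY : ∀ l, Prime (Y l)) (hne : ∀ l l', Y l ∣ Y l' → l = l') (e : Fin 3 → ℕ) (w y : B)
    (hw : IsUnit w) (l : Fin 3) (n : ℕ) (h : Y l ^ (n + e l) ∣ (w * ∏ l', Y l' ^ e l') * y) :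
    Y l ^ n ∣ y := by
  rw [← Finset.mul_prod_erase Finset.univ (fun l' => Y l' ^ e l') (Finset.mem_univ l)] at h
  obtain ⟨z, hz⟩ := h
  have h1 : w * (∏ l' ∈ Finset.univ.erase l, Y l' ^ e l') * y = Y l ^ n * z := by
    have h0 : Y l ^ e l ≠ 0 := pow_ne_zero _ (hY l).ne_zero
    apply mul_left_cancel₀ h0
    rw [pow_add] at hz
    linear_combination hz
  have h2 : ¬Y l ∣ w * ∏ l' ∈ Finset.univ.erase l, Y l' ^ e l' := by
    intro h3
    rcases (hY l).dvd_or_dvd h3 with h3 | h3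
    · exact (hY l).not_isUnit (isUnit_of_dvd_unit h3 hw)
    · obtain ⟨l', hl', h4⟩ := ((hY l).dvd_finsetProd_iff _).1 h3
      have h5 := hne l l' ((hY l).dvd_of_dvd_pow h4)
      rw [h5] at hl'
      exact (Finset.mem_erase.1 hl').1 rfl
  exact (hY l).pow_dvd_of_dvd_mul_left _ h2 ⟨z, h1⟩

/-- one step of the filtration -/
lemma lev_abs {F R R' : Type} [Field F] [CommRing R] [IsDomain R] [Algebra F R] [CommRing R']
    [Algebra F R'] (p : R →ₐ[F] R') (W W' : Submodule F R) [FiniteDimensional F W]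
    [FiniteDimensional F W'] (a t : R) (ht : t ≠ 0) (h1 : ∀ w ∈ W, ∃ q, a * w = q * t)
    (h2 : ∀ w ∈ W, ∀ q, a * w = q * t → p q = 0 → w ∈ W') :
    ∃ V : Submodule F R', (∀ v ∈ V, ∃ w ∈ W, ∃ q, a * w = q * t ∧ v = p q) ∧
      Module.finrank F W ≤ Module.finrank F W' + Module.finrank F V := by
  choose! q hq using h1
  have hadd : ∀ w ∈ W, ∀ w' ∈ W, q (w + w') = q w + q w' := by
    intro w hw w' hw'
    apply mul_right_cancel₀ ht
    rw [← hq _ (add_mem hw hw'), add_mul, ← hq _ hw, ← hq _ hw', mul_add]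
  have hsmul : ∀ w ∈ W, ∀ c : F, q (c • w) = c • q w := by
    intro w hw c
    apply mul_right_cancel₀ ht
    rw [← hq _ (W.smul_mem c hw), smul_mul_assoc, ← hq _ hw, mul_smul_comm]
  let α : W →ₗ[F] R' :=
    { toFun := fun w => p (q w)
      map_add' := fun w w' => by
        show p (q ((w : R) + w')) = _
        rw [hadd _ w.2 _ w'.2, map_add]
      map_smul' := fun c w => by
        show p (q (c • (w : R))) = _
        rw [hsmul _ w.2, map_smul]
        rfl }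
  refine ⟨LinearMap.range α, ?_, ?_⟩
  · rintro _ ⟨w, rfl⟩
    exact ⟨w, w.2, q w, hq _ w.2, rfl⟩
  · have h3 := LinearMap.finrank_range_add_finrank_ker α
    have h4 : Module.finrank F (LinearMap.ker α) ≤ Module.finrank F W' := by
      rw [← Submodule.finrank_map_subtype_eq W (LinearMap.ker α)]
      apply Submodule.finrank_mono
      rintro _ ⟨w, hw, rfl⟩
      exact h2 _ w.2 (q w) (hq _ w.2) hw
    omega

/-- finite dimensional subspaces in unions of chains -/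
lemma unif {F R : Type} [Field F] [AddCommGroup R] [Module F R] (W : Submodule F R)
    [FiniteDimensional F W] (U : ℕ → Submodule F R) (hU : Monotone U)
    (h : ∀ w ∈ W, ∃ n, w ∈ U n) : ∃ M, W ≤ U M := by
  obtain ⟨S, hS⟩ := (Module.Finite.iff_fg (N := W)).1 inferInstance
  choose! n hn using h
  refine ⟨S.sup n, ?_⟩
  rw [← hS, Submodule.span_le]
  intro s hs
  exact hU (Finset.le_sup hs) (hn s (by rw [← hS]; exact Submodule.subset_span hs))

end abs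

/-! ### Graded quotients -/

section gr

variable {F : Type} [Field F] {J : Ideal (MvPolynomial (Fin (N + 1)) F)}

lemma fin_qgr (J : Ideal (MvPolynomial (Fin (N + 1)) F)) (m : ℕ) :
    Module.Finite F (qgr J m) := by
  have : Module.Finite F (homogeneousSubmodule (Fin (N + 1)) F m) :=
    Module.Finite.iff_fg.2 (homogeneousSubmodule_fg (Fin (N + 1)) F m)
  unfold qgr
  infer_instance

lemma hdiv (hJ : HomId F J) (hp : J.IsPrime) {δ τ : ℕ}
    {q t : MvPolynomial (Fin (N + 1)) F ⧸ J} (ht : t ∈ qgr J τ) (h0 : t ≠ 0)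
    (h : q * t ∈ qgr J (δ + τ)) : q ∈ qgr J δ := by
  obtain ⟨hgr⟩ := QGR_proof F J hJ
  have e1 := DirectSum.coe_decompose_mul_add_of_right_mem (qgr J) (i := δ) (a := q) ht
  have e2 := DirectSum.decompose_of_mem_same (qgr J) h
  rw [e2] at e1
  have e3 := mul_right_cancel₀ h0 e1
  rw [e3]
  exact SetLike.coe_mem _

lemma mk_mem {m : ℕ} {f : MvPolynomial (Fin (N + 1)) F} (h : f.IsHomogeneous m) :
    Ideal.Quotient.mk J f ∈ qgr J m := ⟨f, h, rfl⟩

lemma mul_mem_qgr {m n : ℕ} {a b : MvPolynomial (Fin (N + 1)) F ⧸ J} (ha : a ∈ qgr J m)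
    (hb : b ∈ qgr J n) : a * b ∈ qgr J (m + n) := by
  obtain ⟨f, hf, rfl⟩ := ha
  obtain ⟨g, hg, rfl⟩ := hb
  exact ⟨f * g, hf.mul hg, map_mul (Ideal.Quotient.mk J) f g⟩

/-- the dimensions increase -/
lemma mono1 (hp : J.IsPrime) {x : MvPolynomial (Fin (N + 1)) F} (hx : x.IsHomogeneous 1)
    (hxJ : x ∉ J) (m : ℕ) :
    Module.finrank F (qgr J m) ≤ Module.finrank F (qgr J (m + 1)) := by
  have := fin_qgr J (m + 1)
  have h0 : Ideal.Quotient.mk J x ≠ 0 := fun h => hxJ (Ideal.Quotient.eq_zero_iff_mem.1 h)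
  have hinj : Function.Injective (LinearMap.mulRight F (Ideal.Quotient.mk J x)) := by
    intro a b hab
    exact mul_right_cancel₀ h0 hab
  rw [LinearEquiv.finrank_eq (Submodule.equivMapOfInjective _ hinj (qgr J m))]
  apply Submodule.finrank_mono
  rintro _ ⟨a, ha, rfl⟩
  exact mul_mem_qgr ha (mk_mem hx)

lemma mono (hp : J.IsPrime) {x : MvPolynomial (Fin (N + 1)) F} (hx : x.IsHomogeneous 1)
    (hxJ : x ∉ J) {m n : ℕ} (hmn : m ≤ n) :
    Module.finrank F (qgr J m) ≤ Module.finrank F (qgr J n) := by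
  induction n, hmn using Nat.le_induction with
  | base => exact le_rfl
  | succ n _ ih => exact ih.trans (mono1 hp hx hxJ n)

lemma mono_ideal {J' : Ideal (MvPolynomial (Fin (N + 1)) F)} (h : J ≤ J') (m : ℕ) :
    Module.finrank F (qgr J' m) ≤ Module.finrank F (qgr J m) := by
  have := fin_qgr J m
  have h1 : qgr J' m = (qgr J m).map (Ideal.Quotient.factorₐ F h).toLinearMap := by
    ext y
    constructor
    · rintro ⟨f, hf, rfl⟩
      exact ⟨_, mk_mem hf, rfl⟩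
    · rintro ⟨_, ⟨f, hf, rfl⟩, rfl⟩
      exact ⟨f, hf, rfl⟩
  rw [h1]
  exact Submodule.finrank_map_le _ _

end gr

/-! ### Charts -/

/-- The homogeneous coordinate ring of `X`. -/
abbrev Rr (F : Type) [Field F] : Type := MvPolynomial (Fin (N + 1)) F ⧸ I F

/-- Residue classes. -/
abbrev mq {F : Type} [Field F] (r : MvPolynomial (Fin (N + 1)) F) : Rr F :=
  Ideal.Quotient.mk (I F) r

/-- The maps to the coordinate rings of the charts. -/
structure Chts (F : Type) [Field F] where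
  /-- the map -/
  ψ : ∀ (_ : Equiv.Perm (Fin 5)) (σ : Fin 6), Rr F →+* Au F σ
  inj : ∀ π σ, Function.Injective (ψ π σ)
  unit : ∀ π σ, IsUnit (ψ π σ (mq (chf F π σ)))
  surj : ∀ π σ (y : Au F σ), ∃ (n : ℕ) (r : Rr F), ψ π σ (mq (chf F π σ)) ^ n * y = ψ π σ r
  che : ∀ π σ l, ψ π σ (mq (che F π σ l)) = Za F σ * Xa F σ l
  xc : ∀ π σ c, ∃ w, IsUnit w ∧
    ψ π σ (mq (xc F c)) = w * ∏ l, Xa F σ l ^ elc σ l (act π⁻¹ c)

lemma chts (hUCH : XB.Stmt_Uch) (F : Type) [Field F] : Nonempty (Chts F) := by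
  have key : ∀ π σ, ∃ ψ : Rr F →+* Au F σ, Function.Injective ψ ∧
      IsUnit (ψ (mq (chf F π σ))) ∧
      (∀ y : Au F σ, ∃ (n : ℕ) (r : Rr F), ψ (mq (chf F π σ)) ^ n * y = ψ r) ∧
      (∀ l, ψ (mq (XB.che F π σ l)) = Za F σ * Xa F σ l) ∧
      ∀ c, ∃ w, IsUnit w ∧ ψ (mq (XV.xc F c)) = w * ∏ l, Xa F σ l ^ elc σ l (act π⁻¹ c) := by
    intro π σ
    obtain ⟨φ, hker, hfu, hsurj, -, hche, hunit⟩ := hUCH F π σ
    refine ⟨Ideal.Quotient.lift (I F) φ.toRingHom fun a ha => ?_, ?_, ?_, ?_, ?_, ?_⟩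
    · rw [← hker, RingHom.mem_ker] at ha
      exact ha
    · rw [injective_iff_map_eq_zero]
      intro x hx
      obtain ⟨r, rfl⟩ := Ideal.Quotient.mk_surjective x
      rw [Ideal.Quotient.lift_mk] at hx
      rw [Ideal.Quotient.eq_zero_iff_mem, ← hker, RingHom.mem_ker]
      exact hx
    · rw [Ideal.Quotient.lift_mk]
      exact hfu
    · intro y
      obtain ⟨n, r, hr⟩ := hsurj y
      refine ⟨n, mq r, ?_⟩
      rw [Ideal.Quotient.lift_mk, Ideal.Quotient.lift_mk]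
      exact hr
    · intro l
      rw [Ideal.Quotient.lift_mk]
      exact hche l
    · intro c
      rw [Ideal.Quotient.lift_mk]
      obtain ⟨w, hw, hwe⟩ := hunit (act π⁻¹ c)
      refine ⟨((sgn π (act π⁻¹ c) : ℤ) : Au F σ) * w, ?_, ?_⟩
      · refine IsUnit.mul ?_ hw
        refine IsUnit.of_mul_eq_one ((sgn π (act π⁻¹ c) : ℤ) : Au F σ) ?_
        rw [← Int.cast_mul, LCG_.sgn_sq, Int.cast_one]
      · show φ (XV.xc F c) = _
        rw [LCG_.xc_eq F π c, map_mul, map_intCast, hwe, mul_assoc]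
  choose ψ h1 h2 h3 h4 h5 using key
  exact ⟨⟨ψ, h1, h2, h3, h4, h5⟩⟩

section ch

variable {F : Type} [Field F] (Ψ : Chts F) (π : Equiv.Perm (Fin 5)) (σ : Fin 6)

lemma clear {b w : Rr F} (h : Ψ.ψ π σ b ∣ Ψ.ψ π σ w) :
    ∃ (n : ℕ) (r : Rr F), mq (chf F π σ) ^ n * w = r * b := by
  obtain ⟨y, hy⟩ := h
  obtain ⟨n, r, hr⟩ := Ψ.surj π σ y
  refine ⟨n, r, Ψ.inj π σ ?_⟩
  rw [map_mul, map_mul, map_pow, hy, ← hr]
  ring

/-- Monomials in the chart. -/
def HasExp (b : Rr F) (e : Fin 3 → ℕ) : Prop :=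
  ∃ w, IsUnit w ∧ Ψ.ψ π σ b = w * ∏ l, Xa F σ l ^ e l

variable {Ψ π σ}

lemma HasExp.mul {b b' : Rr F} {e e' : Fin 3 → ℕ} (h : HasExp Ψ π σ b e)
    (h' : HasExp Ψ π σ b' e') : HasExp Ψ π σ (b * b') fun l => e l + e' l := by
  obtain ⟨w, hw, h⟩ := h
  obtain ⟨w', hw', h'⟩ := h'
  refine ⟨w * w', hw.mul hw', ?_⟩
  simp only [pow_add, Finset.prod_mul_distrib]
  rw [map_mul, h, h']
  ring

lemma HasExp.pow {b : Rr F} {e : Fin 3 → ℕ} (h : HasExp Ψ π σ b e) (n : ℕ) :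
    HasExp Ψ π σ (b ^ n) fun l => n * e l := by
  obtain ⟨w, hw, h⟩ := h
  refine ⟨w ^ n, hw.pow n, ?_⟩
  rw [map_pow, h, mul_pow, ← Finset.prod_pow]
  refine congrArg _ (Finset.prod_congr rfl fun l _ => ?_)
  rw [← pow_mul, mul_comm]

lemma hasExp_xc (c : Pt) : HasExp Ψ π σ (mq (xc F c)) fun l => elc σ l (act π⁻¹ c) :=
  Ψ.xc π σ c

lemma HasExp.dvd {b : Rr F} {e : Fin 3 → ℕ} (h : HasExp Ψ π σ b e) (l : Fin 3) :
    Xa F σ l ^ e l ∣ Ψ.ψ π σ b := by
  obtain ⟨w, hw, h⟩ := h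
  rw [h]
  exact Dvd.dvd.mul_left (Finset.dvd_prod_of_mem (fun l => Xa F σ l ^ e l) (Finset.mem_univ l)) w

lemma HasExp.dvd' {b : Rr F} {e : Fin 3 → ℕ} (h : HasExp Ψ π σ b e) {w : Rr F}
    (hw : ∀ l, Xa F σ l ^ e l ∣ Ψ.ψ π σ w) : Ψ.ψ π σ b ∣ Ψ.ψ π σ w := by
  have := LCG_.isDomain F σ
  obtain ⟨u, hu, h⟩ := h
  rw [h]
  have h1 := dvd_of_exps (Xa F σ) (fun l => (LCG_.Xa_prime F σ l).1)
    (fun l => (LCG_.Xa_prime F σ l).2) e (Ψ.ψ π σ w) Finset.univ fun l _ => hw l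
  exact (hu.mul_left_dvd).2 h1

lemma HasExp.cancel {b : Rr F} {e : Fin 3 → ℕ} (h : HasExp Ψ π σ b e) {l : Fin 3} {n : ℕ}
    {y : Au F σ} (hy : Xa F σ l ^ (n + e l) ∣ Ψ.ψ π σ b * y) : Xa F σ l ^ n ∣ y := by
  have := LCG_.isDomain F σ
  obtain ⟨u, hu, h⟩ := h
  rw [h] at hy
  exact cancel_exp (Xa F σ) (fun l => (LCG_.Xa_prime F σ l).1)
    (fun l => (LCG_.Xa_prime F σ l).2) e u y hu l n hy

end ch

/-! ### The prime ideal of the surface -/

section pr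

variable {F : Type} [Field F] (Ψ : Chts F) {g : Option (Fin 10)}
  {P : Ideal (MvPolynomial (Fin (N + 1)) F)}

lemma mem_P (π : Equiv.Perm (Fin 5)) (σ : Fin 6) (l : Fin 3)
    (hP : ∀ r, r ∈ P ↔ ∃ n : ℕ, chf F π σ ^ n * r ∈ Ideal.span {che F π σ l} ⊔ I F)
    (r : MvPolynomial (Fin (N + 1)) F) : r ∈ P ↔ Xa F σ l ∣ Ψ.ψ π σ (mq r) := by
  rw [hP r]
  constructor
  · rintro ⟨n, hn⟩
    obtain ⟨a, ha, b, hb, hab⟩ := Submodule.mem_sup.1 hn
    obtain ⟨s, rfl⟩ := Ideal.mem_span_singleton'.1 ha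
    have h1 : Ψ.ψ π σ (mq (chf F π σ)) ^ n * Ψ.ψ π σ (mq r) =
        Ψ.ψ π σ (mq s) * (Za F σ * Xa F σ l) := by
      rw [← Ψ.che, ← map_pow, ← map_mul, ← map_mul]
      congr 1
      have h2 : mq (chf F π σ) ^ n * mq r = mq (chf F π σ ^ n * r) := by
        unfold mq
        rw [map_mul, map_pow]
      rw [h2, ← hab]
      unfold mq
      rw [map_add, Ideal.Quotient.eq_zero_iff_mem.2 hb, add_zero, map_mul]
    have h2 : Xa F σ l ∣ Ψ.ψ π σ (mq (chf F π σ)) ^ n * Ψ.ψ π σ (mq r) := by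
      rw [h1]
      exact ⟨Ψ.ψ π σ (mq s) * Za F σ, by ring⟩
    exact (((Ψ.unit π σ).pow n).dvd_mul_left).1 h2
  · intro h
    have h1 : Ψ.ψ π σ (mq (che F π σ l)) ∣ Ψ.ψ π σ (mq r) := by
      rw [Ψ.che]
      exact ((LCG_.isUnit_Za F σ).mul_left_dvd).2 h
    obtain ⟨n, s, hs⟩ := clear Ψ π σ h1
    obtain ⟨s, rfl⟩ := Ideal.Quotient.mk_surjective s
    refine ⟨n, ?_⟩
    have h2 : chf F π σ ^ n * r - s * che F π σ l ∈ I F := by
      rw [← Ideal.Quotient.eq_zero_iff_mem, map_sub, map_mul, map_mul, map_pow, sub_eq_zero]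
      exact hs
    have h3 : chf F π σ ^ n * r = s * che F π σ l + (chf F π σ ^ n * r - s * che F π σ l) := by
      ring
    rw [h3]
    exact Ideal.add_mem _ (Ideal.mem_sup_left (Ideal.mul_mem_left _ _
      (Ideal.mem_span_singleton_self _))) (Ideal.mem_sup_right h2)

end pr

end XSA_

end Pool.Agent.XS
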