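import Pool.Agent.XS.XSA1
import Pool.Agent.LibDb3ab1.Dim

/-!
# XS, module XSA: the filtration
-/

set_option autoImplicit false

noncomputable section

namespace Pool.Agent.XS

open scoped Classical
open MvPolynomial Pool.Agent.FRM Pool.Agent.XV Pool.Agent.XB

namespace XSA_

section filt

lemma smul_eq {F : Type} [Field F] (c : F) (a : Rr F) : c • a = mq (C c) * a := by
  obtain ⟨r, rfl⟩ := Ideal.Quotient.mk_surjective a
  rw [← map_mul, ← MvPolynomial.smul_eq_C_mul]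
  rfl

variable {F : Type} [Field F] (Ψ : Chts F) (k : Fin 10)

/-- The elements of order at least `j` in all charts of the surface. -/
def Vj (j : ℕ) : Submodule F (Rr F) where
  carrier := {w | ∀ π σ l, RayOf (some k) π σ l → Xa F σ l ^ j ∣ Ψ.ψ π σ w}
  zero_mem' := by
    intro π σ l _
    rw [map_zero]
    exact dvd_zero _
  add_mem' := by
    intro a b ha hb π σ l h
    rw [map_add]
    exact dvd_add (ha π σ l h) (hb π σ l h)
  smul_mem' := by
    intro c a ha π σ l h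
    rw [smul_eq, map_mul]
    exact Dvd.dvd.mul_left (ha π σ l h) _

variable {Ψ k}

lemma mem_Vj {j : ℕ} {w : Rr F} :
    w ∈ Vj Ψ k j ↔ ∀ π σ l, RayOf (some k) π σ l → Xa F σ l ^ j ∣ Ψ.ψ π σ w := Iff.rfl

lemma mq_ym (m i : ℕ) (r : MvPolynomial (Fin (N + 1)) F) :
    mq (ym F (some k) m i r) = mq (xc F cO) ^ (2 * i) * mq (xc F (cG (some k))) ^ (m - i) *
      mq r := by
  unfold ym mq
  rw [map_mul, map_mul, map_pow, map_pow]

lemma Yg_le_qgr (m : ℕ) : Yg F (I F) (some k) m ≤ qgr (I F) (2 * m) := by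
  unfold Yg
  rw [Submodule.span_le]
  rintro _ ⟨i, hi, r, hr, rfl⟩
  have h1 : (ym F (some k) m i r).IsHomogeneous (1 * (2 * i) + 1 * (m - i) + (m - i)) :=
    (((isHomogeneous_X F _).pow _).mul ((isHomogeneous_X F _).pow _)).mul hr
  have h2 : 1 * (2 * i) + 1 * (m - i) + (m - i) = 2 * m := by omega
  rw [h2] at h1
  exact mk_mem h1

/-- Lower bound for the orders. -/
lemma Yg_dvd (π : Equiv.Perm (Fin 5)) (σ : Fin 6) (l : Fin 3) (m n : ℕ)
    (hE : ∀ i ≤ m, n ≤ 2 * i * elc σ l (act π⁻¹ cO) +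
      (m - i) * elc σ l (act π⁻¹ (cG (some k)))) {w : Rr F}
    (hw : w ∈ Yg F (I F) (some k) m) : Xa F σ l ^ n ∣ Ψ.ψ π σ w := by
  unfold Yg at hw
  induction hw using Submodule.span_induction with
  | mem x hx =>
    obtain ⟨i, hi, r, -, rfl⟩ := hx
    have h1 := ((hasExp_xc (Ψ := Ψ) (π := π) (σ := σ) cO).pow (2 * i)).mul
      ((hasExp_xc (cG (some k))).pow (m - i))
    have h2 := h1.dvd l
    have h3 : Ideal.Quotient.mk (I F) (ym F (some k) m i r) = _ := mq_ym m i r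
    rw [h3, map_mul]
    exact Dvd.dvd.mul_right ((pow_dvd_pow _ (hE i hi)).trans h2) _
  | zero =>
    rw [map_zero]
    exact dvd_zero _
  | add x y _ _ hx hy =>
    rw [map_add]
    exact dvd_add hx hy
  | smul c x _ hx =>
    rw [smul_eq, map_mul]
    exact Dvd.dvd.mul_left hx _

lemma ord_cO : ordG (some k) cO = 1 := rfl

lemma ord_cG : ordG (some k) (cG (some k)) = 4 := by
  show cGe k k = 4
  unfold cGe
  rw [if_pos rfl]

lemma Yg_le_Vj (hRAY : XB.Stmt_Ray) (m : ℕ) : Yg F (I F) (some k) m ≤ Vj Ψ k (2 * m) := by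
  intro w hw π σ l hl
  refine Yg_dvd π σ l m (2 * m) (fun i hi => ?_) hw
  rw [(hRAY.1 _ π σ l hl).1, (hRAY.1 _ π σ l hl).1, ord_cO, ord_cG]
  omega

/-- The exponents away from the surface. -/
lemma Yg_dvd_G (π : Equiv.Perm (Fin 5)) (σ : Fin 6) (l : Fin 3) (m : ℕ)
    (hE : elc σ l (act π⁻¹ (cG (some k))) ≤ 2 * elc σ l (act π⁻¹ cO)) {w : Rr F}
    (hw : w ∈ Yg F (I F) (some k) m) :
    Xa F σ l ^ (m * elc σ l (act π⁻¹ (cG (some k)))) ∣ Ψ.ψ π σ w := by
  refine Yg_dvd π σ l m _ (fun i hi => ?_) hw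
  obtain ⟨j, rfl⟩ := Nat.exists_eq_add_of_le hi
  rw [Nat.add_sub_cancel_left]
  nlinarith

end filt

/-! ### The sections without poles -/

section nopole

variable {F : Type} [Field F] {Ψ : Chts F} {k : Fin 10}

lemma top_dvd (hRAY : XB.Stmt_Ray) (hRAZ : Stmt_Raz) (m : ℕ) {w : Rr F}
    (hw : w ∈ Yg F (I F) (some k) m ⊓ Vj Ψ k (4 * m)) (π : Equiv.Perm (Fin 5)) (σ : Fin 6) :
    Ψ.ψ π σ (mq (xc F (cG (some k))) ^ m) ∣ Ψ.ψ π σ w := by
  refine ((hasExp_xc (Ψ := Ψ) (π := π) (σ := σ) (cG (some k))).pow m).dvd' fun l => ?_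
  by_cases hl : RayOf (some k) π σ l
  · show Xa F σ l ^ (m * elc σ l (act π⁻¹ (cG (some k)))) ∣ _
    rw [(hRAY.1 _ π σ l hl).1, ord_cG, mul_comm]
    exact hw.2 π σ l hl
  · exact Yg_dvd_G π σ l m (hRAZ _ _ _ _ hl) hw.1

end nopole

/-! ### Linear forms on `X` -/

section forms

lemma indep (hFNH : XB.Stmt_Fnh) (F : Type) [Field F]
    (h : Fin 4 → MvPolynomial (Fin (N + 1)) F) (hh : ∀ i, (h i).IsHomogeneous 1)
    (hX : ∀ j, ∃ n : ℕ, (X j : MvPolynomial (Fin (N + 1)) F) ^ n ∈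
      Ideal.span (Set.range h) ⊔ I F) (q : MvPolynomial (Fin 4) F) (hq : aeval h q ∈ I F) :
    q = 0 := by
  by_contra hq0
  obtain ⟨T, hT⟩ := hFNH F (N + 1) 4 (I F) (XV.pri F).2 h hh hX
  let φ : MvPolynomial (Fin 4) F →ₐ[F] Rr F := (Ideal.Quotient.mkₐ F (I F)).comp (aeval h)
  have hφq : φ q = 0 := Ideal.Quotient.eq_zero_iff_mem.2 hq
  have hker : RingHom.ker φ.toRingHom ≠ ⊥ := by
    intro h0
    apply hq0
    have h1 : q ∈ RingHom.ker φ.toRingHom := hφq
    rw [h0] at h1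
    exact h1
  -- the quotient by the kernel
  let K : Ideal (MvPolynomial (Fin 4) F) := RingHom.ker φ.toRingHom
  let φ' : (MvPolynomial (Fin 4) F ⧸ K) →+* Rr F := RingHom.kerLift φ.toRingHom
  have hint : φ'.IsIntegral := by
    let _ : Algebra (MvPolynomial (Fin 4) F ⧸ K) (Rr F) := φ'.toAlgebra
    have hfin : Module.Finite (MvPolynomial (Fin 4) F ⧸ K) (Rr F) := by
      refine ⟨⟨T.image (Ideal.Quotient.mk (I F)), ?_⟩⟩
      rw [eq_top_iff]
      rintro x -
      obtain ⟨G, rfl⟩ := Ideal.Quotient.mk_surjective x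
      obtain ⟨q, hq⟩ := hT G
      rw [← Ideal.Quotient.eq_zero_iff_mem, map_sub, sub_eq_zero] at hq
      rw [hq, map_sum]
      refine Submodule.sum_mem _ fun m hm => ?_
      rw [map_mul]
      have h1 : Ideal.Quotient.mk (I F) (aeval h (q m)) * Ideal.Quotient.mk (I F) m =
          (Ideal.Quotient.mk K (q m)) • (Ideal.Quotient.mk (I F) m : Rr F) := by
        rw [Algebra.smul_def]
        rfl
      rw [h1]
      exact Submodule.smul_mem _ _ (Submodule.subset_span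
        (Finset.mem_coe.2 (Finset.mem_image_of_mem _ hm)))
    exact algebraMap_isIntegral_iff.2 (Algebra.IsIntegral.of_finite _ _)
  have hinj : Function.Injective φ' := RingHom.kerLift_injective _
  have hdom : IsDomain (Rr F) := (Ideal.Quotient.isDomain_iff_prime _).2 (XV.pri F).1
  have h1 : ringKrullDim (MvPolynomial (Fin 4) F ⧸ K) = ringKrullDim (Rr F) := by
    let _ : Algebra (MvPolynomial (Fin 4) F ⧸ K) (Rr F) := φ'.toAlgebra
    have : Algebra.IsIntegral (MvPolynomial (Fin 4) F ⧸ K) (Rr F) :=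
      algebraMap_isIntegral_iff.1 hint
    exact LibDb3ab1.ringKrullDim_eq_of_integral hinj
  have hle : Ideal.span {q} ≤ K := by
    rw [Ideal.span_singleton_le_iff_mem]
    exact hφq
  have h2 : ringKrullDim (MvPolynomial (Fin 4) F ⧸ K) + 1 ≤ 4 := by
    have h3 : ringKrullDim (MvPolynomial (Fin 4) F) = 4 := SPX_.dimP4
    have h4 := ringKrullDim_le_of_surjective (Ideal.Quotient.factor hle)
      (Ideal.Quotient.factor_surjective hle)
    have h5 := ringKrullDim_quotient_succ_le_of_nonZeroDivisor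
      (mem_nonZeroDivisors_iff_ne_zero.2 hq0)
    rw [h3] at h5
    refine le_trans ?_ h5
    gcongr
  rw [h1, XV.dim F] at h2
  exact absurd h2 (by decide)

end forms

end XSA_

end Pool.Agent.XS
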