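import Pool.Agent.XS.XSA2
import Pool.Agent.FRM.LZA
import Pool.Agent.FRM.LZE
import Pool.Agent.XB.LNF

/-!
# XS, module XSA: the steps of the filtration
-/

set_option autoImplicit false

noncomputable section

namespace Pool.Agent.XS

open scoped Classical
open MvPolynomial Pool.Agent.FRM Pool.Agent.XV Pool.Agent.XB

namespace XSA_

/-! ### Colon ideals -/

section colon

variable {F : Type} [Field F] {J : Ideal (MvPolynomial (Fin (N + 1)) F)}

/-- The multipliers of `v` into `(b)`. -/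
def col (v b : MvPolynomial (Fin (N + 1)) F ⧸ J) : Ideal (MvPolynomial (Fin (N + 1)) F) where
  carrier := {x | Ideal.Quotient.mk J x * v ∈ Ideal.span {b}}
  zero_mem' := by
    show Ideal.Quotient.mk J 0 * v ∈ Ideal.span {b}
    rw [map_zero, zero_mul]
    exact zero_mem _
  add_mem' := by
    intro x y hx hy
    show Ideal.Quotient.mk J (x + y) * v ∈ Ideal.span {b}
    rw [map_add, add_mul]
    exact add_mem hx hy
  smul_mem' := by
    intro c x hx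
    show Ideal.Quotient.mk J (c * x) * v ∈ Ideal.span {b}
    rw [map_mul, mul_assoc]
    exact Ideal.mul_mem_left _ _ hx

lemma mem_col {v b : MvPolynomial (Fin (N + 1)) F ⧸ J} {x : MvPolynomial (Fin (N + 1)) F} :
    x ∈ col v b ↔ Ideal.Quotient.mk J x * v ∈ Ideal.span {b} := Iff.rfl

lemma le_col (v b : MvPolynomial (Fin (N + 1)) F ⧸ J) : J ≤ col v b := by
  intro x hx
  rw [mem_col, Ideal.Quotient.eq_zero_iff_mem.2 hx, zero_mul]
  exact zero_mem _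

end colon

/-! ### The top of the filtration -/

lemma top_bound (hRAY : XB.Stmt_Ray) (hFNH : XB.Stmt_Fnh) (hRAZ : Stmt_Raz) (hXCV : Stmt_Xcv)
    (hXGB : Stmt_Xgb) (F : Type) [Field F] [IsAlgClosed F] (Ψ : Chts F) (k : Fin 10) :
    ∃ n₀ : ℕ, ∀ m : ℕ, Module.finrank F
      (Yg F (I F) (some k) m ⊓ Vj Ψ k (4 * m) : Submodule F (Rr F)) ≤
      Module.finrank F (qgr (I F) (m + n₀)) := by
  obtain ⟨h, hh, hX⟩ := HIX_.forms XV.dim XV.pri lza_proof lze_proof F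
  obtain ⟨n₀, hn⟩ := hXGB F 2 (I F) (XV.pri F).1 (XV.pri F).2 h hh hX (indep hFNH F h hh hX)
  refine ⟨n₀, fun m => ?_⟩
  refine hn m m (xc F (cG (some k)) ^ m) ?_ ?_ _ ?_ ?_
  · intro h0
    exact LNF_.xc_notMem F _ ((XV.pri F).1.mem_of_pow_mem m h0)
  · have h1 : (xc F (cG (some k)) ^ m).IsHomogeneous (1 * m) := (isHomogeneous_X F _).pow m
    rwa [one_mul] at h1
  · rw [← two_mul]
    exact inf_le_left.trans (Yg_le_qgr m)
  · intro w hw i
    have key : ∀ (π : Equiv.Perm (Fin 5)) (σ : Fin 6), ∃ n : ℕ,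
        chf F π σ ^ n ∈ col w (mq (xc F (cG (some k)) ^ m)) := by
      intro π σ
      have h1 := top_dvd hRAY hRAZ m hw π σ
      obtain ⟨n, r, hr⟩ := clear Ψ π σ h1
      refine ⟨n, ?_⟩
      rw [mem_col, map_pow]
      show mq (chf F π σ) ^ n * w ∈ _
      rw [hr]
      refine Ideal.mul_mem_left _ _ ?_
      unfold mq
      rw [← map_pow]
      exact Ideal.mem_span_singleton_self _
    choose n hn using key
    obtain ⟨M, hM⟩ : ∃ M, ∀ π σ, n π σ ≤ M := by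
      obtain ⟨M, hM⟩ := (Set.finite_range fun p : Equiv.Perm (Fin 5) × Fin 6 =>
        n p.1 p.2).bddAbove
      exact ⟨M, fun π σ => hM ⟨(π, σ), rfl⟩⟩
    obtain ⟨n', hn'⟩ := hXCV F M i
    refine ⟨n', ?_⟩
    have hle : Ideal.span {f | ∃ π σ, f = chf F π σ ^ M} ⊔ I F ≤
        col w (mq (xc F (cG (some k)) ^ m)) := by
      refine sup_le ?_ (le_col _ _)
      rw [Ideal.span_le]
      rintro _ ⟨π, σ, rfl⟩
      exact Ideal.pow_mem_of_pow_mem _ (hn π σ) (hM π σ)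
    have h3 := hle hn'
    rw [mem_col, map_pow] at h3
    exact h3

/-! ### The steps -/

section step

variable {F : Type} [Field F] {Ψ : Chts F} {k : Fin 10}

/-- The denominators. -/
def tt (F : Type) [Field F] (k : Fin 10) (m c : ℕ) : Rr F :=
  mq (xc F (cG (some k))) ^ m * mq (xc F cO) ^ c

/-- The multipliers. -/
def uu (F : Type) [Field F] (k : Fin 10) (α β : ℕ) : Rr F :=
  mq (xc F cO) ^ α * mq (xc F (cG (some k))) ^ β

lemma tt_exp (π : Equiv.Perm (Fin 5)) (σ : Fin 6) (m c : ℕ) :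
    HasExp Ψ π σ (tt F k m c) fun l => m * elc σ l (act π⁻¹ (cG (some k))) +
      c * elc σ l (act π⁻¹ cO) :=
  ((hasExp_xc _).pow m).mul ((hasExp_xc _).pow c)

lemma uu_exp (π : Equiv.Perm (Fin 5)) (σ : Fin 6) (α β : ℕ) :
    HasExp Ψ π σ (uu F k α β) fun l => α * elc σ l (act π⁻¹ cO) +
      β * elc σ l (act π⁻¹ (cG (some k))) :=
  ((hasExp_xc _).pow α).mul ((hasExp_xc _).pow β)

lemma ray_dvd (hRAY : XB.Stmt_Ray) {m j α β c : ℕ} (h1 : c ≤ α + 2 * β)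
    (h2 : j + α + 4 * β = 4 * m + c) {w : Rr F}
    (hw : w ∈ Yg F (I F) (some k) m ⊓ Vj Ψ k j) {π : Equiv.Perm (Fin 5)} {σ : Fin 6} {l : Fin 3}
    (hl : RayOf (some k) π σ l) : Ψ.ψ π σ (tt F k m c) ∣ Ψ.ψ π σ (w * uu F k α β) := by
  refine (tt_exp π σ m c).dvd' fun l' => ?_
  rw [map_mul]
  have hu := (uu_exp (Ψ := Ψ) (k := k) π σ α β).dvd l'
  by_cases hll : l' = l
  · subst hll
    refine dvd_trans ?_ (mul_dvd_mul (hw.2 π σ l' hl) hu)
    rw [← pow_add]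
    refine pow_dvd_pow _ ?_
    show m * elc σ l' (act π⁻¹ (cG (some k))) + c * elc σ l' (act π⁻¹ cO) ≤
      j + (α * elc σ l' (act π⁻¹ cO) + β * elc σ l' (act π⁻¹ (cG (some k))))
    rw [(hRAY.1 _ π σ l' hl).1, (hRAY.1 _ π σ l' hl).1, ord_cO, ord_cG]
    omega
  · have hE := (hRAY.1 _ π σ l hl).2 l'
    rw [if_neg hll, add_zero] at hE
    refine dvd_trans ?_ (mul_dvd_mul (Yg_dvd_G π σ l' m hE.le hw.1) hu)
    rw [← pow_add]
    refine pow_dvd_pow _ ?_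
    show m * elc σ l' (act π⁻¹ (cG (some k))) + c * elc σ l' (act π⁻¹ cO) ≤
      m * elc σ l' (act π⁻¹ (cG (some k))) +
      (α * elc σ l' (act π⁻¹ cO) + β * elc σ l' (act π⁻¹ (cG (some k))))
    rw [hE]
    have h3 := Nat.mul_le_mul_right (elc σ l' (act π⁻¹ cO)) h1
    nlinarith

lemma step_up (hRAY : XB.Stmt_Ray) {m j α β c M : ℕ}
    (h2 : j + α + 4 * β = 4 * m + c) {w q f : Rr F}
    {π : Equiv.Perm (Fin 5)} {σ : Fin 6} {l : Fin 3} (hl : RayOf (some k) π σ l)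
    (hf : ¬Xa F σ l ∣ Ψ.ψ π σ f) (hq : Xa F σ l ∣ Ψ.ψ π σ q)
    (h : f ^ M * uu F k α β * w = q * tt F k m c) : Xa F σ l ^ (j + 1) ∣ Ψ.ψ π σ w := by
  have hdom := LCG_.isDomain F σ
  have hp := (LCG_.Xa_prime F σ l).1
  have h3 := congrArg (Ψ.ψ π σ) h
  rw [map_mul, map_mul, map_mul, map_pow] at h3
  have ht := (tt_exp (Ψ := Ψ) (k := k) π σ m c).dvd l
  have h4 : Xa F σ l ^ ((j + 1) + (α * elc σ l (act π⁻¹ cO) +
      β * elc σ l (act π⁻¹ (cG (some k))))) ∣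
      Ψ.ψ π σ (uu F k α β) * (Ψ.ψ π σ f ^ M * Ψ.ψ π σ w) := by
    have h5 : Ψ.ψ π σ (uu F k α β) * (Ψ.ψ π σ f ^ M * Ψ.ψ π σ w) =
        Ψ.ψ π σ q * Ψ.ψ π σ (tt F k m c) := by
      rw [← h3]
      ring
    rw [h5]
    refine dvd_trans ?_ (mul_dvd_mul hq ht)
    rw [← pow_succ']
    refine pow_dvd_pow _ ?_
    rw [(hRAY.1 _ π σ l hl).1, (hRAY.1 _ π σ l hl).1, ord_cO, ord_cG]
    omega
  have h6 := (uu_exp (Ψ := Ψ) (k := k) π σ α β).cancel h4
  exact hp.pow_dvd_of_dvd_mul_left _ (fun h7 => hf (hp.dvd_of_dvd_pow h7)) h6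

end step

end XSA_

end Pool.Agent.XS
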