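import Pool.Agent.XS.Stmts

/-!
# XSL: lower bound for the Hilbert function of `G`
-/

set_option autoImplicit false

noncomputable section

namespace Pool.Agent.XS

open scoped Classical
open MvPolynomial Pool.Agent.FRM Pool.Agent.XV Pool.Agent.XB

namespace XSL_

theorem sum1 (c n : ℕ) : 2 * ∑ s ∈ Finset.range n, (s + c) + n = n * n + 2 * n * c := by
  induction n with
  | zero => simp
  | succ n ih =>
    rw [Finset.sum_range_succ]
    linarith

theorem sum2 (n : ℕ) : ∑ s ∈ Finset.range n, (2 * s + 1) = n * n := by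
  induction n with
  | zero => simp
  | succ n ih =>
    rw [Finset.sum_range_succ]
    linarith

/-- The lattice points of the pentagon. -/
abbrev Idx (m : ℕ) : Type :=
  (Σ s : Fin (2 * m), Fin ((s : ℕ) + (2 * m + 1))) ⊕ (Σ j : Fin (2 * m + 1), Fin (2 * (j : ℕ) + 1))

/-- The coordinates of the lattice points. -/
def crd (m : ℕ) : Idx m → ℕ × ℕ
  | .inl x => (x.1, x.2)
  | .inr x => (4 * m - x.1, 2 * m - x.1 + x.2)

theorem crd_inj (m : ℕ) : Function.Injective (crd m) := by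
  intro x y h
  rcases x with ⟨⟨s, hs⟩, ⟨t, ht⟩⟩ | ⟨⟨s, hs⟩, ⟨t, ht⟩⟩ <;>
    rcases y with ⟨⟨s', hs'⟩, ⟨t', ht'⟩⟩ | ⟨⟨s', hs'⟩, ⟨t', ht'⟩⟩ <;>
    simp only [crd, Prod.mk.injEq] at h ht ht'
  · obtain ⟨rfl, rfl⟩ := h
    rfl
  · omega
  · omega
  · obtain ⟨h1, h2⟩ := h
    obtain rfl : s = s' := by omega
    obtain rfl : t = t' := by omega
    rfl

theorem crd_mem (m : ℕ) (x : Idx m) : (crd m x).1 ≤ 4 * m ∧ (crd m x).2 ≤ 4 * m ∧
    (crd m x).1 ≤ (crd m x).2 + 2 * m ∧ (crd m x).2 ≤ (crd m x).1 + 2 * m ∧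
    (crd m x).1 + (crd m x).2 ≤ 6 * m := by
  rcases x with ⟨⟨s, hs⟩, ⟨t, ht⟩⟩ | ⟨⟨s, hs⟩, ⟨t, ht⟩⟩ <;> simp only [crd] at ht ⊢ <;> omega

theorem crd_card (m : ℕ) : Fintype.card (Idx m) = 10 * m ^ 2 + 5 * m + 1 := by
  have h1 := sum1 (2 * m + 1) (2 * m)
  have h2 := sum2 (2 * m + 1)
  rw [Fintype.card_sum, Fintype.card_sigma, Fintype.card_sigma]
  simp only [Fintype.card_fin]
  rw [Fin.sum_univ_eq_sum_range (fun s => s + (2 * m + 1)) (2 * m),
    Fin.sum_univ_eq_sum_range (fun s => 2 * s + 1) (2 * m + 1), h2]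
  nlinarith

instance (F : Type) [Field F] (J : Ideal (MvPolynomial (Fin (N + 1)) F)) (m : ℕ) :
    Module.Finite F (qgr J m) := by
  have : Module.Finite F (homogeneousSubmodule (Fin (N + 1)) F m) :=
    Module.Finite.iff_fg.2 (homogeneousSubmodule_fg (Fin (N + 1)) F m)
  unfold qgr
  infer_instance

theorem prod_mem (F : Type) [Field F] (J : Ideal (MvPolynomial (Fin (N + 1)) F))
    (A : Multiset Pt) :
    Ideal.Quotient.mk J ((A.map (xc F)).prod) ∈ qgr J (Multiset.card A) := by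
  refine ⟨(A.map (xc F)).prod, ?_, rfl⟩
  show ((A.map (xc F)).prod).IsHomogeneous (Multiset.card A)
  induction A using Multiset.induction_on with
  | empty =>
    rw [Multiset.map_zero, Multiset.prod_zero, Multiset.card_zero]
    exact isHomogeneous_one (Fin (N + 1)) F
  | cons a A ih =>
    rw [Multiset.map_cons, Multiset.prod_cons, Multiset.card_cons, add_comm (Multiset.card A)]
    exact (isHomogeneous_X F _).mul ih

theorem le_of_family (F : Type) [Field F] (J : Ideal (MvPolynomial (Fin (N + 1)) F)) (m : ℕ)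
    (ι : Type) [Fintype ι] (v : ι → MvPolynomial (Fin (N + 1)) F ⧸ J)
    (hv : LinearIndependent F v) (hm : ∀ i, v i ∈ qgr J m) :
    Fintype.card ι ≤ Module.finrank F (qgr J m) := by
  have h : LinearIndependent F (fun i => (⟨v i, hm i⟩ : qgr J m)) :=
    LinearIndependent.of_comp (qgr J m).subtype hv
  exact h.fintype_card_le_finrank

end XSL_

open XSL_

theorem xsl_proof (hXIN : Stmt_Xin) (hXLA : Stmt_Xla) : Stmt_Xsl := by
  intro F _ m
  have h1 : ∀ x : Idx m, ∃ A : Multiset Pt, Multiset.card A = m ∧ (∀ c ∈ A, c.w = 0) ∧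
      (A.map fun c => c.e (pe 1 0)).sum = (crd m x).1 ∧
      (A.map fun c => c.e (pe 1 7)).sum = (crd m x).2 := by
    intro x
    obtain ⟨k1, k2, k3, k4, k5⟩ := crd_mem m x
    exact hXLA 1 m _ _ k1 k2 k3 k4 k5
  choose A hA1 hA2 hA3 hA4 using h1
  have h2 : LinearIndependent F fun x : Idx m =>
      Ideal.Quotient.mk (JI F none) (((A x).map (xc F)).prod) := by
    refine hXIN F 1 (Idx m) A hA2 ?_
    intro x y h
    refine crd_inj m ?_
    simp only [hA3, hA4] at h
    exact h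
  have h3 := le_of_family F (JI F none) m (Idx m) _ h2 fun x => by
    have := prod_mem F (JI F none) (A x)
    rwa [hA1] at this
  rw [crd_card] at h3
  omega

end Pool.Agent.XS
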